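import Mathlib

/-!
# Lie algebras with a complex structure and an SKT inner product

`V` is a real vector space with a Lie bracket `br` and an integrable complex structure `J`.
-/

set_option autoImplicit false

namespace Run7.h533

open Finset

/-- a Lie algebra with an integrable complex structure -/
structure CxLie (V : Type*) [AddCommGroup V] [Module ℝ V] where
  br : V →ₗ[ℝ] V →ₗ[ℝ] V
  J : V →ₗ[ℝ] V
  br_self : ∀ x, br x x = 0
  jacobi : ∀ x y z, br x (br y z) + br y (br z x) + br z (br x y) = 0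
  J_sq : ∀ x, J (J x) = -x
  nij : ∀ x y, br (J x) (J y) - J (br (J x) y) - J (br x (J y)) - br x y = 0

variable {V : Type*} [AddCommGroup V] [Module ℝ V] (D : CxLie V)

namespace CxLie

lemma br_swap (x y : V) : D.br x y = -D.br y x := by
  have h := D.br_self (x + y)
  simp only [map_add, LinearMap.add_apply, D.br_self, zero_add, add_zero] at h
  exact eq_neg_of_add_eq_zero_right h

lemma leib (x y z : V) : D.br x (D.br y z) = D.br (D.br x y) z + D.br y (D.br x z) := by
  have h := D.jacobi x y z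
  rw [D.br_swap z (D.br x y), D.br_swap z x, map_neg] at h
  rw [← sub_eq_zero, ← h]
  abel

/-- the torsion three-form of a bilinear form -/
def H (b : V →ₗ[ℝ] V →ₗ[ℝ] ℝ) (x y z : V) : ℝ :=
  -b (D.br (D.J x) (D.J y)) z - b (D.br (D.J y) (D.J z)) x - b (D.br (D.J z) (D.J x)) y

/-- the exterior derivative of the torsion form -/
def dH (b : V →ₗ[ℝ] V →ₗ[ℝ] ℝ) (x y z w : V) : ℝ :=
  -D.H b (D.br x y) z w + D.H b (D.br x z) y w - D.H b (D.br x w) y z
    - D.H b (D.br y z) x w + D.H b (D.br y w) x z - D.H b (D.br z w) x y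

/-- the symmetric form `(x, y) ↦ ½ (ξ [x, J y] + ξ [y, J x])` -/
noncomputable def bf (ξ : V →ₗ[ℝ] ℝ) : V →ₗ[ℝ] V →ₗ[ℝ] ℝ :=
  LinearMap.mk₂ ℝ (fun x y => (1 / 2) * (ξ (D.br x (D.J y)) + ξ (D.br y (D.J x))))
    (by intro a b c; simp only [map_add, LinearMap.add_apply]; ring)
    (by intro r a c; simp only [map_smul, LinearMap.smul_apply, smul_eq_mul]; ring)
    (by intro a b c; simp only [map_add, LinearMap.add_apply]; ring)
    (by intro r a c; simp only [map_smul, LinearMap.smul_apply, smul_eq_mul]; ring)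

@[simp] lemma bf_apply (ξ : V →ₗ[ℝ] ℝ) (x y : V) :
    D.bf ξ x y = (1 / 2) * (ξ (D.br x (D.J y)) + ξ (D.br y (D.J x))) := rfl

lemma bf_symm (ξ : V →ₗ[ℝ] ℝ) (x y : V) : D.bf ξ x y = D.bf ξ y x := by
  simp only [bf_apply]; ring

lemma nij' (x y : V) : D.br (D.J x) (D.J y) = D.J (D.br (D.J x) y) + D.J (D.br x (D.J y)) + D.br x y := by
  have := D.nij x y
  rw [← sub_eq_zero, ← this]; abel

lemma bf_J (ξ : V →ₗ[ℝ] ℝ) (x y : V) : D.bf ξ (D.J x) (D.J y) = D.bf ξ x y := by
  simp only [bf_apply, D.J_sq, map_neg]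
  rw [D.br_swap (D.J x) y, D.br_swap (D.J y) x]
  simp only [map_neg, neg_neg]
  ring

/-- the form `bf ξ` only depends on torsion through an exact term -/
lemma H_bf (ξ : V →ₗ[ℝ] ℝ) (x y z : V) : D.H (D.bf ξ) x y z =
    -(1 / 2) * (ξ (D.br z (D.J (D.br (D.J x) (D.J y)))) + ξ (D.br x (D.J (D.br (D.J y) (D.J z))))
      + ξ (D.br y (D.J (D.br (D.J z) (D.J x))))) := by
  have h := congrArg ξ (D.jacobi (D.J z) (D.J x) (D.J y))
  simp only [map_add, map_zero] at h
  simp only [H, bf_apply]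
  rw [D.br_swap (D.br (D.J x) (D.J y)) (D.J z), D.br_swap (D.br (D.J y) (D.J z)) (D.J x),
    D.br_swap (D.br (D.J z) (D.J x)) (D.J y)]
  simp only [map_neg]
  linear_combination (1 / 2) * h

/-- `J [J u, J v] = J [u, v] - [J u, v] - [u, J v]` -/
lemma J_br_JJ (u v : V) : D.J (D.br (D.J u) (D.J v)) =
    D.J (D.br u v) - D.br (D.J u) v - D.br u (D.J v) := by
  rw [D.nij' u v]
  simp only [map_add, D.J_sq]
  abel

lemma jac3 (x y z : V) : D.br (D.br x y) z - D.br (D.br x z) y + D.br (D.br y z) x = 0 := by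
  have h := D.jacobi x y z
  rw [D.br_swap x (D.br y z), D.br_swap y (D.br z x), D.br_swap z (D.br x y), D.br_swap z x] at h
  simp only [map_neg, LinearMap.neg_apply, neg_neg] at h
  have h2 := congrArg Neg.neg h
  rw [neg_zero] at h2
  rw [← h2]; abel

/-- expansion of one term of `dH (bf ξ)` -/
lemma H_bf_br (ξ : V →ₗ[ℝ] ℝ) (x y z w : V) : D.H (D.bf ξ) (D.br x y) z w =
    -(1 / 2) * (ξ (D.br w (D.J (D.br (D.br x y) z))) - ξ (D.br z (D.J (D.br (D.br x y) w)))
      + ξ (D.br (D.J (D.br x y)) (D.br z w)) + ξ (D.br (D.br x y) (D.J (D.br z w)))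
      - ξ (D.br (D.J z) (D.br (D.br x y) w)) + ξ (D.br (D.J w) (D.br (D.br x y) z))) := by
  rw [H_bf]
  generalize D.br x y = p
  simp only [J_br_JJ, map_sub]
  have h1 := congrArg ξ (D.leib p (D.J z) w)
  have h2 := congrArg ξ (D.leib p z (D.J w))
  have h3 := congrArg ξ (D.leib (D.J p) z w)
  simp only [map_add] at h1 h2 h3
  rw [D.br_swap w p]
  rw [D.br_swap (D.J w) p]
  rw [D.br_swap w (D.J p)]
  rw [D.br_swap (D.br p (D.J z)) w] at h1
  rw [D.br_swap (D.br p z) (D.J w)] at h2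
  rw [D.br_swap (D.br (D.J p) z) w] at h3
  simp only [map_neg] at h1 h2 h3 ⊢
  linear_combination (1/2) * h1 + (1/2) * h2 + (1/2) * h3

theorem dH_bf (ξ : V →ₗ[ℝ] ℝ) (x y z w : V) : D.dH (D.bf ξ) x y z w = 0 := by
  have e1 := fun a b c d => congrArg (fun v => ξ (D.br a (D.J v))) (D.jac3 b c d)
  have e2 := fun a b c d => congrArg (fun v => ξ (D.br (D.J a) v)) (D.jac3 b c d)
  simp only [map_add, map_sub, map_zero] at e1 e2
  simp only [dH, H_bf_br]
  have s1 := congrArg ξ (D.br_swap (D.J (D.br x y)) (D.br z w))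
  have s2 := congrArg ξ (D.br_swap (D.br x y) (D.J (D.br z w)))
  have s3 := congrArg ξ (D.br_swap (D.J (D.br x z)) (D.br y w))
  have s4 := congrArg ξ (D.br_swap (D.br x z) (D.J (D.br y w)))
  have s5 := congrArg ξ (D.br_swap (D.J (D.br x w)) (D.br y z))
  have s6 := congrArg ξ (D.br_swap (D.br x w) (D.J (D.br y z)))
  simp only [map_neg] at s1 s2 s3 s4 s5 s6
  linear_combination (1/2) * (e1 w x y z - e1 z x y w + e1 y x z w - e1 x y z w)
    + (1/2) * (e2 w x y z - e2 z x y w + e2 y x z w - e2 x y z w)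
    + (1/2) * (s1 + s2 - s3 - s4 + s5 + s6)

end CxLie

end Run7.h533
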