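import Mathlib
import Pool.Agent.Run7.h533.Alg

/-!
# The key identity for SKT inner products on unimodular Lie algebras with complex structure
-/

set_option autoImplicit false

namespace Run7.h533

open Finset Matrix

section MatrixPart

variable {ι : Type*} [Fintype ι] [DecidableEq ι]

lemma trace_tmul_self_nonneg (M : Matrix ι ι ℝ) : 0 ≤ (Mᵀ * M).trace := by
  simp only [Matrix.trace, Matrix.diag, Matrix.mul_apply, Matrix.transpose_apply]
  exact sum_nonneg fun i _ => sum_nonneg fun j _ => mul_self_nonneg _

/-- the algebraic inequality behind the monotonicity -/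
lemma matrix_ineq (J A B : Matrix ι ι ℝ) (hJ : Jᵀ = -J) (hJJ : J * J = -1)
    (hN : B * J - J * B = A + J * A * J) :
    0 ≤ (Aᵀ * A).trace + (Bᵀ * B).trace - (J * A * (J * A)).trace - (J * B * (J * B)).trace
      + (J * (A * B - B * A)).trace := by
  have hN2 : B + J * B * J = J * A - A * J := by
    have h := congrArg (fun M => J * M) hN
    simp only [mul_sub, mul_add, ← mul_assoc] at h
    rw [hJJ] at h
    simp only [neg_mul, one_mul] at h
    have h3 : J * B * J + B = J * A - A * J := by
      rw [← sub_neg_eq_add, h]
      abel
    rw [add_comm, h3]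
  -- the sums of squares
  have key : ∀ M : Matrix ι ι ℝ,
      0 ≤ (Mᵀ * M).trace + (Mᵀ * (J * M * J)).trace := by
    intro M
    have h := trace_tmul_self_nonneg (M + J * M * J)
    have e1 : ((M + J * M * J)ᵀ * (M + J * M * J)).trace =
        2 * ((Mᵀ * M).trace + (Mᵀ * (J * M * J)).trace) := by
      have ht : (M + J * M * J)ᵀ = Mᵀ + J * Mᵀ * J := by
        rw [transpose_add, transpose_mul, transpose_mul, hJ]
        simp [mul_assoc]
      rw [ht]
      have : (Mᵀ + J * Mᵀ * J) * (M + J * M * J) =
          Mᵀ * M + Mᵀ * (J * M * J) + J * Mᵀ * J * M - J * Mᵀ * M * J := by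
        have : J * Mᵀ * J * (J * M * J) = -(J * Mᵀ * M * J) := by
          calc J * Mᵀ * J * (J * M * J) = J * Mᵀ * (J * J) * M * J := by simp only [mul_assoc]
            _ = _ := by rw [hJJ]; simp [mul_assoc]
        rw [add_mul, mul_add, mul_add, this]
        abel
      rw [this, trace_sub, trace_add, trace_add]
      have e2 : (J * Mᵀ * J * M).trace = (Mᵀ * (J * M * J)).trace := by
        calc (J * Mᵀ * J * M).trace = (J * (Mᵀ * J * M)).trace := by simp only [mul_assoc]
          _ = ((Mᵀ * J * M) * J).trace := trace_mul_comm _ _
          _ = _ := by simp only [mul_assoc]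
      have e3 : (J * Mᵀ * M * J).trace = -(Mᵀ * M).trace := by
        calc (J * Mᵀ * M * J).trace = (J * (Mᵀ * M * J)).trace := by simp only [mul_assoc]
          _ = ((Mᵀ * M * J) * J).trace := trace_mul_comm _ _
          _ = (Mᵀ * M * (J * J)).trace := by simp only [mul_assoc]
          _ = _ := by rw [hJJ]; simp
      rw [e2, e3]; ring
    linarith [e1 ▸ h]
  have key2 : ∀ M : Matrix ι ι ℝ,
      0 ≤ (Mᵀ * M).trace - (Mᵀ * (J * M * J)).trace + (M * M).trace - (J * M * (J * M)).trace := by
    intro M
    set K := M - J * M * J with hK
    have h := trace_tmul_self_nonneg (K + Kᵀ)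
    have e0 : ((K + Kᵀ)ᵀ * (K + Kᵀ)).trace = 2 * (Kᵀ * K).trace + 2 * (K * K).trace := by
      rw [transpose_add, transpose_transpose, add_mul, mul_add, mul_add, trace_add, trace_add,
        trace_add, trace_mul_comm K Kᵀ]
      have : (Kᵀ * Kᵀ).trace = (K * K).trace := by
        rw [← transpose_mul, trace_transpose]
      rw [this]; ring
    have e1 : (Kᵀ * K).trace = 2 * ((Mᵀ * M).trace - (Mᵀ * (J * M * J)).trace) := by
      have ht : Kᵀ = Mᵀ - J * Mᵀ * J := by
        rw [hK, transpose_sub, transpose_mul, transpose_mul, hJ]
        simp [mul_assoc]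
      rw [ht, hK]
      have : (Mᵀ - J * Mᵀ * J) * (M - J * M * J) =
          Mᵀ * M - Mᵀ * (J * M * J) - J * Mᵀ * J * M - J * Mᵀ * M * J := by
        have : J * Mᵀ * J * (J * M * J) = -(J * Mᵀ * M * J) := by
          calc J * Mᵀ * J * (J * M * J) = J * Mᵀ * (J * J) * M * J := by simp only [mul_assoc]
            _ = _ := by rw [hJJ]; simp [mul_assoc]
        rw [sub_mul, mul_sub, mul_sub, this]
        abel
      rw [this, trace_sub, trace_sub, trace_sub]
      have e2 : (J * Mᵀ * J * M).trace = (Mᵀ * (J * M * J)).trace := by
        calc (J * Mᵀ * J * M).trace = (J * (Mᵀ * J * M)).trace := by simp only [mul_assoc]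
          _ = ((Mᵀ * J * M) * J).trace := trace_mul_comm _ _
          _ = _ := by simp only [mul_assoc]
      have e3 : (J * Mᵀ * M * J).trace = -(Mᵀ * M).trace := by
        calc (J * Mᵀ * M * J).trace = (J * (Mᵀ * M * J)).trace := by simp only [mul_assoc]
          _ = ((Mᵀ * M * J) * J).trace := trace_mul_comm _ _
          _ = (Mᵀ * M * (J * J)).trace := by simp only [mul_assoc]
          _ = _ := by rw [hJJ]; simp
      rw [e2, e3]; ring
    have e4 : (K * K).trace = 2 * ((M * M).trace - (J * M * (J * M)).trace) := by
      rw [hK]
      have : (M - J * M * J) * (M - J * M * J) =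
          M * M - M * (J * M * J) - J * M * J * M - J * M * M * J := by
        have : J * M * J * (J * M * J) = -(J * M * M * J) := by
          calc J * M * J * (J * M * J) = J * M * (J * J) * M * J := by simp only [mul_assoc]
            _ = _ := by rw [hJJ]; simp [mul_assoc]
        rw [sub_mul, mul_sub, mul_sub, this]
        abel
      rw [this, trace_sub, trace_sub, trace_sub]
      have e2 : (M * (J * M * J)).trace = (J * M * (J * M)).trace := by
        calc (M * (J * M * J)).trace = ((M * (J * M)) * J).trace := by simp only [mul_assoc]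
          _ = (J * (M * (J * M))).trace := trace_mul_comm _ _
          _ = _ := by simp only [mul_assoc]
      have e3 : (J * M * M * J).trace = -(M * M).trace := by
        calc (J * M * M * J).trace = (J * (M * M * J)).trace := by simp only [mul_assoc]
          _ = ((M * M * J) * J).trace := trace_mul_comm _ _
          _ = (M * M * (J * J)).trace := by simp only [mul_assoc]
          _ = _ := by rw [hJJ]; simp
      have e5 : (J * M * J * M).trace = (J * M * (J * M)).trace := by simp only [mul_assoc]
      rw [e2, e3, e5]; ring
    rw [e0, e1, e4] at h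
    linarith
  have r1 : (J * (A * B - B * A)).trace = (A * A).trace + (J * A * (J * A)).trace := by
    have h := congrArg (fun M => (A * M).trace) hN
    simp only [mul_sub, mul_add, trace_sub, trace_add] at h
    rw [mul_sub, trace_sub]
    have e1 : (A * (B * J)).trace = (J * (A * B)).trace := by
      rw [← mul_assoc, trace_mul_comm]
    have e2 : (A * (J * B)).trace = (J * (B * A)).trace := by
      rw [trace_mul_comm, mul_assoc]
    have e3 : (A * (J * A * J)).trace = (J * A * (J * A)).trace := by
      calc (A * (J * A * J)).trace = ((A * (J * A)) * J).trace := by simp only [mul_assoc]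
        _ = (J * (A * (J * A))).trace := trace_mul_comm _ _
        _ = _ := by simp only [mul_assoc]
    linarith
  have r2 : (J * (A * B - B * A)).trace = (B * B).trace + (J * B * (J * B)).trace := by
    have h := congrArg (fun M => (M * B).trace) hN2
    simp only [sub_mul, add_mul, trace_sub, trace_add] at h
    rw [mul_sub, trace_sub]
    have e1 : (J * A * B).trace = (J * (A * B)).trace := by rw [mul_assoc]
    have e2 : (A * J * B).trace = (J * (B * A)).trace := by
      rw [mul_assoc, trace_mul_comm, mul_assoc]
    have e3 : (J * B * J * B).trace = (J * B * (J * B)).trace := by simp only [mul_assoc]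
    linarith
  have k1 := key A
  have k2 := key B
  have k3 := key2 A
  have k4 := key2 B
  linarith

end MatrixPart

end Run7.h533
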