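import Mathlib
import Pool.Agent.Run7.h533.Key

/-!
# The contracted SKT identity
-/

set_option autoImplicit false

namespace Run7.h533

open Finset Matrix

variable {V : Type*} [AddCommGroup V] [Module ℝ V] (D : CxLie V)
variable {ι : Type*} [Fintype ι] [DecidableEq ι]

/-- `e` is an orthonormal basis for `g` -/
def IsONB (g : V →ₗ[ℝ] V →ₗ[ℝ] ℝ) (e : Module.Basis ι ℝ V) : Prop :=
  ∀ i j, g (e i) (e j) = if i = j then 1 else 0

section

variable {g : V →ₗ[ℝ] V →ₗ[ℝ] ℝ} {e : Module.Basis ι ℝ V}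

lemma IsONB.repr (he : IsONB g e) (x : V) (i : ι) : e.repr x i = g (e i) x := by
  conv_rhs => rw [← e.sum_repr x]
  simp only [map_sum, map_smul, smul_eq_mul]
  rw [Finset.sum_eq_single i]
  · rw [he i i]; simp
  · intro j _ hj; rw [he i j, if_neg (Ne.symm hj)]; simp
  · simp

lemma IsONB.expand (he : IsONB g e) (x : V) : ∑ i, g (e i) x • e i = x := by
  conv_rhs => rw [← e.sum_repr x]
  exact Finset.sum_congr rfl fun i _ => by rw [he.repr]

lemma IsONB.trace (he : IsONB g e) (A : V →ₗ[ℝ] V) :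
    LinearMap.trace ℝ V A = ∑ i, g (e i) (A (e i)) := by
  rw [LinearMap.trace_eq_matrix_trace ℝ e]
  simp only [Matrix.trace, Matrix.diag, LinearMap.toMatrix_apply, he.repr]

variable (hsym : ∀ x y, g x y = g y x) (hJ : ∀ x y, g (D.J x) (D.J y) = g x y)

include hJ in
lemma gJ (x y : V) : g (D.J x) y = -g x (D.J y) := by
  have := hJ x (D.J y)
  rw [D.J_sq, map_neg] at this
  linarith

include hsym hJ in
/-- moving `J` across a sum over an orthonormal basis -/
lemma sum_J (he : IsONB g e) (f : V → V → ℝ)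
    (h1 : ∀ a b c, f (a + b) c = f a c + f b c) (h2 : ∀ (r : ℝ) a c, f (r • a) c = r * f a c)
    (h3 : ∀ a b c, f a (b + c) = f a b + f a c) (h4 : ∀ (r : ℝ) a c, f a (r • c) = r * f a c) :
    ∑ a, f (D.J (e a)) (e a) = -∑ a, f (e a) (D.J (e a)) := by
  let B : V →ₗ[ℝ] V →ₗ[ℝ] ℝ := LinearMap.mk₂ ℝ f h1 (by simpa using h2) h3 (by simpa using h4)
  have hB : ∀ x y, f x y = B x y := fun x y => rfl
  simp only [hB]
  have e1 : ∀ a, B (D.J (e a)) (e a) = ∑ b, g (e b) (D.J (e a)) * B (e b) (e a) := by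
    intro a
    conv_lhs => rw [← he.expand (D.J (e a))]
    simp [map_sum]
  have e2 : ∀ b, B (e b) (D.J (e b)) = ∑ a, g (e a) (D.J (e b)) * B (e b) (e a) := by
    intro b
    conv_lhs => rw [← he.expand (D.J (e b))]
    simp [map_sum]
  rw [Finset.sum_congr rfl fun a _ => e1 a, Finset.sum_congr rfl fun b _ => e2 b,
    Finset.sum_comm, ← Finset.sum_neg_distrib]
  refine Finset.sum_congr rfl fun b _ => ?_
  rw [← Finset.sum_neg_distrib]
  refine Finset.sum_congr rfl fun a _ => ?_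
  have := gJ D hJ (e b) (e a)
  rw [hsym (e a) (D.J (e b)), this]
  ring

/-- condition that `dξ` is of type `(1,1)` -/
def T11 (ξ : V →ₗ[ℝ] ℝ) : Prop := ∀ y z, ξ (D.br (D.J y) (D.J z)) = ξ (D.br y z)

lemma T11.swap {ξ : V →ₗ[ℝ] ℝ} (h : T11 D ξ) (y z : V) :
    ξ (D.br (D.J y) z) = -ξ (D.br y (D.J z)) := by
  have := h (D.J y) z
  rw [D.J_sq, map_neg, LinearMap.neg_apply, map_neg] at this
  rw [← this]

lemma T11.comp_J {ξ : V →ₗ[ℝ] ℝ} (h : T11 D ξ) : T11 D (ξ ∘ₗ D.J) := by
  intro y z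
  simp only [LinearMap.comp_apply, D.J_br_JJ, map_sub]
  rw [h.swap D]
  ring

/-- the vector `∑ [e_a, J e_a]` -/
noncomputable def vv (e : Module.Basis ι ℝ V) : V := ∑ a, D.br (e a) (D.J (e a))

include hsym hJ in
lemma C1 (he : IsONB g e) {ξ : V →ₗ[ℝ] ℝ} (h : T11 D ξ) (U : V) :
    ∑ a, ξ (D.br (e a) (D.J (D.br U (e a)))) = (1 / 2) * ξ (D.br U (vv D e)) := by
  have e1 : ∀ a, ξ (D.br (e a) (D.J (D.br U (e a)))) = ξ (D.br (D.br U (e a)) (D.J (e a))) := by
    intro a
    have := h (e a) (D.J (D.br U (e a)))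
    rw [D.J_sq, map_neg, map_neg] at this
    rw [← this, D.br_swap (D.br U (e a)) (D.J (e a)), map_neg]
  rw [Finset.sum_congr rfl fun a _ => e1 a]
  have e2 : ξ (D.br U (vv D e)) = ∑ a, ξ (D.br (D.br U (e a)) (D.J (e a)))
      + ∑ a, ξ (D.br (e a) (D.br U (D.J (e a)))) := by
    simp only [vv, map_sum]
    rw [← Finset.sum_add_distrib]
    refine Finset.sum_congr rfl fun a _ => ?_
    rw [D.leib, map_add]
  have e3 := sum_J D hsym hJ he (fun y z => ξ (D.br z (D.br U y)))
    (by intros; simp only [map_add]) (by intros; simp only [map_smul, smul_eq_mul])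
    (by intros; simp only [map_add, LinearMap.add_apply])
    (by intros; simp only [map_smul, LinearMap.smul_apply, smul_eq_mul])
  have e4 : ∑ a, ξ (D.br (D.J (e a)) (D.br U (e a))) =
      -∑ a, ξ (D.br (D.br U (e a)) (D.J (e a))) := by
    rw [← Finset.sum_neg_distrib]
    refine Finset.sum_congr rfl fun a _ => ?_
    rw [D.br_swap, map_neg]

  rw [e4] at e3
  rw [e2, e3]; ring

lemma H_add₁ (b : V →ₗ[ℝ] V →ₗ[ℝ] ℝ) (x x' y z : V) :
    D.H b (x + x') y z = D.H b x y z + D.H b x' y z := by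
  simp only [CxLie.H, map_add, LinearMap.add_apply]; ring

lemma H_smul₁ (b : V →ₗ[ℝ] V →ₗ[ℝ] ℝ) (r : ℝ) (x y z : V) :
    D.H b (r • x) y z = r * D.H b x y z := by
  simp only [CxLie.H, map_smul, LinearMap.smul_apply, smul_eq_mul]; ring

lemma H_add₃ (b : V →ₗ[ℝ] V →ₗ[ℝ] ℝ) (x y z z' : V) :
    D.H b x y (z + z') = D.H b x y z + D.H b x y z' := by
  simp only [CxLie.H, map_add, LinearMap.add_apply]; ring

lemma H_smul₃ (b : V →ₗ[ℝ] V →ₗ[ℝ] ℝ) (r : ℝ) (x y z : V) :
    D.H b x y (r • z) = r * D.H b x y z := by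
  simp only [CxLie.H, map_smul, LinearMap.smul_apply, smul_eq_mul]; ring

lemma H_sum₁ (b : V →ₗ[ℝ] V →ₗ[ℝ] ℝ) (f : ι → V) (y z : V) :
    D.H b (∑ a, f a) y z = ∑ a, D.H b (f a) y z := by
  simp only [CxLie.H, map_sum, LinearMap.sum_apply, Finset.sum_sub_distrib,
    Finset.sum_neg_distrib]

include hsym hJ in
/-- the contracted SKT identity -/
lemma contracted (he : IsONB g e)
    (hskt : ∀ x y z w, D.dH g x y z w = 0) (X : V) (hX : T11 D (g X)) :
    g (vv D e) (D.br X (D.J X)) + LinearMap.trace ℝ V (D.br (D.J (D.br X (D.J X)))) = ∑ a, g (D.br X (e a)) (D.br X (e a))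
      + ∑ a, g (D.br (D.J X) (e a)) (D.br (D.J X) (e a))
      - ∑ a, g (D.J (D.br X (D.J (D.br X (e a))))) (e a)
      - ∑ a, g (D.J (D.br (D.J X) (D.J (D.br (D.J X) (e a))))) (e a) := by
  have gj := gJ D hJ
  have hX' : T11 D (g (D.J X)) := by
    have h := hX.comp_J D
    intro y z
    have := h y z
    simp only [LinearMap.comp_apply] at this
    rw [gj, gj, this]
  have htr : ∀ y, ∑ a, g (D.br y (e a)) (e a) = LinearMap.trace ℝ V (D.br y) := by
    intro y
    rw [he.trace]
    exact Finset.sum_congr rfl fun a _ => hsym _ _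
  have htrJ : ∀ y, ∑ a, g (D.br y (D.J (e a))) (D.J (e a)) = LinearMap.trace ℝ V (D.br y) := by
    intro y
    have h := sum_J D hsym hJ he (fun p q => g (D.br y p) (D.J q))
      (by intros; simp only [map_add, LinearMap.add_apply])
      (by intros; simp only [map_smul, LinearMap.smul_apply, smul_eq_mul])
      (by intros; simp only [map_add]) (by intros; simp only [map_smul, smul_eq_mul])
    simp only [D.J_sq, map_neg, Finset.sum_neg_distrib, neg_neg] at h
    rw [h, htr]
  set P := D.br X (D.J X) with hP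
  set v := vv D e with hv
  -- the six sums
  have hsum : ∑ a, D.dH g X (D.J X) (e a) (D.J (e a)) = 0 :=
    Finset.sum_eq_zero fun a _ => hskt _ _ _ _
  simp only [CxLie.dH, Finset.sum_sub_distrib, Finset.sum_add_distrib,
    Finset.sum_neg_distrib] at hsum
  have s3 := sum_J D hsym hJ he (fun y z => D.H g (D.br X y) (D.J X) z)
    (by intros; simp only [map_add, H_add₁]) (by intros; simp only [map_smul, H_smul₁])
    (by intros; simp only [H_add₃]) (by intros; simp only [H_smul₃])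
  have s5 := sum_J D hsym hJ he (fun y z => D.H g (D.br (D.J X) y) X z)
    (by intros; simp only [map_add, H_add₁]) (by intros; simp only [map_smul, H_smul₁])
    (by intros; simp only [H_add₃]) (by intros; simp only [H_smul₃])

  -- T1
  have t1 : ∑ a, D.H g P (e a) (D.J (e a)) =
      -g v P - 2 * LinearMap.trace ℝ V (D.br (D.J P)) := by
    have e1 : ∀ a, D.H g P (e a) (D.J (e a)) = -g (D.br (D.J P) (D.J (e a))) (D.J (e a))
        - g (D.br (e a) (D.J (e a))) P - g (D.br (D.J P) (e a)) (e a) := by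
      intro a
      simp only [CxLie.H, D.J_sq, map_neg, LinearMap.neg_apply]
      rw [D.br_swap (D.J (e a)) (e a), D.br_swap (e a) (D.J P)]
      simp only [map_neg, LinearMap.neg_apply]
      ring
    rw [Finset.sum_congr rfl fun a _ => e1 a, Finset.sum_sub_distrib, Finset.sum_sub_distrib,
      Finset.sum_neg_distrib, htr, htrJ]
    simp only [hv, vv, map_sum, LinearMap.sum_apply]
    ring
  -- T6
  have t6 : ∑ a, D.H g (D.br (e a) (D.J (e a))) X (D.J X) =
      -g (D.J X) (D.br v X) - g v P - g X (D.br (D.J X) v) := by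
    rw [← H_sum₁]
    show D.H g v X (D.J X) = _
    simp only [CxLie.H, D.J_sq, map_neg, LinearMap.neg_apply]
    have a1 : g (D.br (D.J v) (D.J X)) (D.J X) = g (D.J X) (D.br v X) := by
      rw [hsym, hX']
    have a2 : g (D.br X (D.J v)) X = -g X (D.br (D.J X) v) := by
      rw [hsym, hX.swap D X v]; ring
    rw [a1, a2, D.br_swap (D.J X) X, ← hP, map_neg, LinearMap.neg_apply, hsym P v]
    ring
  -- T2
  have t2 : ∑ a, D.H g (D.br X (e a)) (D.J X) (D.J (e a)) =
      ∑ a, g (D.J (D.br X (D.J (D.br X (e a))))) (e a)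
      - ∑ a, g (D.br X (e a)) (D.br X (e a)) + (1 / 2) * g (D.J X) (D.br X v) := by
    rw [← C1 D hsym hJ he hX' X, ← Finset.sum_sub_distrib, ← Finset.sum_add_distrib]
    refine Finset.sum_congr rfl fun a _ => ?_
    simp only [CxLie.H, D.J_sq, map_neg, LinearMap.neg_apply, neg_neg]
    rw [D.br_swap (D.J (D.br X (e a))) X, gj (D.br X (D.J (D.br X (e a)))),
      hsym (D.J X) (D.br (e a) (D.J (D.br X (e a))))]
    simp only [map_neg, LinearMap.neg_apply, neg_neg]
    ring
  -- T4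
  have t4 : ∑ a, D.H g (D.br (D.J X) (e a)) X (D.J (e a)) =
      -∑ a, g (D.J (D.br (D.J X) (D.J (D.br (D.J X) (e a))))) (e a)
      + ∑ a, g (D.br (D.J X) (e a)) (D.br (D.J X) (e a)) + (1 / 2) * g X (D.br (D.J X) v) := by
    rw [← C1 D hsym hJ he hX (D.J X), ← Finset.sum_neg_distrib, ← Finset.sum_add_distrib,
      ← Finset.sum_add_distrib]
    refine Finset.sum_congr rfl fun a _ => ?_
    simp only [CxLie.H, D.J_sq, map_neg, LinearMap.neg_apply, neg_neg]
    rw [D.br_swap (D.J (D.br (D.J X) (e a))) (D.J X),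
      gj (D.br (D.J X) (D.J (D.br (D.J X) (e a)))),
      hsym X (D.br (e a) (D.J (D.br (D.J X) (e a))))]
    simp only [map_neg, LinearMap.neg_apply, neg_neg]
    ring
  rw [t1, t6, s3, s5, t2, t4] at hsum
  have hsw : g (D.J X) (D.br v X) = -g (D.J X) (D.br X v) := by
    rw [D.br_swap v X, map_neg]
  rw [hsw] at hsum
  linarith

/-- `toMatrix` with respect to an orthonormal basis -/
lemma IsONB.toMatrix_apply (he : IsONB g e) (A : V →ₗ[ℝ] V) (i j : ι) :
    LinearMap.toMatrix e e A i j = g (e i) (A (e j)) := by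
  rw [LinearMap.toMatrix_apply, he.repr]

lemma IsONB.inner_eq (he : IsONB g e) (x y : V) : g x y = ∑ i, g (e i) x * g (e i) y := by
  conv_lhs => rw [← he.expand x]
  simp [map_sum]

lemma IsONB.trace_tmul (he : IsONB g e) (A : V →ₗ[ℝ] V) :
    ((LinearMap.toMatrix e e A)ᵀ * LinearMap.toMatrix e e A).trace =
      ∑ a, g (A (e a)) (A (e a)) := by
  simp only [Matrix.trace, Matrix.diag, Matrix.mul_apply, Matrix.transpose_apply,
    he.toMatrix_apply]
  refine Finset.sum_congr rfl fun a _ => ?_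
  rw [he.inner_eq]

include hsym hJ in
/-- the basic monotonicity: `g([X, JX], v) + tr (ad (J [X, JX])) + tr (J ad [X, JX]) ≥ 0` -/
theorem basic_nonneg (he : IsONB g e)
    (hskt : ∀ x y z w, D.dH g x y z w = 0) (X : V) (hX : T11 D (g X)) :
    0 ≤ g (vv D e) (D.br X (D.J X)) + LinearMap.trace ℝ V (D.br (D.J (D.br X (D.J X)))) +
      LinearMap.trace ℝ V (D.J ∘ₗ D.br (D.br X (D.J X))) := by
  set Jm := LinearMap.toMatrix e e D.J with hJm
  set Am := LinearMap.toMatrix e e (D.br X) with hAm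
  set Bm := LinearMap.toMatrix e e (D.br (D.J X)) with hBm
  have hJt : Jmᵀ = -Jm := by
    ext i j
    rw [Matrix.transpose_apply, Matrix.neg_apply, hJm, he.toMatrix_apply, he.toMatrix_apply,
      hsym, gJ D hJ]
  have hJJ : Jm * Jm = -1 := by
    rw [hJm, ← LinearMap.toMatrix_comp]
    have : D.J ∘ₗ D.J = -LinearMap.id := by ext x; simp [D.J_sq]
    rw [this, map_neg, LinearMap.toMatrix_id]
  have hN : Bm * Jm - Jm * Bm = Am + Jm * Am * Jm := by
    have : (D.br (D.J X)) ∘ₗ D.J - D.J ∘ₗ (D.br (D.J X)) =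
        D.br X + (D.J ∘ₗ D.br X) ∘ₗ D.J := by
      ext y
      simp only [LinearMap.sub_apply, LinearMap.comp_apply, LinearMap.add_apply]
      rw [D.nij' X y]
      abel
    have h := congrArg (LinearMap.toMatrix e e) this
    simpa only [map_sub, map_add, LinearMap.toMatrix_comp e e e] using h
  have h := matrix_ineq Jm Am Bm hJt hJJ hN
  rw [hAm, hBm, he.trace_tmul, he.trace_tmul, ← hAm, ← hBm] at h
  have tA : (Jm * Am * (Jm * Am)).trace = ∑ a, g (D.J (D.br X (D.J (D.br X (e a))))) (e a) := by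
    rw [hJm, hAm, ← LinearMap.toMatrix_comp, ← LinearMap.toMatrix_comp,
      ← LinearMap.trace_eq_matrix_trace, he.trace]
    refine Finset.sum_congr rfl fun a _ => ?_
    rw [hsym]; rfl
  have tB : (Jm * Bm * (Jm * Bm)).trace =
      ∑ a, g (D.J (D.br (D.J X) (D.J (D.br (D.J X) (e a))))) (e a) := by
    rw [hJm, hBm, ← LinearMap.toMatrix_comp, ← LinearMap.toMatrix_comp,
      ← LinearMap.trace_eq_matrix_trace, he.trace]
    refine Finset.sum_congr rfl fun a _ => ?_
    rw [hsym]; rfl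
  have tC : (Jm * (Am * Bm - Bm * Am)).trace =
      LinearMap.trace ℝ V (D.J ∘ₗ D.br (D.br X (D.J X))) := by
    have : D.br (D.br X (D.J X)) = D.br X ∘ₗ D.br (D.J X) - D.br (D.J X) ∘ₗ D.br X := by
      ext y
      simp only [LinearMap.sub_apply, LinearMap.comp_apply]
      rw [D.leib X (D.J X) y]
      abel
    rw [this, LinearMap.trace_eq_matrix_trace ℝ e, LinearMap.toMatrix_comp e e e, map_sub,
      LinearMap.toMatrix_comp e e e, LinearMap.toMatrix_comp e e e]
  have hc := contracted D hsym hJ he hskt X hX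
  rw [tA, tB, tC] at h
  rw [hc]
  linarith

end

end Run7.h533
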