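import Mathlib

/-!
# Existence of solutions of an ODE from an a priori bound
-/

set_option autoImplicit false

namespace Run7.h533

open Set Metric Filter Topology
open scoped ContDiff Manifold

variable {W : Type*} [NormedAddCommGroup W] [NormedSpace ℝ W] [FiniteDimensional ℝ W]

/-- a smooth cutoff -/
lemma exists_cutoff {K U : Set W} (hK : IsCompact K) (hU : IsOpen U) (hKU : K ⊆ U) :
    ∃ χ : W → ℝ, ContDiff ℝ ∞ χ ∧ HasCompactSupport χ ∧ tsupport χ ⊆ U ∧
      ∀ᶠ x in 𝓝ˢ K, χ x = 1 := by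
  obtain ⟨L, hL, hKL, hLU⟩ := exists_compact_between hK hU hKU
  obtain ⟨f, hf1, hf0, hf⟩ := exists_contMDiffMap_one_nhds_of_subset_interior (n := (⊤ : ℕ∞))
    𝓘(ℝ, W) hK.isClosed hKL
  refine ⟨f, f.contMDiff.contDiff, ?_, ?_, hf1⟩
  · refine HasCompactSupport.intro hL fun x hx => hf0 x hx
  · refine (closure_minimal ?_ hL.isClosed).trans hLU
    intro x hx
    by_contra h
    exact hx (hf0 x h)

/-- multiplying by a cutoff gives a smooth compactly supported field -/
lemma cutoff_smooth {U : Set W} (hU : IsOpen U) {f : W → W} (hf : ContDiffOn ℝ ∞ f U)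
    {χ : W → ℝ} (hχ : ContDiff ℝ ∞ χ) (hsupp : tsupport χ ⊆ U) :
    ContDiff ℝ ∞ (fun x => χ x • f x) := by
  rw [contDiff_iff_contDiffAt]
  intro x
  by_cases hx : x ∈ tsupport χ
  · exact hχ.contDiffAt.smul (hf.contDiffAt (hU.mem_nhds (hsupp hx)))
  · have : (fun x => χ x • f x) =ᶠ[𝓝 x] fun _ => (0 : W) := by
      have h : (tsupport χ)ᶜ ∈ 𝓝 x := (isClosed_tsupport χ).isOpen_compl.mem_nhds hx
      filter_upwards [h] with y hy
      rw [image_eq_zero_of_notMem_tsupport hy, zero_smul]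
    exact contDiffAt_const.congr_of_eventuallyEq this

/-- global solutions of a smooth compactly supported field -/
lemma exists_sol_cutoff {F : W → W} (hF : ContDiff ℝ ∞ F) (hc : HasCompactSupport F) (x₀ : W)
    {T : ℝ} (hT : 0 ≤ T) :
    ∃ α : ℝ → W, α 0 = x₀ ∧ ∀ t ∈ Icc 0 T, HasDerivWithinAt α (F (α t)) (Icc 0 T) t := by
  obtain ⟨K, hK⟩ := ContDiff.lipschitzWith_of_hasCompactSupport hc hF (by simp)
  obtain ⟨C, hC⟩ := hc.exists_bound_of_continuous hF.continuous
  have hC0 : 0 ≤ C := (norm_nonneg _).trans (hC 0)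
  have hpl : IsPicardLindelof (fun _ => F) (tmin := 0) (tmax := T) ⟨0, le_rfl, hT⟩ x₀
      (Real.toNNReal (C * T)) 0 (Real.toNNReal C) K := by
    refine IsPicardLindelof.of_time_independent (fun x _ => ?_) (hK.lipschitzOnWith) ?_
    · rw [Real.coe_toNNReal _ hC0]; exact hC x
    · rw [Real.coe_toNNReal _ hC0, Real.coe_toNNReal _ (mul_nonneg hC0 hT)]
      simp [hT]
  obtain ⟨α, h0, h⟩ := hpl.exists_eq_forall_mem_Icc_hasDerivWithinAt₀
  exact ⟨α, h0, h⟩

/-- If all solutions of `α' = f α` in the open set `U` starting from `x₀` stay, up to time `T`, in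
the compact subset `K` of `U`, then there is a smooth solution on `[0, T]`. -/
theorem exists_of_apriori {U K : Set W} (hU : IsOpen U) (hK : IsCompact K) (hKU : K ⊆ U)
    {f : W → W} (hf : ContDiffOn ℝ ∞ f U) {x₀ : W} (hx₀ : x₀ ∈ K) {T : ℝ} (hT : 0 ≤ T)
    (H : ∀ y ∈ Icc 0 T, ∀ α : ℝ → W, α 0 = x₀ → (∀ t ∈ Icc 0 y, α t ∈ U) →
      (∀ t ∈ Icc 0 y, HasDerivWithinAt α (f (α t)) (Icc 0 y) t) → α y ∈ K) :
    ∃ α : ℝ → W, α 0 = x₀ ∧ (∀ t ∈ Icc 0 T, α t ∈ K) ∧
      (∀ t ∈ Icc 0 T, HasDerivWithinAt α (f (α t)) (Icc 0 T) t) ∧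
      ContDiffOn ℝ ∞ α (Icc 0 T) := by
  obtain ⟨χ, hχ, hχc, hχs, hχ1⟩ := exists_cutoff hK hU hKU
  set F : W → W := fun x => χ x • f x with hF
  have hFs : ContDiff ℝ ∞ F := cutoff_smooth hU hf hχ hχs
  have hFc : HasCompactSupport F := hχc.smul_right
  obtain ⟨α, h0, hα⟩ := exists_sol_cutoff hFs hFc x₀ hT
  have hcont : ContinuousOn α (Icc 0 T) := fun t ht => (hα t ht).continuousWithinAt
  obtain ⟨N, hNo, hKN, hN1⟩ := mem_nhdsSet_iff_exists.1 hχ1
  have hstay : ∀ t ∈ Icc 0 T, α t ∈ K := by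
    set S : Set ℝ := {t | t ∈ Icc 0 T ∧ ∀ s ∈ Icc 0 t, α s ∈ K} with hS
    have hSsub : Icc 0 T ⊆ S := by
      refine IsClosed.Icc_subset_of_forall_exists_gt ?_ ?_ ?_
      · have : S ∩ Icc 0 T = S := by
          apply inter_eq_left.2
          intro t ht; exact ht.1
        rw [this]
        -- closedness
        rw [← isSeqClosed_iff_isClosed]
        intro u t hu ht
        have htT : t ∈ Icc 0 T := isClosed_Icc.mem_of_tendsto ht
          (Eventually.of_forall fun n => (hu n).1)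
        refine ⟨htT, ?_⟩
        have hlt : ∀ s ∈ Ico 0 t, α s ∈ K := by
          intro s hs
          obtain ⟨n, hn⟩ := (ht.eventually (lt_mem_nhds hs.2)).exists
          exact (hu n).2 s ⟨hs.1, hn.le⟩
        intro s hs
        rcases hs.2.lt_or_eq with h | h
        · exact hlt s ⟨hs.1, h⟩
        · rcases hs.1.eq_or_lt with h' | h'
          · rw [← h', h0]; exact hx₀
          · have hc : ContinuousWithinAt α (Icc 0 T) s := hcont s ⟨hs.1, hs.2.trans htT.2⟩
            have hc2 : ContinuousWithinAt α (Ico 0 s) s := hc.mono fun r hr =>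
              ⟨hr.1, hr.2.le.trans (hs.2.trans htT.2)⟩
            refine hK.isClosed.mem_of_frequently_of_tendsto ?_ hc2
            have : (𝓝[Ico 0 s] s).NeBot := by
              rw [← mem_closure_iff_nhdsWithin_neBot, closure_Ico h'.ne]
              exact ⟨h'.le, le_rfl⟩
            refine Eventually.frequently ?_
            filter_upwards [self_mem_nhdsWithin] with r hr
            exact hlt r ⟨hr.1, by rw [← h]; exact hr.2⟩
      · refine ⟨⟨le_rfl, hT⟩, fun s hs => ?_⟩
        have : s = 0 := le_antisymm hs.2 hs.1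
        rw [this, h0]; exact hx₀
      · rintro x ⟨⟨hx, hxK⟩, hx2⟩ y hy
        have hxT : x ∈ Icc 0 T := ⟨hx2.1, hx2.2.le⟩
        have hc := hcont x hxT
        have hmem : α x ∈ K := hxK x ⟨hx2.1, le_rfl⟩
        have hev : ∀ᶠ s in 𝓝[Icc 0 T] x, α s ∈ N ∩ U :=
          hc.eventually_mem ((hNo.inter hU).mem_nhds ⟨hKN hmem, hKU hmem⟩)
        rw [eventually_nhdsWithin_iff] at hev
        obtain ⟨δ, hδ, hball⟩ := Metric.eventually_nhds_iff.1 hev
        set z := min (min y T) (x + δ / 2) with hz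
        have hxz : x < z := by
          refine lt_min (lt_min hy hx2.2) (by linarith)
        have hzT : z ≤ T := (min_le_left _ _).trans (min_le_right _ _)
        have hzy : z ≤ y := (min_le_left _ _).trans (min_le_left _ _)
        have hzδ : z ≤ x + δ / 2 := min_le_right _ _
        refine ⟨z, ⟨⟨hx2.1.trans hxz.le, hzT⟩, ?_⟩, hxz, hzy⟩
        have hNU : ∀ s ∈ Icc 0 z, α s ∈ N ∩ U := by
          intro s hs
          rcases le_total s x with h | h
          · have := hxK s ⟨hs.1, h⟩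
            exact ⟨hKN this, hKU this⟩
          · refine hball ?_ ⟨hs.1, hs.2.trans hzT⟩
            rw [Real.dist_eq, abs_of_nonneg (by linarith)]
            linarith [hs.2]
        intro s hs
        refine H s ⟨hs.1, hs.2.trans hzT⟩ α h0 (fun t ht => (hNU t ⟨ht.1, ht.2.trans hs.2⟩).2) ?_
        intro t ht
        have ht2 : t ∈ Icc 0 z := ⟨ht.1, ht.2.trans hs.2⟩
        have h1 := hα t ⟨ht.1, ht2.2.trans hzT⟩
        have h2 : F (α t) = f (α t) := by
          have : χ (α t) = 1 := hN1 (hNU t ht2).1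
          simp [hF, this]
        rw [h2] at h1
        exact h1.mono (Icc_subset_Icc_right (hs.2.trans hzT))
    intro t ht
    exact (hSsub ht).2 t ⟨ht.1, le_rfl⟩
  refine ⟨α, h0, hstay, fun t ht => ?_, ?_⟩
  · have h1 := hα t ht
    have h2 : F (α t) = f (α t) := by
      have : χ (α t) = 1 := hN1 (hKN (hstay t ht))
      simp [hF, this]
    rwa [h2] at h1
  · refine ODE.contDiffOn_enat_Icc_of_hasDerivWithinAt (n := ⊤) (f := fun _ => F) (u := univ)
      ?_ hα (fun _ _ => mem_univ _)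
    have : Function.uncurry (fun _ : ℝ => F) = F ∘ Prod.snd := rfl
    rw [this]
    exact (hFs.comp contDiff_snd).contDiffOn

end Run7.h533
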