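import Mathlib
import Pool.Agent.Run7.h533.KeyId
import Pool.Agent.Run7.h533.Ode

/-!
# The flow as an ODE for matrices
-/

set_option autoImplicit false

namespace Run7.h533

open Set Metric Filter Topology Finset
open scoped ContDiff Matrix

variable {m : ℕ}

/-- the vector space of the Lie algebra, with its standard basis -/
abbrev Vm (m : ℕ) : Type := Fin m → ℝ

/-- matrices, with the sup norm -/
abbrev Wm (m : ℕ) : Type := Fin m → Fin m → ℝ

/-- standard basis vector -/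
def ei (i : Fin m) : Vm m := Pi.single i 1

/-- bilinear form of a matrix -/
noncomputable def gf (a : Wm m) : Vm m →ₗ[ℝ] Vm m →ₗ[ℝ] ℝ := Matrix.toLinearMap₂' ℝ (Matrix.of a)

lemma gf_apply (a : Wm m) (x y : Vm m) : gf a x y = ∑ i, ∑ j, x i * y j * a i j := by
  simp only [gf, Matrix.toLinearMap₂'_apply, smul_eq_mul, Matrix.of_apply]
  refine Finset.sum_congr rfl fun i _ => Finset.sum_congr rfl fun j _ => ?_
  ring

@[simp] lemma gf_ei (a : Wm m) (i j : Fin m) : gf a (ei i) (ei j) = a i j := by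
  simp [gf_apply, ei, Pi.single_apply]

lemma sum_ei (x : Vm m) : ∑ i, x i • ei i = x := by
  ext j
  simp [ei, Finset.sum_apply, Pi.single_apply]

lemma form_ext {b c : Vm m →ₗ[ℝ] Vm m →ₗ[ℝ] ℝ} (h : ∀ i j, b (ei i) (ei j) = c (ei i) (ei j)) :
    b = c := by
  ext i j
  exact h i j

lemma gf_of_form (b : Vm m →ₗ[ℝ] Vm m →ₗ[ℝ] ℝ) : gf (fun i j => b (ei i) (ei j)) = b :=
  form_ext fun i j => by simp

lemma gf_add (a b : Wm m) : gf (a + b) = gf a + gf b := by
  apply form_ext; intro i j; simp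

lemma gf_smul (r : ℝ) (a : Wm m) : gf (r • a) = r • gf a := by
  apply form_ext; intro i j; simp

/-- positive definite (not necessarily symmetric) -/
def Pos (m : ℕ) : Set (Wm m) := {a | ∀ v : Vm m, v ≠ 0 → 0 < gf a v v}

lemma continuous_gf : Continuous fun p : Wm m × (Vm m × Vm m) => gf p.1 p.2.1 p.2.2 := by
  simp only [gf_apply]
  fun_prop

lemma Pos_eq : Pos m = {a | ∀ v ∈ sphere (0 : Vm m) 1, 0 < gf a v v} := by
  ext a
  constructor
  · intro h v hv
    refine h v ?_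
    rintro rfl
    simp at hv
  · intro h v hv
    have hn : 0 < ‖v‖ := norm_pos_iff.2 hv
    have h1 : ‖v‖⁻¹ • v ∈ sphere (0 : Vm m) 1 := by
      rw [mem_sphere_zero_iff_norm, norm_smul, norm_inv, norm_norm, inv_mul_cancel₀ hn.ne']
    have h3 := h _ h1
    have h2 : 0 < ‖v‖⁻¹ := inv_pos.2 hn
    have h4 : gf a (‖v‖⁻¹ • v) (‖v‖⁻¹ • v) = ‖v‖⁻¹ * (‖v‖⁻¹ * gf a v v) := by
      rw [map_smul, map_smul, LinearMap.smul_apply, smul_eq_mul, smul_eq_mul]
    rw [h4] at h3
    exact pos_of_mul_pos_right (pos_of_mul_pos_right h3 h2.le) h2.le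

lemma continuous_gf' : Continuous fun p : Wm m × Vm m => gf p.1 p.2 p.2 := by
  simp only [gf_apply]
  fun_prop

lemma isOpen_Pos : IsOpen (Pos m) := by
  rw [isOpen_iff_eventually]
  intro a ha
  rw [Pos_eq] at ha ⊢
  have h1 : ∀ v ∈ sphere (0 : Vm m) 1, ∀ᶠ p : Wm m × Vm m in 𝓝 (a, v), 0 < gf p.1 p.2 p.2 :=
    fun v hv => continuous_gf'.continuousAt.eventually_mem (Ioi_mem_nhds (ha v hv))
  have h2 := IsCompact.eventually_forall_of_forall_eventually (x₀ := a)
    (P := fun (a : Wm m) (v : Vm m) => 0 < gf a v v) (isCompact_sphere (0 : Vm m) 1) h1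
  filter_upwards [h2] with b hb using hb

lemma toLinearMap₂'_mulVec (a : Wm m) (x y : Vm m) :
    gf a x y = x ⬝ᵥ (Matrix.of a).mulVec y := by
  simp only [gf_apply, dotProduct, Matrix.mulVec, Matrix.of_apply, Finset.mul_sum]
  refine Finset.sum_congr rfl fun i _ => Finset.sum_congr rfl fun j _ => ?_
  ring

lemma Pos.det_ne_zero {a : Wm m} (ha : a ∈ Pos m) : (Matrix.of a).det ≠ 0 := by
  intro h
  obtain ⟨v, hv, hv2⟩ := Matrix.exists_mulVec_eq_zero_iff.2 h
  have := ha v hv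
  rw [toLinearMap₂'_mulVec, hv2, dotProduct_zero] at this
  exact lt_irrefl _ this

/-! ### smoothness of the inverse -/

lemma contDiff_det : ContDiff ℝ ∞ fun a : Wm m => (Matrix.of a).det := by
  simp only [Matrix.det_apply, Matrix.of_apply]
  refine ContDiff.sum fun σ _ => ?_
  refine ContDiff.const_smul _ ?_
  refine contDiff_prod fun i _ => ?_
  exact contDiff_apply_apply ℝ ℝ (σ i) i

lemma contDiff_adj (i j : Fin m) : ContDiff ℝ ∞ fun a : Wm m => (Matrix.of a).adjugate i j := by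
  simp only [Matrix.adjugate_apply, Matrix.det_apply]
  refine ContDiff.sum fun σ _ => ?_
  refine ContDiff.const_smul _ ?_
  refine contDiff_prod fun k _ => ?_
  by_cases h : σ k = j
  · simp only [h, Matrix.updateRow_self]
    exact contDiff_const
  · simp only [Matrix.updateRow_ne h, Matrix.of_apply]
    exact contDiff_apply_apply ℝ ℝ (σ k) k

lemma contDiffOn_inv (i j : Fin m) :
    ContDiffOn ℝ ∞ (fun a : Wm m => (Matrix.of a)⁻¹ i j) (Pos m) := by
  simp only [Matrix.inv_def, Matrix.smul_apply, smul_eq_mul, Ring.inverse_eq_inv']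
  exact (contDiff_det.contDiffOn.inv fun a ha => Pos.det_ne_zero ha).mul (contDiff_adj i j).contDiffOn

/-! ### the vector field -/

variable (D : CxLie (Vm m))

/-- `x ↦ tr (J ad x) + tr (ad (J x))` -/
noncomputable def trJad : Vm m →ₗ[ℝ] ℝ :=
  (LinearMap.trace ℝ (Vm m)) ∘ₗ (LinearMap.llcomp ℝ (Vm m) (Vm m) (Vm m) D.J) ∘ₗ D.br
    + (LinearMap.trace ℝ (Vm m)) ∘ₗ D.br ∘ₗ D.J

lemma trJad_apply (x : Vm m) : trJad D x = LinearMap.trace ℝ (Vm m) (D.J ∘ₗ D.br x)
    + LinearMap.trace ℝ (Vm m) (D.br (D.J x)) := rfl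

/-- the vector `∑ a^{kl} [e_k, J e_l]` -/
noncomputable def va (a : Wm m) : Vm m :=
  ∑ k, ∑ l, (Matrix.of a)⁻¹ k l • D.br (ei k) (D.J (ei l))

/-- the one-form `κ = ½ (tr (J ad) + tr (ad J) + g(v, ·))` -/
noncomputable def kap (a : Wm m) : Vm m →ₗ[ℝ] ℝ :=
  (1 / 2 : ℝ) • (trJad D + gf a (va D a))

/-- the vector field of the flow -/
noncomputable def Phi (a : Wm m) : Wm m := fun i j => D.bf (kap D a) (ei i) (ei j)

lemma gf_Phi (a : Wm m) : gf (Phi D a) = D.bf (kap D a) := gf_of_form _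

lemma contDiffOn_Phi : ContDiffOn ℝ ∞ (Phi D) (Pos m) := by
  rw [contDiffOn_pi]
  intro i
  rw [contDiffOn_pi]
  intro j
  simp only [Phi, CxLie.bf_apply, kap, LinearMap.smul_apply, LinearMap.add_apply, gf_apply, va,
    Finset.sum_apply, Pi.smul_apply, smul_eq_mul]
  have h1 := fun k l => contDiffOn_inv (m := m) k l
  have h2 : ∀ k l : Fin m, ContDiffOn ℝ ∞ (fun a : Wm m => a k l) (Pos m) := fun k l =>
    (contDiff_apply_apply ℝ ℝ k l).contDiffOn
  have key : ∀ x : Vm m, ContDiffOn ℝ ∞ (fun a : Wm m => ∑ p, ∑ q,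
      (∑ k, ∑ l, (Matrix.of a)⁻¹ k l * (D.br (ei k) (D.J (ei l))) p) * x q * a p q) (Pos m) := by
    intro x
    refine ContDiffOn.sum fun p _ => ContDiffOn.sum fun q _ => ?_
    refine ((ContDiffOn.sum fun k _ => ContDiffOn.sum fun l _ => ?_).mul contDiffOn_const).mul (h2 p q)
    exact (h1 k l).mul contDiffOn_const
  refine contDiffOn_const.mul (ContDiffOn.add ?_ ?_)
  · exact contDiffOn_const.mul (contDiffOn_const.add (key _))
  · exact contDiffOn_const.mul (contDiffOn_const.add (key _))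

end Run7.h533
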