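import Mathlib
import Pool.Agent.Run7.h533.Mat

/-!
# Orthonormal bases, Cauchy-Schwarz, and the trace vector
-/

set_option autoImplicit false

namespace Run7.h533

open Set Metric Filter Topology Finset
open scoped ContDiff Matrix

variable {m : ℕ}

/-- symmetric matrices -/
def Sym (m : ℕ) : Set (Wm m) := {a | ∀ i j, a i j = a j i}

lemma gf_symm {a : Wm m} (ha : a ∈ Sym m) (x y : Vm m) : gf a x y = gf a y x := by
  rw [gf_apply, gf_apply, Finset.sum_comm]
  refine Finset.sum_congr rfl fun i _ => Finset.sum_congr rfl fun j _ => ?_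
  rw [ha j i]; ring

lemma exists_onb {a : Wm m} (ha : a ∈ Pos m) (hs : a ∈ Sym m) :
    ∃ e : Module.Basis (Fin m) ℝ (Vm m), IsONB (gf a) e := by
  let B : LinearMap.BilinForm ℝ (Vm m) := gf a
  have hsym : LinearMap.IsSymm B := ⟨fun x y => gf_symm hs x y⟩
  have : Invertible (2 : ℝ) := invertibleOfNonzero two_ne_zero
  obtain ⟨v, hv⟩ := LinearMap.BilinForm.exists_orthogonal_basis hsym
  have hfr : Module.finrank ℝ (Vm m) = m := by simp
  let v' := v.reindex (finCongr hfr)
  have hv' : ∀ i j, i ≠ j → gf a (v' i) (v' j) = 0 := by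
    intro i j hij
    simp only [v', Module.Basis.reindex_apply]
    exact hv (fun h => hij ((finCongr hfr).symm.injective h))
  have hpos : ∀ i, 0 < gf a (v' i) (v' i) := fun i => ha _ (v'.ne_zero i)
  have hu : ∀ i, IsUnit ((Real.sqrt (gf a (v' i) (v' i)))⁻¹) := fun i =>
    (inv_ne_zero (Real.sqrt_pos.2 (hpos i)).ne').isUnit
  refine ⟨v'.isUnitSMul hu, fun i j => ?_⟩
  rw [Module.Basis.isUnitSMul_apply, Module.Basis.isUnitSMul_apply]
  simp only [map_smul, LinearMap.smul_apply, smul_eq_mul]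
  by_cases h : i = j
  · subst h
    rw [if_pos rfl]
    have h1 := Real.mul_self_sqrt (hpos i).le
    have h2 := (Real.sqrt_pos.2 (hpos i)).ne'
    field_simp
    rw [sq]; exact h1.symm
  · rw [if_neg h, hv' i j h]; simp

/-- the matrix of a basis -/
lemma onb_inv {a : Wm m} {e : Module.Basis (Fin m) ℝ (Vm m)} (he : IsONB (gf a) e) (k l : Fin m) :
    (Matrix.of a)⁻¹ k l = ∑ i, e i k * e i l := by
  set C : Matrix (Fin m) (Fin m) ℝ := Matrix.of fun k i => e i k with hC
  have h1 : (Cᵀ * Matrix.of a) * C = 1 := by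
    ext i j
    have := he i j
    rw [toLinearMap₂'_mulVec] at this
    rw [Matrix.mul_assoc, Matrix.mul_apply, Matrix.one_apply, ← this]
    simp only [dotProduct, Matrix.transpose_apply, hC, Matrix.of_apply, Matrix.mulVec,
      Matrix.mul_apply]
  have h2 : C * (Cᵀ * Matrix.of a) = 1 := mul_eq_one_comm.1 h1
  rw [← Matrix.mul_assoc] at h2
  rw [Matrix.inv_eq_left_inv h2, Matrix.mul_apply]
  simp [hC]

/-- a sum over an orthonormal basis -/
lemma onb_sum {F : Type*} [AddCommGroup F] [Module ℝ F] {a : Wm m}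
    {e : Module.Basis (Fin m) ℝ (Vm m)} (he : IsONB (gf a) e) (B : Vm m →ₗ[ℝ] Vm m →ₗ[ℝ] F) :
    ∑ k, ∑ l, (Matrix.of a)⁻¹ k l • B (ei k) (ei l) = ∑ i, B (e i) (e i) := by
  have h : ∀ i, B (e i) (e i) = ∑ k, ∑ l, (e i k * e i l) • B (ei k) (ei l) := by
    intro i
    conv_lhs => rw [← sum_ei (e i)]
    simp only [map_sum, map_smul, LinearMap.sum_apply, LinearMap.smul_apply, Finset.smul_sum,
      smul_smul]
    rw [Finset.sum_comm]
    refine Finset.sum_congr rfl fun k _ => Finset.sum_congr rfl fun l _ => ?_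
    rw [mul_comm]
  simp only [h, onb_inv he, Finset.sum_smul]
  rw [Finset.sum_congr rfl fun k _ => Finset.sum_comm (s := Finset.univ) (t := Finset.univ)
    (f := fun l i => (e i k * e i l) • B (ei k) (ei l))]
  rw [Finset.sum_comm]

variable (D : CxLie (Vm m))

lemma va_eq {a : Wm m} {e : Module.Basis (Fin m) ℝ (Vm m)} (he : IsONB (gf a) e) :
    va D a = vv D e := by
  have := onb_sum he (D.br.compl₂ D.J)
  simpa [va, vv] using this

lemma cauchy {a : Wm m} (ha : ∀ v, 0 ≤ gf a v v) (hs : a ∈ Sym m) (x y : Vm m) :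
    gf a x y ^ 2 ≤ gf a x x * gf a y y := by
  have h : ∀ t : ℝ, 0 ≤ gf a x x * (t * t) + (2 * gf a x y) * t + gf a y y := by
    intro t
    have := ha (t • x + y)
    simp only [map_add, map_smul, LinearMap.add_apply, LinearMap.smul_apply, smul_eq_mul] at this
    rw [gf_symm hs y x] at this
    linarith
  have := discrim_le_zero h
  rw [discrim] at this
  nlinarith

lemma trace_bound {a : Wm m} (ha : ∀ v, 0 ≤ gf a v v) (hs : a ∈ Sym m) (i j : Fin m) :
    |a i j| ≤ ∑ k, a k k := by
  have h0 : ∀ k, 0 ≤ a k k := fun k => by simpa using ha (ei k)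
  have h1 := cauchy ha hs (ei i) (ei j)
  simp only [gf_ei] at h1
  have hi : a i i ≤ ∑ k, a k k := Finset.single_le_sum (fun k _ => h0 k) (Finset.mem_univ i)
  have hj : a j j ≤ ∑ k, a k k := Finset.single_le_sum (fun k _ => h0 k) (Finset.mem_univ j)
  refine abs_le_of_sq_le_sq (h1.trans ?_) ((h0 i).trans hi)
  rw [sq]
  exact mul_le_mul hi hj (h0 j) ((h0 i).trans hi)

lemma gf_le_trace {a : Wm m} (ha : ∀ v, 0 ≤ gf a v v) (hs : a ∈ Sym m) (w : Vm m) :
    gf a w w ≤ (∑ k, a k k) * (∑ i, |w i|) ^ 2 := by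
  rw [gf_apply, sq, Finset.sum_mul_sum, Finset.mul_sum]
  refine Finset.sum_le_sum fun i _ => ?_
  rw [Finset.mul_sum]
  refine Finset.sum_le_sum fun j _ => ?_
  have h1 := trace_bound ha hs i j
  calc w i * w j * a i j ≤ |w i * w j * a i j| := le_abs_self _
    _ = (|w i| * |w j|) * |a i j| := by rw [abs_mul, abs_mul]
    _ ≤ (|w i| * |w j|) * ∑ k, a k k := by gcongr
    _ = _ := by ring

lemma det_bound {a : Wm m} (ha : ∀ v, 0 ≤ gf a v v) (hs : a ∈ Sym m) :
    (Matrix.of a).det ≤ (Nat.factorial m : ℝ) * (1 + ∑ k, a k k) ^ m := by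
  have h := Matrix.det_le (A := Matrix.of a) (abv := AbsoluteValue.abs) (x := 1 + ∑ k, a k k)
    (fun i j => by
      have := trace_bound ha hs i j
      simp only [AbsoluteValue.abs_apply, Matrix.of_apply]
      linarith)
  simp only [AbsoluteValue.abs_apply, Fintype.card_fin, nsmul_eq_mul] at h
  exact (le_abs_self _).trans h

/-- the compact sets used in the a priori bound -/
def Kset (m : ℕ) (R δ : ℝ) : Set (Wm m) :=
  {a | a ∈ Sym m ∧ (∀ v, 0 ≤ gf a v v) ∧ ∑ k, a k k ≤ R ∧ δ ≤ (Matrix.of a).det}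

lemma continuous_gf_fst (v w : Vm m) : Continuous fun a : Wm m => gf a v w := by
  simp only [gf_apply]
  fun_prop

lemma isCompact_Kset (R δ : ℝ) : IsCompact (Kset m R δ) := by
  refine Metric.isCompact_of_isClosed_isBounded ?_ ?_
  · have e1 : IsClosed (Sym m) := by
      have : Sym m = ⋂ i, ⋂ j, {a : Wm m | a i j = a j i} := by
        ext a; simp [Sym]
      rw [this]
      exact isClosed_iInter fun i => isClosed_iInter fun j =>
        isClosed_eq (by fun_prop) (by fun_prop)
    have e2 : IsClosed {a : Wm m | ∀ v, 0 ≤ gf a v v} := by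
      simp only [ofPred_forall]
      exact isClosed_iInter fun v => isClosed_le continuous_const (continuous_gf_fst v v)
    have e3 : IsClosed {a : Wm m | ∑ k, a k k ≤ R} :=
      isClosed_le (by fun_prop) continuous_const
    have e4 : IsClosed {a : Wm m | δ ≤ (Matrix.of a).det} :=
      isClosed_le continuous_const contDiff_det.continuous
    exact e1.inter (e2.inter (e3.inter e4))
  · rw [Metric.isBounded_iff_subset_closedBall (0 : Wm m)]
    refine ⟨max R 0, fun a ha => ?_⟩
    rw [mem_closedBall_zero_iff, pi_norm_le_iff_of_nonneg (le_max_right _ _)]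
    intro i
    rw [pi_norm_le_iff_of_nonneg (le_max_right _ _)]
    intro j
    rw [Real.norm_eq_abs]
    exact (trace_bound ha.2.1 ha.1 i j).trans (ha.2.2.1.trans (le_max_left _ _))

lemma Kset_subset {R δ : ℝ} (hδ : 0 < δ) : Kset m R δ ⊆ Pos m := by
  intro a ha v hv
  refine lt_of_le_of_ne (ha.2.1 v) fun h => ?_
  have h1 : (Matrix.of a).mulVec v = 0 := by
    ext i
    have h2 := cauchy ha.2.1 ha.1 (ei i) v
    rw [← h, mul_zero] at h2
    have h3 : gf a (ei i) v = 0 := pow_eq_zero_iff (two_ne_zero) |>.1 (le_antisymm h2 (sq_nonneg _))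
    rw [toLinearMap₂'_mulVec] at h3
    simpa [ei] using h3
  have h2 : (Matrix.of a).det = 0 := Matrix.exists_mulVec_eq_zero_iff.1 ⟨v, hv, h1⟩
  have := ha.2.2.2
  rw [h2] at this
  linarith

end Run7.h533
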