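import Mathlib
import Pool.Agent.Run7.h533.Onb

/-!
# Static estimates
-/

set_option autoImplicit false

namespace Run7.h533

open Set Metric Filter Topology Finset
open scoped ContDiff Matrix

/-- trace identity behind the type `(1,1)` property -/
lemma trace_T11_aux {V : Type*} [AddCommGroup V] [Module ℝ V] (J A B A' B' : Module.End ℝ V)
    (hJ : J * J = -1) (h1 : A' * J = J * A' + J * A * J + A)
    (h2 : B' * J = J * B' + J * B * J + B) :
    LinearMap.trace ℝ V (J * (A' * B' - B' * A')) = LinearMap.trace ℝ V (J * (A * B - B * A)) := by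
  have c := LinearMap.trace_mul_comm ℝ (M := V)
  have e1 : LinearMap.trace ℝ V (J * B' * A') = LinearMap.trace ℝ V (J * A' * B')
      + LinearMap.trace ℝ V (J * A * J * B') + LinearMap.trace ℝ V (A * B') := by
    rw [c (J * B') A', ← mul_assoc, h1, add_mul, add_mul, map_add, map_add]
  have e2 : LinearMap.trace ℝ V (A * B') = -LinearMap.trace ℝ V (J * A * J * B')
      + LinearMap.trace ℝ V (J * B * A) - LinearMap.trace ℝ V (J * A * B) := by
    have s1 : A * B' = -(A * (B' * J) * J) := by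
      rw [mul_assoc A, mul_assoc B', hJ]; simp
    rw [s1, h2]
    have s2 : A * (J * B' + J * B * J + B) * J = (A * J * B') * J - A * J * B + (A * B) * J := by
      have : A * (J * B * J) * J = -(A * J * B) := by
        calc A * (J * B * J) * J = A * J * B * (J * J) := by noncomm_ring
          _ = _ := by rw [hJ]; noncomm_ring
      rw [mul_add, mul_add, add_mul, add_mul, this]
      noncomm_ring
    rw [s2, map_neg, map_add, map_sub, c (A * J * B') J, c (A * B) J]
    have s3 : LinearMap.trace ℝ V (A * J * B) = LinearMap.trace ℝ V (J * B * A) := by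
      rw [mul_assoc A, c A (J * B)]
    rw [s3, ← mul_assoc, ← mul_assoc, ← mul_assoc]
    ring
  have e3 : J * (A' * B' - B' * A') = J * A' * B' - J * B' * A' := by noncomm_ring
  have e4 : J * (A * B - B * A) = J * A * B - J * B * A := by noncomm_ring
  rw [e3, e4, map_sub, map_sub, e1, e2]
  ring

variable {m : ℕ} (D : CxLie (Vm m))

lemma T11_trJad : T11 D (trJad D) := by
  intro y z
  rw [trJad_apply, trJad_apply]
  have key : ∀ u w : Vm m, D.br (D.br u w) = D.br u * D.br w - D.br w * D.br u := by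
    intro u w
    apply LinearMap.ext
    intro x
    simp only [LinearMap.sub_apply, Module.End.mul_apply]
    rw [D.leib u w x]
    abel
  have rel : ∀ u : Vm m, D.br (D.J u) * D.J = D.J * D.br (D.J u) + D.J * D.br u * D.J + D.br u := by
    intro u
    apply LinearMap.ext
    intro x
    simp only [LinearMap.add_apply, Module.End.mul_apply]
    exact D.nij' u x
  have hJ : D.J * D.J = (-1 : Module.End ℝ (Vm m)) := by
    apply LinearMap.ext
    intro x
    simp only [LinearMap.neg_apply, Module.End.mul_apply, Module.End.one_apply, D.J_sq]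
  have := trace_T11_aux D.J (D.br y) (D.br z) (D.br (D.J y)) (D.br (D.J z)) hJ (rel y) (rel z)
  rw [← key, ← key] at this
  have h0 : ∀ u w : Vm m, LinearMap.trace ℝ (Vm m) (D.br (D.br u w)) = 0 := by
    intro u w
    rw [key, map_sub, LinearMap.trace_mul_comm, sub_self]
  have h2 : LinearMap.trace ℝ (Vm m) (D.br (D.J (D.br (D.J y) (D.J z)))) =
      LinearMap.trace ℝ (Vm m) (D.br (D.J (D.br y z))) := by
    rw [D.J_br_JJ, map_sub, map_sub, map_sub, map_sub, h0, h0, sub_zero, sub_zero]
  rw [h2]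
  exact congrArg (· + LinearMap.trace ℝ (Vm m) (D.br (D.J (D.br y z)))) this

/-- the hypotheses on a metric -/
structure Good (a : Wm m) : Prop where
  pos : a ∈ Pos m
  sym : a ∈ Sym m
  inv : ∀ x y, gf a (D.J x) (D.J y) = gf a x y
  skt : ∀ x y z w, D.dH (gf a) x y z w = 0

/-- the vector dual to `tr (J ad ·)` -/
noncomputable def Xv (a : Wm m) : Vm m := (Matrix.of a)⁻¹.mulVec fun i => trJad D (ei i)

lemma gf_Xv {a : Wm m} (ha : a ∈ Pos m) (w : Vm m) : gf a w (Xv D a) = trJad D w := by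
  rw [toLinearMap₂'_mulVec, Xv, Matrix.mulVec_mulVec,
    Matrix.mul_nonsing_inv _ ((Pos.det_ne_zero ha).isUnit), Matrix.one_mulVec]
  conv_rhs => rw [← sum_ei w]
  simp [map_sum, dotProduct]

lemma gf_Xv' {a : Wm m} (ha : a ∈ Pos m) (hs : a ∈ Sym m) : gf a (Xv D a) = trJad D := by
  apply LinearMap.ext
  intro w
  rw [gf_symm hs, gf_Xv D ha]

lemma pos_nonneg {a : Wm m} (ha : a ∈ Pos m) (v : Vm m) : 0 ≤ gf a v v := by
  by_cases h : v = 0
  · rw [h]; simp
  · exact (ha v h).le

lemma cauchy_sqrt {a : Wm m} (ha : a ∈ Pos m) (hs : a ∈ Sym m) (x y : Vm m) :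
    |gf a x y| ≤ Real.sqrt (gf a x x) * Real.sqrt (gf a y y) := by
  rw [← Real.sqrt_mul (pos_nonneg ha x)]
  exact Real.abs_le_sqrt (cauchy (pos_nonneg ha) hs x y)

variable {D}

/-- monotonicity of the norm of `tr (J ad ·)` -/
lemma Good.z_nonneg {a : Wm m} (ha : Good D a) :
    0 ≤ D.bf (kap D a) (Xv D a) (Xv D a) := by
  obtain ⟨e, he⟩ := exists_onb ha.pos ha.sym
  have hX : T11 D (gf a (Xv D a)) := by
    rw [gf_Xv' D ha.pos ha.sym]; exact T11_trJad D
  have h := basic_nonneg D (gf_symm ha.sym) ha.inv he ha.skt (Xv D a) hX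
  simp only [CxLie.bf_apply, kap, LinearMap.smul_apply, LinearMap.add_apply, smul_eq_mul,
    va_eq D he, trJad_apply]
  linarith

/-- the squared norm of `v` -/
noncomputable def Nv (D : CxLie (Vm m)) (a : Wm m) : ℝ := gf a (va D a) (va D a)

/-- the squared norm of `tr (J ad)` -/
noncomputable def zz (D : CxLie (Vm m)) (a : Wm m) : ℝ := trJad D (Xv D a)

lemma Good.Nv_nonneg {a : Wm m} (ha : Good D a) : 0 ≤ Nv D a := pos_nonneg ha.pos _

lemma Good.zz_nonneg {a : Wm m} (ha : Good D a) : 0 ≤ zz D a := by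
  rw [zz, ← gf_Xv D ha.pos]; exact pos_nonneg ha.pos _

/-- the derivative of `log det` -/
lemma Good.F_lower {a : Wm m} (ha : Good D a) :
    (1 / 4) * (Nv D a - zz D a) ≤
      ((Matrix.of a)⁻¹ * (Matrix.of (Phi D a))).trace := by
  obtain ⟨e, he⟩ := exists_onb ha.pos ha.sym
  have h1 : ((Matrix.of a)⁻¹ * (Matrix.of (Phi D a))).trace = kap D a (va D a) := by
    have h2 := onb_sum he (gf (Phi D a))
    simp only [smul_eq_mul, gf_ei] at h2
    have h3 : ((Matrix.of a)⁻¹ * (Matrix.of (Phi D a))).trace =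
        ∑ k, ∑ l, (Matrix.of a)⁻¹ k l * Phi D a k l := by
      simp only [Matrix.trace, Matrix.diag, Matrix.mul_apply, Matrix.of_apply]
      refine Finset.sum_congr rfl fun k _ => Finset.sum_congr rfl fun l _ => ?_
      have : Phi D a l k = Phi D a k l := D.bf_symm _ _ _
      rw [this]
    rw [h3, h2, gf_Phi, va_eq D he, vv, map_sum]
    refine Finset.sum_congr rfl fun i _ => ?_
    rw [CxLie.bf_apply]; ring
  rw [h1]
  have h4 : kap D a (va D a) = (1 / 2) * (trJad D (va D a) + Nv D a) := rfl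
  rw [h4]
  have h5 : |trJad D (va D a)| ≤ Real.sqrt (zz D a) * Real.sqrt (Nv D a) := by
    have := cauchy_sqrt ha.pos ha.sym (Xv D a) (va D a)
    rw [gf_Xv' D ha.pos ha.sym] at this
    exact this
  have h6 := neg_abs_le (trJad D (va D a))
  have h7 := Real.mul_self_sqrt ha.zz_nonneg
  have h8 := Real.mul_self_sqrt ha.Nv_nonneg
  nlinarith [sq_nonneg (Real.sqrt (zz D a) - Real.sqrt (Nv D a))]

/-- the vector `∑ [e_i, J e_i]` for the standard basis -/
noncomputable def ww (D : CxLie (Vm m)) : Vm m := ∑ i, D.br (ei i) (D.J (ei i))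

lemma Good.tau_upper {a : Wm m} (ha : Good D a) :
    ∑ k, Phi D a k k ≤ (1 / 2) * |trJad D (ww D)| +
      (1 / 2) * (∑ i, |ww D i|) * Real.sqrt (Nv D a) * Real.sqrt (∑ k, a k k) := by
  have h1 : ∑ k, Phi D a k k = kap D a (ww D) := by
    simp only [Phi, CxLie.bf_apply, ww, map_sum]
    refine Finset.sum_congr rfl fun i _ => ?_
    ring
  rw [h1]
  have h4 : kap D a (ww D) = (1 / 2) * (trJad D (ww D) + gf a (va D a) (ww D)) := rfl
  rw [h4]
  have h5 := cauchy_sqrt ha.pos ha.sym (va D a) (ww D)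
  have h6 := gf_le_trace (pos_nonneg ha.pos) ha.sym (ww D)
  have h7 : Real.sqrt (gf a (ww D) (ww D)) ≤ Real.sqrt (∑ k, a k k) * ∑ i, |ww D i| := by
    refine (Real.sqrt_le_sqrt h6).trans_eq ?_
    rw [Real.sqrt_mul' _ (sq_nonneg _), Real.sqrt_sq (Finset.sum_nonneg fun i _ => abs_nonneg _)]
  have h8 := le_abs_self (trJad D (ww D))
  have h9 := le_abs_self (gf a (va D a) (ww D))
  have h10 : Real.sqrt (gf a (va D a) (va D a)) * Real.sqrt (gf a (ww D) (ww D)) ≤
      Real.sqrt (Nv D a) * (Real.sqrt (∑ k, a k k) * ∑ i, |ww D i|) :=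
    mul_le_mul_of_nonneg_left h7 (Real.sqrt_nonneg _)
  linarith

lemma Good.tr_nonneg {a : Wm m} (ha : Good D a) : 0 ≤ ∑ k, a k k :=
  Finset.sum_nonneg fun k _ => by simpa using pos_nonneg ha.pos (ei k)

lemma Good.det_pos {a : Wm m} (ha : Good D a) : 0 < (Matrix.of a).det := by
  refine Matrix.PosDef.det_pos (Matrix.PosDef.of_dotProduct_mulVec_pos ?_ ?_)
  · ext i j
    simp [Matrix.conjTranspose_apply, ha.sym j i]
  · intro x hx
    have := ha.pos x hx
    rwa [toLinearMap₂'_mulVec] at this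

end Run7.h533
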