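import Mathlib
import Pool.Agent.Run7.h533.Stat

/-!
# The algebraic Bismut connection
-/

set_option autoImplicit false

namespace Run7.h533

open Finset

variable {V : Type*} [AddCommGroup V] [Module ℝ V] (D : CxLie V)
variable {ι : Type*} [Fintype ι] [DecidableEq ι]

/-- the right-hand side of the Koszul type formula for the Bismut connection -/
noncomputable def rhs (g : V →ₗ[ℝ] V →ₗ[ℝ] ℝ) (x y z : V) : ℝ :=
  1 / 2 * (g (D.br x y - D.br (D.J x) (D.J y)) z - g (D.br y z + D.br (D.J y) (D.J z)) x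
    - g (D.br x z - D.br (D.J x) (D.J z)) y)

/-- the algebraic Bismut connection -/
noncomputable def Gam (g : V →ₗ[ℝ] V →ₗ[ℝ] ℝ) (e : Module.Basis ι ℝ V) : V →ₗ[ℝ] V →ₗ[ℝ] V :=
  LinearMap.mk₂ ℝ (fun x y => ∑ i, rhs D g x y (e i) • e i)
    (by
      intro a b c
      rw [← Finset.sum_add_distrib]
      refine Finset.sum_congr rfl fun i _ => ?_
      rw [← add_smul]; congr 1
      simp only [rhs, map_add, map_sub, LinearMap.add_apply, LinearMap.sub_apply]; ring)
    (by
      intro r a c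
      rw [Finset.smul_sum]
      refine Finset.sum_congr rfl fun i _ => ?_
      rw [smul_smul]; congr 1
      simp only [rhs, map_add, map_sub, LinearMap.add_apply, LinearMap.sub_apply, map_smul,
        LinearMap.smul_apply, smul_eq_mul]; ring)
    (by
      intro a b c
      rw [← Finset.sum_add_distrib]
      refine Finset.sum_congr rfl fun i _ => ?_
      rw [← add_smul]; congr 1
      simp only [rhs, map_add, map_sub, LinearMap.add_apply, LinearMap.sub_apply]; ring)
    (by
      intro r a c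
      rw [Finset.smul_sum]
      refine Finset.sum_congr rfl fun i _ => ?_
      rw [smul_smul]; congr 1
      simp only [rhs, map_add, map_sub, LinearMap.add_apply, LinearMap.sub_apply, map_smul,
        LinearMap.smul_apply, smul_eq_mul]; ring)

omit [DecidableEq ι] in
lemma Gam_apply (g : V →ₗ[ℝ] V →ₗ[ℝ] ℝ) (e : Module.Basis ι ℝ V) (x y : V) :
    Gam D g e x y = ∑ i, rhs D g x y (e i) • e i := rfl

variable {g : V →ₗ[ℝ] V →ₗ[ℝ] ℝ} {e : Module.Basis ι ℝ V}

omit [DecidableEq ι] in
lemma rhs_sum (x y : V) (z : ι → V) (r : ι → ℝ) :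
    rhs D g x y (∑ i, r i • z i) = ∑ i, r i * rhs D g x y (z i) := by
  have h : ∀ w, rhs D g x y w = ((1 / 2 : ℝ) • (g (D.br x y - D.br (D.J x) (D.J y)) -
      (g.flip x) ∘ₗ (D.br y + D.br (D.J y) ∘ₗ D.J) -
        (g.flip y) ∘ₗ (D.br x - D.br (D.J x) ∘ₗ D.J))) w := by
    intro w
    simp [rhs]
  simp only [h, map_sum, map_smul, smul_eq_mul]

variable (hsym : ∀ x y, g x y = g y x) (hJ : ∀ x y, g (D.J x) (D.J y) = g x y)

lemma Gam_spec (he : IsONB g e) (x y z : V) : g (Gam D g e x y) z = rhs D g x y z := by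
  rw [Gam_apply, map_sum, LinearMap.sum_apply]
  conv_rhs => rw [← he.expand z]
  rw [rhs_sum]
  refine Finset.sum_congr rfl fun i _ => ?_
  simp only [map_smul, LinearMap.smul_apply, smul_eq_mul]
  ring

lemma IsONB.ext (he : IsONB g e) {x y : V} (h : ∀ z, g x z = g y z)
    (hsym : ∀ x y, g x y = g y x) : x = y := by
  rw [← he.expand x, ← he.expand y]
  refine Finset.sum_congr rfl fun i _ => ?_
  rw [hsym (e i) x, hsym (e i) y, h]

include hsym in
lemma Gam_metric (he : IsONB g e) (x y z : V) :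
    g (Gam D g e x y) z + g y (Gam D g e x z) = 0 := by
  rw [hsym y, Gam_spec D he, Gam_spec D he]
  simp only [rhs]
  rw [D.br_swap z y, D.br_swap (D.J z) (D.J y)]
  simp only [map_add, map_sub, map_neg, LinearMap.add_apply, LinearMap.sub_apply,
    LinearMap.neg_apply]
  ring

include hsym hJ in
lemma Gam_J (he : IsONB g e) (x y : V) : Gam D g e x (D.J y) = D.J (Gam D g e x y) := by
  refine he.ext (fun z => ?_) hsym
  rw [gJ D hJ, Gam_spec D he, Gam_spec D he]
  simp only [rhs, D.J_sq, map_neg, map_add, map_sub, LinearMap.add_apply, LinearMap.sub_apply,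
    LinearMap.neg_apply, sub_neg_eq_add]
  have e1 : g (D.br x y) (D.J z) = -g (D.J (D.br x y)) z := by rw [gJ D hJ]; ring
  have e2 : g (D.br (D.J x) (D.J y)) (D.J z) = -g (D.J (D.br (D.J x) (D.J y))) z := by
    rw [gJ D hJ]; ring
  have e3 : g (D.br x z) (D.J y) = -g (D.J (D.br x z)) y := by rw [gJ D hJ]; ring
  have e4 : g (D.br (D.J x) (D.J z)) (D.J y) = -g (D.J (D.br (D.J x) (D.J z))) y := by
    rw [gJ D hJ]; ring
  rw [e1, e2, e3, e4, D.J_br_JJ, D.J_br_JJ]
  simp only [map_sub, LinearMap.sub_apply]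
  ring

lemma Gam_tors (he : IsONB g e) (x y z : V) :
    g (Gam D g e x y - Gam D g e y x - D.br x y) z = D.H g x y z := by
  simp only [map_sub, LinearMap.sub_apply]
  rw [Gam_spec D he, Gam_spec D he]
  simp only [rhs, CxLie.H]
  rw [D.br_swap y x, D.br_swap (D.J y) (D.J x), D.br_swap (D.J z) (D.J x)]
  simp only [map_add, map_sub, map_neg, LinearMap.add_apply, LinearMap.sub_apply,
    LinearMap.neg_apply]
  ring

lemma H_swap12 (x y z : V) : D.H g x y z = -D.H g y x z := by
  simp only [CxLie.H]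
  rw [D.br_swap (D.J y) (D.J x), D.br_swap (D.J x) (D.J z), D.br_swap (D.J z) (D.J y)]
  simp only [map_neg, LinearMap.neg_apply]
  ring

lemma H_swap23 (x y z : V) : D.H g x y z = -D.H g x z y := by
  simp only [CxLie.H]
  rw [D.br_swap (D.J x) (D.J z), D.br_swap (D.J z) (D.J y), D.br_swap (D.J y) (D.J x)]
  simp only [map_neg, LinearMap.neg_apply]
  ring

include hsym hJ in
lemma Gam_trace (he : IsONB g e) (x : V) :
    LinearMap.trace ℝ V (Gam D g e x ∘ₗ D.J) =
      LinearMap.trace ℝ V (D.J ∘ₗ D.br x) + LinearMap.trace ℝ V (D.br (D.J x))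
        + g (vv D e) x := by
  have htr : ∀ y, ∑ a, g (D.br y (e a)) (e a) = LinearMap.trace ℝ V (D.br y) := by
    intro y
    rw [he.trace]
    exact Finset.sum_congr rfl fun a _ => hsym _ _
  have htrJ : ∀ y, ∑ a, g (D.br y (D.J (e a))) (D.J (e a)) = LinearMap.trace ℝ V (D.br y) := by
    intro y
    have h := sum_J D hsym hJ he (fun p q => g (D.br y p) (D.J q))
      (by intros; simp only [map_add, LinearMap.add_apply])
      (by intros; simp only [map_smul, LinearMap.smul_apply, smul_eq_mul])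
      (by intros; simp only [map_add]) (by intros; simp only [map_smul, smul_eq_mul])
    simp only [D.J_sq, map_neg, Finset.sum_neg_distrib, neg_neg] at h
    rw [h, htr]
  have hs := sum_J D hsym hJ he (fun p q => g (D.br x p) q)
      (by intros; simp only [map_add, LinearMap.add_apply])
      (by intros; simp only [map_smul, LinearMap.smul_apply, smul_eq_mul])
      (by intros; simp only [map_add]) (by intros; simp only [map_smul, smul_eq_mul])
  rw [he.trace, he.trace]
  have h1 : ∀ i, g (e i) ((Gam D g e x ∘ₗ D.J) (e i)) = 1 / 2 * (g (D.br x (D.J (e i))) (e i)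
      + g (D.br (D.J x) (e i)) (e i) + 2 * g (D.br (e i) (D.J (e i))) x
      - g (D.br x (e i)) (D.J (e i)) + g (D.br (D.J x) (D.J (e i))) (D.J (e i))) := by
    intro i
    rw [hsym, LinearMap.comp_apply, Gam_spec D he]
    simp only [rhs, D.J_sq, map_neg, LinearMap.neg_apply, map_sub, map_add, LinearMap.sub_apply,
      LinearMap.add_apply]
    rw [D.br_swap (D.J (e i)) (e i)]
    simp only [map_neg, LinearMap.neg_apply]
    ring
  have h2 : ∀ i, g (e i) ((D.J ∘ₗ D.br x) (e i)) = -g (D.br x (e i)) (D.J (e i)) := by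
    intro i
    rw [hsym, LinearMap.comp_apply, gJ D hJ]
  rw [Finset.sum_congr rfl fun i _ => h1 i, Finset.sum_congr rfl fun i _ => h2 i,
    ← Finset.mul_sum]
  simp only [Finset.sum_add_distrib, Finset.sum_sub_distrib, ← Finset.mul_sum,
    Finset.sum_neg_distrib]
  rw [htr, htrJ, hs]
  simp only [vv, map_sum, LinearMap.sum_apply]
  ring

/-- the algebraic curvature of the Bismut connection -/
noncomputable def Acurv (G : V →ₗ[ℝ] V →ₗ[ℝ] V) (x y : V) : V →ₗ[ℝ] V :=
  G x ∘ₗ G y - G y ∘ₗ G x - G (D.br x y)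

lemma Acurv_trace (G : V →ₗ[ℝ] V →ₗ[ℝ] V) (hG : ∀ x y, G x (D.J y) = D.J (G x y)) (x y : V) :
    LinearMap.trace ℝ V (Acurv D G x y ∘ₗ D.J) = -LinearMap.trace ℝ V (G (D.br x y) ∘ₗ D.J) := by
  have h1 : (G y ∘ₗ G x) ∘ₗ D.J = (G y ∘ₗ D.J) ∘ₗ G x := by
    apply LinearMap.ext; intro z
    simp only [LinearMap.comp_apply, hG]
  have h2 : LinearMap.trace ℝ V ((G y ∘ₗ D.J) ∘ₗ G x) =
      LinearMap.trace ℝ V ((G x ∘ₗ G y) ∘ₗ D.J) := by
    have := LinearMap.trace_mul_comm ℝ (M := V) (G y ∘ₗ D.J) (G x)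
    exact this
  simp only [Acurv, LinearMap.sub_comp, map_sub]
  rw [h1, h2]
  ring

end Run7.h533
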