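import Mathlib
import Pool.Agent.Run7.h533.Stat

/-!
# The a priori bound and long time existence for the matrix flow
-/

set_option autoImplicit false

namespace Run7.h533

open Set Metric Filter Topology Finset
open scoped ContDiff Matrix

/-- a differential inequality -/
lemma mono_aux {u u' : ℝ → ℝ} {y C : ℝ} (hc : ContinuousOn u (Icc 0 y))
    (hd : ∀ t ∈ Ioo 0 y, HasDerivAt u (u' t) t) (hu : ∀ t ∈ Ioo 0 y, u' t ≤ C) :
    ∀ t ∈ Icc 0 y, u t ≤ u 0 + C * t := by
  intro t ht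
  have h0 : (0 : ℝ) ∈ Icc 0 y := ⟨le_rfl, ht.1.trans ht.2⟩
  have h := (convex_Icc 0 y).image_sub_le_mul_sub_of_deriv_le hc
    (by rw [interior_Icc]; exact fun s hs => (hd s hs).differentiableAt.differentiableWithinAt)
    (C := C) (by rw [interior_Icc]; intro s hs; rw [(hd s hs).deriv]; exact hu s hs)
    0 h0 t ht ht.1
  linarith

lemma const_aux {u : ℝ → ℝ} {y : ℝ} (hc : ContinuousOn u (Icc 0 y))
    (hd : ∀ t ∈ Ioo 0 y, HasDerivAt u 0 t) : ∀ t ∈ Icc 0 y, u t = u 0 := by
  intro t ht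
  have h1 := mono_aux (C := 0) hc hd (fun _ _ => le_rfl) t ht
  have h2 := mono_aux (C := 0) hc.neg (fun s hs => (hd s hs).neg) (fun _ _ => by simp) t ht
  simp only [Pi.neg_apply] at h2
  linarith

theorem det_line {ι : Type*} [Fintype ι] [DecidableEq ι] (C A : Matrix ι ι ℝ)
    (hC : IsUnit C.det) :
    HasDerivAt (fun s : ℝ => (C + s • A).det) (C.det * (C⁻¹ * A).trace) 0 := by
  have h1 : ∀ s : ℝ, (C + s • A).det = C.det * (1 + s • (C⁻¹ * A)).det := by
    intro s
    rw [← Matrix.det_mul, Matrix.mul_add, Matrix.mul_one, Matrix.mul_smul, ← Matrix.mul_assoc,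
      Matrix.mul_nonsing_inv _ hC, Matrix.one_mul]
  have h2 : (fun s : ℝ => (C + s • A).det) = fun s : ℝ => C.det * (1 + (C⁻¹ * A).trace * s +
      (Matrix.det (1 + (Polynomial.X : Polynomial ℝ) • (C⁻¹ * A).map Polynomial.C)).divX.divX.eval s
        * s ^ 2) := by
    funext s
    rw [h1, Matrix.det_one_add_smul]
  rw [h2]
  set P : Polynomial ℝ :=
    (Matrix.det (1 + (Polynomial.X : Polynomial ℝ) • (C⁻¹ * A).map Polynomial.C)).divX.divX with hP
  have h3 : HasDerivAt (fun s : ℝ => P.eval s * s ^ 2)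
      (P.derivative.eval 0 * (0:ℝ) ^ 2 + P.eval 0 * (((2 : ℕ) : ℝ) * (0:ℝ) ^ (2 - 1))) 0 :=
    (P.hasDerivAt 0).mul (hasDerivAt_pow 2 (0:ℝ))
  have h4 : HasDerivAt (fun s : ℝ => (C⁻¹ * A).trace * s) ((C⁻¹ * A).trace * 1) 0 :=
    (hasDerivAt_id (0:ℝ)).const_mul _
  have h5 := (((hasDerivAt_const (0:ℝ) (1:ℝ)).add h4).add h3).const_mul C.det
  refine h5.congr_deriv ?_
  simp

/-- The derivative of a determinant along a curve of matrices. -/
theorem det_curve {ι : Type*} [Fintype ι] [DecidableEq ι] {m : ℝ → Matrix ι ι ℝ}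
    {A : Matrix ι ι ℝ} {t : ℝ} (hC : IsUnit (m t).det)
    (h : ∀ i j, HasDerivAt (fun s => m s i j) (A i j) t) :
    HasDerivAt (fun s => (m s).det) ((m t).det * ((m t)⁻¹ * A).trace) t := by
  have key : ∀ (m : ℝ → Matrix ι ι ℝ) (t : ℝ),
      (∀ i j, HasDerivAt (fun s => m s i j) (A i j) t) →
      HasDerivAt (fun s => (m s).det) (∑ σ : Equiv.Perm ι, (Equiv.Perm.sign σ : ℤ) •
        (∑ i, (∏ j ∈ Finset.univ.erase i, m t (σ j) j) • A (σ i) i)) t := by
    intro m t h
    simp only [Matrix.det_apply]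
    refine HasDerivAt.fun_sum (fun σ _ => ?_)
    have h1 := HasDerivAt.fun_finsetProd (u := Finset.univ)
      (f := fun (i : ι) (s : ℝ) => m s (σ i) i) (f' := fun i => A (σ i) i)
      (fun i _ => h (σ i) i)
    have h2 := h1.const_smul (Equiv.Perm.sign σ : ℤ)
    exact h2
  have h1 := key m t h
  have h2 : ∀ i j, HasDerivAt (fun s : ℝ => (m t + s • A) i j) (A i j) 0 := by
    intro i j
    simp only [Matrix.add_apply, Matrix.smul_apply, smul_eq_mul]
    simpa using ((hasDerivAt_id (0 : ℝ)).mul_const (A i j)).const_add (m t i j)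
  have h3 := key (fun s => m t + s • A) 0 h2
  simp only [zero_smul, add_zero] at h3
  have h4 := h3.unique (det_line (m t) A hC)
  rw [h4] at h1
  exact h1

variable {m : ℕ} {D : CxLie (Vm m)}

/-- a solution of the matrix flow on `[0, y]` -/
structure Sol (D : CxLie (Vm m)) (y : ℝ) (α : ℝ → Wm m) : Prop where
  init : Good D (α 0)
  pos : ∀ t ∈ Icc 0 y, α t ∈ Pos m
  cont : ContinuousOn α (Icc 0 y)
  der : ∀ t ∈ Ioo 0 y, HasDerivAt α (Phi D (α t)) t

namespace Sol

variable {y : ℝ} {α : ℝ → Wm m}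

lemma der_apply (h : Sol D y α) (i j : Fin m) {t : ℝ} (ht : t ∈ Ioo 0 y) :
    HasDerivAt (fun s => α s i j) (Phi D (α t) i j) t :=
  hasDerivAt_pi.1 (hasDerivAt_pi.1 (h.der t ht) i) j

lemma cont_apply (h : Sol D y α) (i j : Fin m) : ContinuousOn (fun s => α s i j) (Icc 0 y) :=
  continuousOn_pi.1 (continuousOn_pi.1 h.cont i) j

lemma der_gf (h : Sol D y α) (v w : Vm m) {t : ℝ} (ht : t ∈ Ioo 0 y) :
    HasDerivAt (fun s => gf (α s) v w) (D.bf (kap D (α t)) v w) t := by
  rw [← gf_Phi]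
  simp only [gf_apply]
  exact HasDerivAt.fun_sum fun i _ => HasDerivAt.fun_sum fun j _ =>
    (h.der_apply i j ht).const_mul _

lemma cont_gf (h : Sol D y α) (v w : Vm m) : ContinuousOn (fun s => gf (α s) v w) (Icc 0 y) := by
  simp only [gf_apply]
  exact continuousOn_finsetSum _ fun i _ => continuousOn_finsetSum _ fun j _ =>
    continuousOn_const.mul (h.cont_apply i j)

lemma good (h : Sol D y α) {t : ℝ} (ht : t ∈ Icc 0 y) : Good D (α t) := by
  refine ⟨h.pos t ht, fun i j => ?_, fun v w => ?_, fun v w p q => ?_⟩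
  · have h1 := const_aux (u := fun s => α s i j - α s j i)
      ((h.cont_apply i j).sub (h.cont_apply j i)) (fun s hs => by
        have := (h.der_apply i j hs).sub (h.der_apply j i hs)
        have e : Phi D (α s) i j - Phi D (α s) j i = 0 := by
          rw [sub_eq_zero]; exact D.bf_symm _ _ _
        rwa [e] at this) t ht
    have h2 := h.init.sym i j
    linarith
  · have h1 := const_aux (u := fun s => gf (α s) (D.J v) (D.J w) - gf (α s) v w)
      ((h.cont_gf _ _).sub (h.cont_gf _ _)) (fun s hs => by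
        have := (h.der_gf (D.J v) (D.J w) hs).sub (h.der_gf v w hs)
        rwa [D.bf_J, sub_self] at this) t ht
    have h2 := h.init.inv v w
    linarith
  · have hH : ∀ (a b c : Vm m) (s : ℝ), s ∈ Ioo 0 y → HasDerivAt (fun s => D.H (gf (α s)) a b c)
        (D.H (D.bf (kap D (α s))) a b c) s := fun a b c s hs =>
      ((h.der_gf _ _ hs).neg.sub (h.der_gf _ _ hs)).sub (h.der_gf _ _ hs)
    have hHc : ∀ (a b c : Vm m), ContinuousOn (fun s => D.H (gf (α s)) a b c) (Icc 0 y) :=
      fun a b c => ((h.cont_gf _ _).neg.sub (h.cont_gf _ _)).sub (h.cont_gf _ _)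
    have h1 := const_aux (u := fun s => D.dH (gf (α s)) v w p q)
      ((((((hHc _ _ _).neg.add (hHc _ _ _)).sub (hHc _ _ _)).sub (hHc _ _ _)).add
        (hHc _ _ _)).sub (hHc _ _ _)) (fun s hs => by
        have := (((((hH (D.br v w) p q s hs).neg.add (hH (D.br v p) w q s hs)).sub
          (hH (D.br v q) w p s hs)).sub (hH (D.br w p) v q s hs)).add
          (hH (D.br w q) v p s hs)).sub (hH (D.br p q) v w s hs)
        have e := D.dH_bf (kap D (α s)) v w p q
        simp only [CxLie.dH] at e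
        rwa [e] at this) t ht
    rw [h1, h.init.skt]

lemma Xv_diff (h : Sol D y α) {t : ℝ} (ht : t ∈ Ioo 0 y) :
    DifferentiableAt ℝ (fun s => Xv D (α s)) t := by
  have h1 : ∀ i j, DifferentiableAt ℝ (fun s => (Matrix.of (α s))⁻¹ i j) t := by
    intro i j
    have h2 : DifferentiableAt ℝ (fun a : Wm m => (Matrix.of a)⁻¹ i j) (α t) :=
      ((contDiffOn_inv (m := m) i j).contDiffAt
        (isOpen_Pos.mem_nhds (h.pos t ⟨ht.1.le, ht.2.le⟩))).differentiableAt (by simp)
    exact h2.comp t (h.der t ht).differentiableAt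
  rw [differentiableAt_pi]
  intro i
  simp only [Xv, Matrix.mulVec, dotProduct]
  exact DifferentiableAt.fun_sum fun j _ => (h1 i j).mul_const _

lemma Xv_cont (h : Sol D y α) : ContinuousOn (fun s => Xv D (α s)) (Icc 0 y) := by
  have h1 : ∀ i j, ContinuousOn (fun s => (Matrix.of (α s))⁻¹ i j) (Icc 0 y) := by
    intro i j
    exact (contDiffOn_inv (m := m) i j).continuousOn.comp h.cont h.pos
  rw [continuousOn_pi]
  intro i
  simp only [Xv, Matrix.mulVec, dotProduct]
  exact continuousOn_finsetSum _ fun j _ => (h1 i j).mul continuousOn_const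

lemma zz_der (h : Sol D y α) {t : ℝ} (ht : t ∈ Ioo 0 y) :
    HasDerivAt (fun s => zz D (α s)) (-D.bf (kap D (α t)) (Xv D (α t)) (Xv D (α t))) t := by
  have ht' : t ∈ Icc 0 y := ⟨ht.1.le, ht.2.le⟩
  have hX := (h.Xv_diff ht).hasDerivAt
  set X' := deriv (fun s => Xv D (α s)) t with hX'
  -- `s ↦ gf (α s) w (X s)` is constant near `t`
  have h1 : ∀ w : Vm m, D.bf (kap D (α t)) w (Xv D (α t)) + gf (α t) w X' = 0 := by
    intro w
    have hXi : ∀ i, HasDerivAt (fun s => Xv D (α s) i) (X' i) t := fun i => hasDerivAt_pi.1 hX i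
    have h2 : HasDerivAt (fun s => gf (α s) w (Xv D (α s)))
        (∑ i, ∑ j, ((0 * Xv D (α t) j + w i * X' j) * α t i j + w i * Xv D (α t) j * Phi D (α t) i j)) t := by
      simp only [gf_apply]
      exact HasDerivAt.fun_sum fun i _ => HasDerivAt.fun_sum fun j _ =>
        (((hasDerivAt_const t (w i)).mul (hXi j)).mul (h.der_apply i j ht))
    have h3 : (fun s => gf (α s) w (Xv D (α s))) =ᶠ[𝓝 t] fun _ => trJad D w := by
      filter_upwards [isOpen_Ioo.mem_nhds ht] with s hs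
      exact gf_Xv D (h.pos s ⟨hs.1.le, hs.2.le⟩) w
    have h4 := (h2.congr_of_eventuallyEq h3.symm).unique (hasDerivAt_const t (trJad D w))
    rw [← h4, ← gf_Phi, gf_apply, gf_apply, ← Finset.sum_add_distrib]
    refine Finset.sum_congr rfl fun i _ => ?_
    rw [← Finset.sum_add_distrib]
    refine Finset.sum_congr rfl fun j _ => ?_
    ring
  have h5 : HasDerivAt (fun s => zz D (α s)) (trJad D X') t := by
    have hl : HasFDerivAt (trJad D) (LinearMap.toContinuousLinearMap (trJad D)) (Xv D (α t)) :=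
      (LinearMap.toContinuousLinearMap (trJad D)).hasFDerivAt
    exact hl.comp_hasDerivAt t hX
  refine h5.congr_deriv ?_
  have g := h.good ht'
  have h6 := h1 (Xv D (α t))
  rw [gf_Xv' D g.pos g.sym] at h6
  linarith

lemma zz_cont (h : Sol D y α) : ContinuousOn (fun s => zz D (α s)) (Icc 0 y) :=
  (LinearMap.toContinuousLinearMap (trJad D)).continuous.comp_continuousOn h.Xv_cont

lemma zz_le (h : Sol D y α) {t : ℝ}
    (ht : t ∈ Icc 0 y) : zz D (α t) ≤ zz D (α 0) := by
  have := mono_aux (C := 0) h.zz_cont (fun s hs => h.zz_der hs) (fun s hs => by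
    have := (h.good ⟨hs.1.le, hs.2.le⟩).z_nonneg
    linarith) t ht
  linarith

/-- logarithm of the determinant -/
noncomputable def FF (a : Wm m) : ℝ := Real.log (Matrix.of a).det

lemma FF_der (h : Sol D y α) {t : ℝ} (ht : t ∈ Ioo 0 y) :
    HasDerivAt (fun s => FF (α s)) (((Matrix.of (α t))⁻¹ * (Matrix.of (Phi D (α t)))).trace) t := by
  have g := h.good (t := t) ⟨ht.1.le, ht.2.le⟩
  have h1 := det_curve (m := fun s => Matrix.of (α s)) (A := Matrix.of (Phi D (α t))) (t := t)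
    g.det_pos.ne'.isUnit (fun i j => h.der_apply i j ht)
  have h2 := h1.log g.det_pos.ne'
  rwa [mul_div_cancel_left₀ _ g.det_pos.ne'] at h2

lemma FF_cont (h : Sol D y α) : ContinuousOn (fun s => FF (α s)) (Icc 0 y) := by
  refine ContinuousOn.log (contDiff_det.continuous.comp_continuousOn h.cont) fun s hs => ?_
  exact (h.good hs).det_pos.ne'

lemma FF_lower (h : Sol D y α) {t : ℝ}
    (ht : t ∈ Icc 0 y) : FF (α 0) - (1 / 4) * zz D (α 0) * t ≤ FF (α t) := by
  have := mono_aux (C := (1 / 4) * zz D (α 0)) h.FF_cont.neg (fun s hs => (h.FF_der hs).neg)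
    (fun s hs => by
      have hs' : s ∈ Icc 0 y := ⟨hs.1.le, hs.2.le⟩
      have g := h.good hs'
      have h1 := g.F_lower
      have h2 := h.zz_le hs'
      have h3 := g.Nv_nonneg
      linarith) t ht
  simp only [Pi.neg_apply] at this
  linarith

/-- the square root of one plus the trace -/
noncomputable def LL (a : Wm m) : ℝ := Real.sqrt (1 + ∑ k, a k k)

lemma LL_cont (h : Sol D y α) : ContinuousOn (fun s => LL (α s)) (Icc 0 y) := by
  refine ContinuousOn.sqrt (continuousOn_const.add ?_)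
  exact continuousOn_finsetSum _ fun i _ => h.cont_apply i i

lemma LL_der (h : Sol D y α) {t : ℝ} (ht : t ∈ Ioo 0 y) :
    HasDerivAt (fun s => LL (α s)) ((∑ k, Phi D (α t) k k) / (2 * LL (α t))) t := by
  have g := h.good (t := t) ⟨ht.1.le, ht.2.le⟩
  have h1 : HasDerivAt (fun s => 1 + ∑ k, α s k k) (∑ k, Phi D (α t) k k) t :=
    (HasDerivAt.fun_sum fun i _ => h.der_apply i i ht).const_add 1
  exact h1.sqrt (by have := g.tr_nonneg; positivity)

lemma LL_upper {a : Wm m} (ha : Good D a) : (∑ k, Phi D a k k) / (2 * LL a) ≤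
    (1 / 4) * |trJad D (ww D)| + (1 / 4) * (∑ i, |ww D i|) * Real.sqrt (Nv D a) := by
  have h0 := ha.tr_nonneg
  have hL : 1 ≤ LL a := by
    rw [LL]; exact Real.one_le_sqrt.2 (by linarith)
  have hL2 : Real.sqrt (∑ k, a k k) ≤ LL a := Real.sqrt_le_sqrt (by linarith)
  rw [div_le_iff₀ (by linarith)]
  refine ha.tau_upper.trans ?_
  have e1 : 0 ≤ |trJad D (ww D)| := abs_nonneg _
  have e2 : 0 ≤ (∑ i, |ww D i|) := Finset.sum_nonneg fun i _ => abs_nonneg _
  have e3 : 0 ≤ (1 / 2) * (∑ i, |ww D i|) * Real.sqrt (Nv D a) := by positivity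
  have e4 := mul_le_mul_of_nonneg_left hL2 e3
  have e5 := mul_le_mul_of_nonneg_left hL e1
  linarith

/-- the a priori bound -/
theorem bound {a₀ : Wm m} {T : ℝ} (hg : Good D a₀) :
    ∃ R δ : ℝ, 0 < δ ∧ ∀ (y : ℝ) (α : ℝ → Wm m), y ∈ Icc 0 T → α 0 = a₀ → Sol D y α →
      α y ∈ Kset m R δ := by
  set ε : ℝ := 1 / (4 * m + 4) with hε
  have hε0 : 0 < ε := by positivity
  set c1 : ℝ := (1 / 4) * |trJad D (ww D)| with hc1
  set c2 : ℝ := (1 / 4) * (∑ i, |ww D i|) with hc2
  have hc1' : 0 ≤ c1 := by positivity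
  set C : ℝ := c1 + c2 ^ 2 / ε + ε / 4 * zz D a₀ with hC
  have hz0 := hg.zz_nonneg
  have hC0 : 0 ≤ C := by positivity
  set B : ℝ := 2 * (LL a₀ - ε * FF a₀ + C * T + ε * Real.log (Nat.factorial m)) with hB
  refine ⟨B ^ 2, Real.exp (FF a₀ - (1 / 4) * zz D a₀ * T), Real.exp_pos _, ?_⟩
  intro y α hy h0 h
  have hyy : y ∈ Icc 0 y := ⟨hy.1, le_rfl⟩
  have g := h.good hyy
  refine ⟨g.sym, pos_nonneg g.pos, ?_, ?_⟩
  · have h1 := mono_aux (u := fun s => LL (α s) - ε * FF (α s)) (C := C)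
      (h.LL_cont.sub (continuousOn_const.mul h.FF_cont))
      (fun s hs => (h.LL_der hs).sub ((h.FF_der hs).const_mul ε))
      (fun s hs => by
        have hs' : s ∈ Icc 0 y := ⟨hs.1.le, hs.2.le⟩
        have gs := h.good hs'
        have e1 := gs.F_lower
        have e2 : (∑ k, Phi D (α s) k k) / (2 * LL (α s)) ≤ c1 + c2 * Real.sqrt (Nv D (α s)) :=
          LL_upper gs
        have e3 := h.zz_le hs'
        rw [h0] at e3
        have e4 := Real.mul_self_sqrt gs.Nv_nonneg
        set q := Real.sqrt (Nv D (α s)) with hq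
        have e5 : c2 * q ≤ ε / 4 * (q * q) + c2 ^ 2 / ε := by
          have : 0 ≤ (ε * q / 2 - c2) ^ 2 / ε := by positivity
          have e6 : (ε * q / 2 - c2) ^ 2 / ε = ε / 4 * (q * q) - c2 * q + c2 ^ 2 / ε := by
            field_simp; ring
          rw [e6] at this
          linarith
        have e7 := mul_le_mul_of_nonneg_left e1 hε0.le
        have e8 := mul_le_mul_of_nonneg_left e3 (by positivity : 0 ≤ ε / 4)
        have e9 : ε * (1 / 4 * (Nv D (α s) - zz D (α s))) = ε / 4 * (q * q) - ε / 4 * zz D (α s) := by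
          rw [e4]; ring
        rw [e9] at e7
        rw [hC]
        linarith) y hyy
    simp only [h0] at h1
    have h2 : C * y ≤ C * T := mul_le_mul_of_nonneg_left hy.2 hC0
    have h3 : FF (α y) ≤ Real.log (Nat.factorial m) + 2 * m * LL (α y) := by
      have d1 := det_bound (pos_nonneg g.pos) g.sym
      have ht := g.tr_nonneg
      have p1 : (0 : ℝ) < Nat.factorial m := by positivity
      have p2 : (0 : ℝ) < 1 + ∑ k, α y k k := by linarith
      have d2 := Real.log_le_log g.det_pos d1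
      rw [Real.log_mul p1.ne' (pow_pos p2 _).ne', Real.log_pow] at d2
      have p3 : 0 < LL (α y) := Real.sqrt_pos.2 p2
      have d3 : Real.log (1 + ∑ k, α y k k) = 2 * Real.log (LL (α y)) := by
        rw [LL, Real.log_sqrt p2.le]; ring
      have d4 : Real.log (LL (α y)) ≤ LL (α y) := (Real.log_le_sub_one_of_pos p3).trans (by linarith)
      rw [d3] at d2
      have d5 : (m : ℝ) * (2 * Real.log (LL (α y))) ≤ 2 * m * LL (α y) := by
        have := mul_le_mul_of_nonneg_left d4 (by positivity : (0 : ℝ) ≤ 2 * m)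
        linarith
      exact d2.trans (by linarith)
    have h4 := mul_le_mul_of_nonneg_left h3 hε0.le
    have h5 : ε * (2 * m * LL (α y)) ≤ LL (α y) / 2 := by
      have hLn : 0 ≤ LL (α y) := Real.sqrt_nonneg _
      have : ε * (2 * m) ≤ 1 / 2 := by
        rw [hε, one_div_mul_eq_div, div_le_iff₀ (by positivity)]
        linarith
      have := mul_le_mul_of_nonneg_right this hLn
      linarith
    have h6 : LL (α y) ≤ B := by rw [hB]; linarith
    have h7 : LL (α y) ^ 2 = 1 + ∑ k, α y k k := Real.sq_sqrt (by have := g.tr_nonneg; linarith)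
    have h8 : LL (α y) ^ 2 ≤ B ^ 2 := pow_le_pow_left₀ (Real.sqrt_nonneg _) h6 2
    linarith
  · have h1 := h.FF_lower hyy
    rw [h0] at h1
    have h2 : (1 / 4) * zz D a₀ * y ≤ (1 / 4) * zz D a₀ * T :=
      mul_le_mul_of_nonneg_left hy.2 (by positivity)
    have h3 : FF a₀ - (1 / 4) * zz D a₀ * T ≤ FF (α y) := by linarith
    exact (Real.le_log_iff_exp_le g.det_pos).1 h3

end Sol

/-- **Long time existence** for the matrix flow. -/
theorem long_time {a₀ : Wm m} (hg : Good D a₀) {T : ℝ} (hT : 0 ≤ T) :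
    ∃ α : ℝ → Wm m, α 0 = a₀ ∧ (∀ t ∈ Icc 0 T, Good D (α t)) ∧
      (∀ t ∈ Icc 0 T, HasDerivWithinAt α (Phi D (α t)) (Icc 0 T) t) ∧
      ContDiffOn ℝ ∞ α (Icc 0 T) := by
  obtain ⟨R, δ, hδ, hK⟩ := Sol.bound (T := T) hg
  have hx₀ : a₀ ∈ Kset m R δ := by
    refine hK 0 (fun _ => a₀) ⟨le_rfl, hT⟩ rfl ⟨hg, fun _ _ => hg.pos, continuousOn_const, ?_⟩
    intro t ht
    exact absurd (ht.1.trans ht.2) (lt_irrefl _)
  have toSol : ∀ (y : ℝ) (α : ℝ → Wm m), α 0 = a₀ → (∀ t ∈ Icc 0 y, α t ∈ Pos m) →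
      (∀ t ∈ Icc 0 y, HasDerivWithinAt α (Phi D (α t)) (Icc 0 y) t) → Sol D y α := by
    intro y α h0 hp hd
    refine ⟨by rw [h0]; exact hg, hp, fun t ht => (hd t ht).continuousWithinAt, fun t ht => ?_⟩
    exact (hd t ⟨ht.1.le, ht.2.le⟩).hasDerivAt (Icc_mem_nhds ht.1 ht.2)
  obtain ⟨α, h0, hin, hd, hs⟩ := exists_of_apriori isOpen_Pos (isCompact_Kset R δ)
    (Kset_subset hδ) (contDiffOn_Phi D) hx₀ hT (fun y hy α h0 hp hd =>
      hK y α hy h0 (toSol y α h0 hp hd))
  have hsol := toSol T α h0 (fun t ht => Kset_subset hδ (hin t ht)) hd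
  exact ⟨α, h0, fun t ht => hsol.good ht, hd, hs⟩

end Run7.h533
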