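import Mathlib

/-!
# Pluriclosed flow on a compact complex manifold

Complex manifolds are presented as smooth manifolds with an integrable almost complex structure.
All tensors are tested on smooth vector fields.
-/

set_option autoImplicit false

namespace Run7.h533

open scoped Manifold ContDiff Bundle ENNReal
open Set

section Fields

variable (E : Type*) [NormedAddCommGroup E] [NormedSpace ℝ E]
  (M : Type*) [TopologicalSpace M] [ChartedSpace E M]

/-- vector fields on `M`, without any regularity -/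
abbrev VF : Type _ := (x : M) → TangentSpace 𝓘(ℝ, E) x

variable {E M}

/-- `X` is a smooth vector field -/
def SmoothVF [IsManifold 𝓘(ℝ, E) ∞ M] (X : VF E M) : Prop :=
  ContMDiff 𝓘(ℝ, E) (𝓘(ℝ, E).prod 𝓘(ℝ, E)) ∞
    (fun x => (⟨x, X x⟩ : TangentBundle 𝓘(ℝ, E) M))

/-- the Lie bracket of vector fields -/
noncomputable def lie (X Y : VF E M) : VF E M := VectorField.mlieBracket 𝓘(ℝ, E) X Y

/-- the derivative `X f` of a function along a vector field -/
noncomputable def dd (X : VF E M) (f : M → ℝ) (x : M) : ℝ := mvfderiv 𝓘(ℝ, E) f x (X x)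

/-- exterior derivative of a one-form, on vector fields -/
noncomputable def dOne (ξ : VF E M → M → ℝ) (X Y : VF E M) (x : M) : ℝ :=
  dd X (ξ Y) x - dd Y (ξ X) x - ξ (lie X Y) x

/-- exterior derivative of a two-form, on vector fields -/
noncomputable def dTwo (β : VF E M → VF E M → M → ℝ) (X Y Z : VF E M) (x : M) : ℝ :=
  dd X (β Y Z) x - dd Y (β X Z) x + dd Z (β X Y) x
    - β (lie X Y) Z x + β (lie X Z) Y x - β (lie Y Z) X x

/-- exterior derivative of a three-form, on vector fields -/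
noncomputable def dThree (γ : VF E M → VF E M → VF E M → M → ℝ) (X Y Z W : VF E M) (x : M) : ℝ :=
  dd X (γ Y Z W) x - dd Y (γ X Z W) x + dd Z (γ X Y W) x - dd W (γ X Y Z) x
    - γ (lie X Y) Z W x + γ (lie X Z) Y W x - γ (lie X W) Y Z x
    - γ (lie Y Z) X W x + γ (lie Y W) X Z x - γ (lie Z W) X Y x

end Fields

variable (E : Type*) [NormedAddCommGroup E] [NormedSpace ℝ E]
  (M : Type*) [TopologicalSpace M] [ChartedSpace E M] [IsManifold 𝓘(ℝ, E) ∞ M]

/-- an integrable almost complex structure on the smooth manifold `M`: a smooth field `J` of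
endomorphisms of the tangent spaces with `J² = -1` and vanishing Nijenhuis tensor -/
structure ComplexStr where
  J : (x : M) → TangentSpace 𝓘(ℝ, E) x →L[ℝ] TangentSpace 𝓘(ℝ, E) x
  J_sq : ∀ x v, J x (J x v) = -v
  smooth : ∀ X : VF E M, SmoothVF X → SmoothVF fun x => J x (X x)
  integrable : ∀ X Y : VF E M, SmoothVF X → SmoothVF Y → ∀ x,
    lie (fun y => J y (X y)) (fun y => J y (Y y)) x - J x (lie (fun y => J y (X y)) Y x)
      - J x (lie X (fun y => J y (Y y)) x) - lie X Y x = 0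

variable {E M}

/-- a smooth Hermitian metric -/
structure HermMetric (S : ComplexStr E M) where
  g : (x : M) → TangentSpace 𝓘(ℝ, E) x →L[ℝ] TangentSpace 𝓘(ℝ, E) x →L[ℝ] ℝ
  symm : ∀ x u v, g x u v = g x v u
  pos : ∀ x u, u ≠ 0 → 0 < g x u u
  inv : ∀ x u v, g x (S.J x u) (S.J x v) = g x u v
  smooth : ∀ X Y : VF E M, SmoothVF X → SmoothVF Y →
    ContMDiff 𝓘(ℝ, E) 𝓘(ℝ, ℝ) ∞ fun x => g x (X x) (Y x)

variable {S : ComplexStr E M}

namespace HermMetric

/-- the fundamental form `ω(X, Y) = g(J X, Y)` -/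
noncomputable def om (h : HermMetric S) (X Y : VF E M) (x : M) : ℝ := h.g x (S.J x (X x)) (Y x)

/-- the three-form `(X, Y, Z) ↦ dω(J X, J Y, J Z)`, i.e. `-dᶜω` -/
noncomputable def dcom (h : HermMetric S) (X Y Z : VF E M) (x : M) : ℝ :=
  dTwo h.om (fun y => S.J y (X y)) (fun y => S.J y (Y y)) (fun y => S.J y (Z y)) x

/-- `h` is pluriclosed: `d dᶜ ω = 0` -/
def Pluriclosed (h : HermMetric S) : Prop :=
  ∀ X Y Z W : VF E M, SmoothVF X → SmoothVF Y → SmoothVF Z → SmoothVF W → ∀ x,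
    dThree h.dcom X Y Z W x = 0

end HermMetric

/-- affine connections on `M` -/
abbrev Conn (E : Type*) [NormedAddCommGroup E] [NormedSpace ℝ E]
    (M : Type*) [TopologicalSpace M] [ChartedSpace E M] [IsManifold 𝓘(ℝ, E) ∞ M] : Type _ :=
  CovariantDerivative 𝓘(ℝ, E) E (TangentSpace 𝓘(ℝ, E) : M → Type _)

/-- the covariant derivative `∇_X Y` -/
noncomputable def nab (cov : Conn E M) (X Y : VF E M) : VF E M := fun x => cov Y x (X x)

/-- the torsion `∇_X Y - ∇_Y X - [X, Y]` -/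
noncomputable def tors (cov : Conn E M) (X Y : VF E M) : VF E M := fun x =>
  nab cov X Y x - nab cov Y X x - lie X Y x

/-- the curvature `∇_X ∇_Y Z - ∇_Y ∇_X Z - ∇_[X,Y] Z` -/
noncomputable def curv (cov : Conn E M) (X Y Z : VF E M) : VF E M := fun x =>
  nab cov X (nab cov Y Z) x - nab cov Y (nab cov X Z) x - nab cov (lie X Y) Z x

/-- `cov` is the Bismut connection of `h`: smooth, metric, complex, with totally skew-symmetric
torsion -/
structure IsBismut (h : HermMetric S) (cov : Conn E M) : Prop where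
  smooth : ∀ X Y : VF E M, SmoothVF X → SmoothVF Y → SmoothVF (nab cov X Y)
  metric : ∀ X Y Z : VF E M, SmoothVF X → SmoothVF Y → SmoothVF Z → ∀ x,
    dd X (fun y => h.g y (Y y) (Z y)) x = h.g x (nab cov X Y x) (Z x) + h.g x (Y x) (nab cov X Z x)
  complex : ∀ X Y : VF E M, SmoothVF X → SmoothVF Y → ∀ x,
    nab cov X (fun y => S.J y (Y y)) x = S.J x (nab cov X Y x)
  skew : ∀ X Y Z : VF E M, SmoothVF X → SmoothVF Y → SmoothVF Z → ∀ x,
    h.g x (tors cov X Y x) (Z x) = -h.g x (tors cov X Z x) (Y x)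

/-- bilinear forms on the tangent spaces -/
abbrev Form2 (E : Type*) [NormedAddCommGroup E] [NormedSpace ℝ E]
    (M : Type*) [TopologicalSpace M] [ChartedSpace E M] : Type _ :=
  (x : M) → TangentSpace 𝓘(ℝ, E) x →L[ℝ] TangentSpace 𝓘(ℝ, E) x →L[ℝ] ℝ

/-- `ρ` is the Ricci form `ρ(X, Y) = ½ tr (R(X, Y) ∘ J)` of the connection `cov`; here the
endomorphism `R(X, Y)` at `x` is the linear map `A` with `A (Z x) = (R(X, Y) Z)(x)` for all smooth
vector fields `Z` -/
def IsRicciForm (S : ComplexStr E M) (cov : Conn E M) (ρ : Form2 E M) : Prop :=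
  ∀ X Y : VF E M, SmoothVF X → SmoothVF Y → ∀ x,
    ∃ A : TangentSpace 𝓘(ℝ, E) x →ₗ[ℝ] TangentSpace 𝓘(ℝ, E) x,
      (∀ Z : VF E M, SmoothVF Z → A (Z x) = curv cov X Y Z x) ∧
      ρ x (X x) (Y x) = 1 / 2 * LinearMap.trace ℝ _ (A ∘ₗ (S.J x).toLinearMap)

/-- the `(1,1)`-part of a two-form -/
noncomputable def part11 (S : ComplexStr E M) (ρ : Form2 E M) (x : M)
    (u v : TangentSpace 𝓘(ℝ, E) x) : ℝ :=
  1 / 2 * (ρ x u v + ρ x (S.J x u) (S.J x v))

/-- `h t`, `t ∈ [0, T)`, is a smooth solution of the pluriclosed flow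
`∂ω/∂t = -ρ_B(ω)^{1,1}` -/
structure IsPluriclosedFlow (T : ℝ) (h : ℝ → HermMetric S) : Prop where
  pluriclosed : ∀ t ∈ Ico 0 T, (h t).Pluriclosed
  smooth : ∀ X Y : VF E M, SmoothVF X → SmoothVF Y →
    ContMDiffOn (𝓘(ℝ, ℝ).prod 𝓘(ℝ, E)) 𝓘(ℝ, ℝ) ∞
      (fun p : ℝ × M => (h p.1).g p.2 (X p.2) (Y p.2)) (Ico 0 T ×ˢ univ)
  eqn : ∀ t ∈ Ico 0 T, ∃ (cov : Conn E M) (ρ : Form2 E M), IsBismut (h t) cov ∧
    IsRicciForm S cov ρ ∧ ∀ (x : M) (u v : TangentSpace 𝓘(ℝ, E) x),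
      HasDerivWithinAt (fun s => (h s).g x (S.J x u) v) (-part11 S ρ x u v) (Ico 0 T) t

/-- the maximal existence time `T(ω₀)` of the pluriclosed flow -/
noncomputable def maximalTime (h₀ : HermMetric S) : ℝ≥0∞ :=
  ⨆ (T : ℝ) (_ : 0 < T ∧ ∃ h : ℝ → HermMetric S, h 0 = h₀ ∧ IsPluriclosedFlow T h), ENNReal.ofReal T

/-- the Aeppli class of `ω₀` minus `t` times the class of `ρ_B(ω₀)^{1,1}` contains a pluriclosed
metric; two real `(1,1)`-forms are in the same Aeppli class iff they differ by the `(1,1)`-part of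
`dξ` for a smooth real one-form `ξ` (`dξ^{1,1} = ∂β̄ + ∂̄β` for `ξ = β + β̄`, `β` of type `(1,0)`) -/
def InCone (h₀ : HermMetric S) (t : ℝ) : Prop :=
  ∃ (cov : Conn E M) (ρ : Form2 E M) (h : HermMetric S)
    (ξ : (x : M) → TangentSpace 𝓘(ℝ, E) x →L[ℝ] ℝ),
    IsBismut h₀ cov ∧ IsRicciForm S cov ρ ∧ h.Pluriclosed ∧
    (∀ X : VF E M, SmoothVF X → ContMDiff 𝓘(ℝ, E) 𝓘(ℝ, ℝ) ∞ fun x => ξ x (X x)) ∧
    ∀ X Y : VF E M, SmoothVF X → SmoothVF Y → ∀ x,
      h.om X Y x = h₀.om X Y x - t * part11 S ρ x (X x) (Y x)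
        + 1 / 2 * (dOne (fun V y => ξ y (V y)) X Y x
          + dOne (fun V y => ξ y (V y)) (fun y => S.J y (X y)) (fun y => S.J y (Y y)) x)

/-- the cohomological bound `τ*(ω₀)` -/
noncomputable def cohomologicalTime (h₀ : HermMetric S) : ℝ≥0∞ :=
  ⨆ (t : ℝ) (_ : 0 ≤ t ∧ InCone h₀ t), ENNReal.ofReal t

end Run7.h533
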