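import Mathlib
import Pool.Agent.Run7.h533.Geo

/-!
# Global frames: coefficients of vector fields
-/

set_option autoImplicit false

namespace Run7.h533

open scoped Manifold ContDiff Bundle
open Set

variable {E : Type*} [NormedAddCommGroup E] [NormedSpace ℝ E] [FiniteDimensional ℝ E]
  {M : Type*} [TopologicalSpace M] [ChartedSpace E M]

omit [FiniteDimensional ℝ E] in
lemma t2Tangent (x : M) : T2Space (TangentSpace 𝓘(ℝ, E) x) := inferInstanceAs (T2Space E)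

lemma finTangent (x : M) : FiniteDimensional ℝ (TangentSpace 𝓘(ℝ, E) x) :=
  inferInstanceAs (FiniteDimensional ℝ E)

variable [IsManifold 𝓘(ℝ, E) ∞ M]

omit [FiniteDimensional ℝ E] in
lemma eventually_baseSet (x : M) :
    ∀ᶠ y in nhds x, y ∈ (trivializationAt E (TangentSpace 𝓘(ℝ, E)) x).baseSet :=
  (trivializationAt E (TangentSpace 𝓘(ℝ, E)) x).open_baseSet.mem_nhds
    (FiberBundle.mem_baseSet_trivializationAt' x)

variable (E M) in
/-- a global smooth frame -/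
structure Frame (m : ℕ) where
  Z : Fin m → VF E M
  isFrame : IsLocalFrameOn 𝓘(ℝ, E) E ∞ Z univ

namespace Frame

variable {m : ℕ} (F : Frame E M m)

/-- coordinates in the frame -/
noncomputable def co (x : M) : TangentSpace 𝓘(ℝ, E) x ≃L[ℝ] (Fin m → ℝ) :=
  haveI := t2Tangent (E := E) x
  haveI := finTangent (E := E) x
  (F.isFrame.toBasisAt (mem_univ x)).equivFun.toContinuousLinearEquiv

lemma co_symm_apply (x : M) (v : Fin m → ℝ) : (F.co x).symm v = ∑ i, v i • F.Z i x := by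
  rw [ContinuousLinearEquiv.symm_apply_eq]
  show v = (F.isFrame.toBasisAt (mem_univ x)).equivFun _
  rw [eq_comm, ← LinearEquiv.eq_symm_apply, Module.Basis.equivFun_symm_apply]
  simp

lemma co_Z (x : M) (i : Fin m) : F.co x (F.Z i x) = Pi.single i 1 := by
  rw [← ContinuousLinearEquiv.eq_symm_apply, co_symm_apply]
  rw [Finset.sum_eq_single i]
  · simp
  · intro j _ hj; simp [hj]
  · simp

/-- coefficient function of a vector field -/
noncomputable def cv (X : VF E M) (x : M) : Fin m → ℝ := F.co x (X x)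

omit [FiniteDimensional ℝ E] in
lemma Z_contMDiffAt (i : Fin m) (x : M) : ContMDiffAt 𝓘(ℝ, E) (𝓘(ℝ, E).prod 𝓘(ℝ, E)) ∞
    (fun x => (⟨x, F.Z i x⟩ : TangentBundle 𝓘(ℝ, E) M)) x :=
  F.isFrame.contMDiffAt isOpen_univ (mem_univ x) i

omit [FiniteDimensional ℝ E] in
lemma smooth_Z (i : Fin m) : SmoothVF (F.Z i) := fun x => F.Z_contMDiffAt i x

/-- the frame written in a trivialization -/
noncomputable def AA (x : M) (y : M) : (Fin m → ℝ) →L[ℝ] E :=
  ∑ i, (ContinuousLinearMap.proj i : (Fin m → ℝ) →L[ℝ] ℝ).smulRight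
    ((trivializationAt E (TangentSpace 𝓘(ℝ, E)) x ⟨y, F.Z i y⟩).2)

omit [FiniteDimensional ℝ E] in
lemma AA_contMDiffAt (x : M) :
    ContMDiffAt 𝓘(ℝ, E) 𝓘(ℝ, (Fin m → ℝ) →L[ℝ] E) ∞ (F.AA x) x := by
  have h : ∀ i, ContMDiffAt 𝓘(ℝ, E) 𝓘(ℝ, (Fin m → ℝ) →L[ℝ] E) ∞
      (fun y => (ContinuousLinearMap.proj i : (Fin m → ℝ) →L[ℝ] ℝ).smulRight
        ((trivializationAt E (TangentSpace 𝓘(ℝ, E)) x ⟨y, F.Z i y⟩).2)) x := by
    intro i
    have h1 := (Bundle.contMDiffAt_section x).1 (F.Z_contMDiffAt i x)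
    exact ((ContinuousLinearMap.smulRightL ℝ (Fin m → ℝ) E
      (ContinuousLinearMap.proj i)).contDiff.contMDiff.contMDiffAt).comp x h1
  exact ContMDiffAt.sum (t := Finset.univ) fun i _ => h i

lemma AA_eq (x y : M) (hy : y ∈ (trivializationAt E (TangentSpace 𝓘(ℝ, E)) x).baseSet) :
    F.AA x y = ((F.co y).symm.trans
      ((trivializationAt E (TangentSpace 𝓘(ℝ, E)) x).continuousLinearEquivAt ℝ y hy) :
        (Fin m → ℝ) ≃L[ℝ] E) := by
  ext1 v
  simp only [AA, sum_apply, ContinuousLinearMap.smulRight_apply,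
    ContinuousLinearMap.proj_apply, ContinuousLinearEquiv.coe_coe, ContinuousLinearEquiv.trans_apply,
    co_symm_apply, map_sum, map_smul]
  rfl

lemma cv_eq (X : VF E M) (x y : M)
    (hy : y ∈ (trivializationAt E (TangentSpace 𝓘(ℝ, E)) x).baseSet) :
    F.cv X y = (F.AA x y).inverse ((trivializationAt E (TangentSpace 𝓘(ℝ, E)) x ⟨y, X y⟩).2) := by
  rw [F.AA_eq x y hy, ContinuousLinearMap.inverse_equiv]
  simp only [cv, ContinuousLinearEquiv.coe_coe, ContinuousLinearEquiv.symm_trans_apply,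
    ContinuousLinearEquiv.symm_symm]
  congr 1
  rw [ContinuousLinearEquiv.eq_symm_apply]
  rfl

lemma AA_inverse_contMDiffAt (x : M) :
    ContMDiffAt 𝓘(ℝ, E) 𝓘(ℝ, E →L[ℝ] (Fin m → ℝ)) ∞ (fun y => (F.AA x y).inverse) x := by
  have hx : x ∈ (trivializationAt E (TangentSpace 𝓘(ℝ, E)) x).baseSet :=
    FiberBundle.mem_baseSet_trivializationAt' x
  have h1 : (F.AA x x).IsInvertible := by rw [F.AA_eq x x hx]; exact ⟨_, rfl⟩
  have h2 : ContDiffAt ℝ ∞ ContinuousLinearMap.inverse (F.AA x x) := h1.contDiffAt_map_inverse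
  exact h2.contMDiffAt.comp x (F.AA_contMDiffAt x)

lemma cv_contMDiffAt {X : VF E M} {x : M} {n : ℕ∞ω} (hn : n ≤ ∞)
    (hX : ContMDiffAt 𝓘(ℝ, E) (𝓘(ℝ, E).prod 𝓘(ℝ, E)) n
      (fun x => (⟨x, X x⟩ : TangentBundle 𝓘(ℝ, E) M)) x) :
    ContMDiffAt 𝓘(ℝ, E) 𝓘(ℝ, Fin m → ℝ) n (F.cv X) x := by
  have h1 := (Bundle.contMDiffAt_section x).1 hX
  have h2 := (F.AA_inverse_contMDiffAt x).of_le hn
  refine (h2.clm_apply h1).congr_of_eventuallyEq ?_
  filter_upwards [eventually_baseSet (E := E) x] with y hy using F.cv_eq X x y hy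

lemma cv_mdiff {X : VF E M} {x : M}
    (hX : MDifferentiableAt 𝓘(ℝ, E) (𝓘(ℝ, E).prod 𝓘(ℝ, E))
      (fun x => (⟨x, X x⟩ : TangentBundle 𝓘(ℝ, E) M)) x) :
    MDifferentiableAt 𝓘(ℝ, E) 𝓘(ℝ, Fin m → ℝ) (F.cv X) x := by
  have h1 := (mdifferentiableAt_section 𝓘(ℝ, E) X).1 hX
  have h2 := (F.AA_inverse_contMDiffAt x).mdifferentiableAt (by simp)
  refine (h2.clm_apply h1).congr_of_eventuallyEq ?_
  filter_upwards [eventually_baseSet (E := E) x] with y hy using F.cv_eq X x y hy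

lemma smooth_cv {X : VF E M} (hX : SmoothVF X) :
    ContMDiff 𝓘(ℝ, E) 𝓘(ℝ, Fin m → ℝ) ∞ (F.cv X) :=
  fun x => F.cv_contMDiffAt le_rfl (hX x)

lemma eq_sum (X : VF E M) (x : M) : X x = ∑ i, F.cv X x i • F.Z i x := by
  rw [← co_symm_apply, cv, ContinuousLinearEquiv.symm_apply_apply]

lemma smooth_of_cv {X : VF E M} (hX : ContMDiff 𝓘(ℝ, E) 𝓘(ℝ, Fin m → ℝ) ∞ (F.cv X)) :
    SmoothVF X := by
  have h : ∀ i, ContMDiff 𝓘(ℝ, E) 𝓘(ℝ, ℝ) ∞ (fun x => F.cv X x i) := by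
    intro i
    exact (ContinuousLinearMap.proj (R := ℝ) (φ := fun _ : Fin m => ℝ) i).contDiff.contMDiff.comp hX
  have h2 : ContMDiff 𝓘(ℝ, E) (𝓘(ℝ, E).prod 𝓘(ℝ, E)) ∞
      (fun x => (⟨x, ∑ i, F.cv X x i • F.Z i x⟩ : TangentBundle 𝓘(ℝ, E) M)) :=
    ContMDiff.sum_section fun i _ => (h i).smul_section (F.smooth_Z i)
  have h3 : X = fun x => ∑ i, F.cv X x i • F.Z i x := by
    funext x; exact F.eq_sum X x
  rw [SmoothVF, h3]
  exact h2

end Frame

end Run7.h533
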