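import Mathlib
import Pool.Agent.Run7.h533.Fr

/-!
# Calculus in a global frame
-/

set_option autoImplicit false

namespace Run7.h533

open scoped Manifold ContDiff Bundle
open Set

variable {E : Type*} [NormedAddCommGroup E] [NormedSpace ℝ E]
  {M : Type*} [TopologicalSpace M] [ChartedSpace E M]
  {W₁ W₂ W₃ : Type*} [NormedAddCommGroup W₁] [NormedSpace ℝ W₁]
  [NormedAddCommGroup W₂] [NormedSpace ℝ W₂] [NormedAddCommGroup W₃] [NormedSpace ℝ W₃]

/-- derivative of a vector valued function along a vector field -/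
noncomputable def dv (X : VF E M) (u : M → W₁) (x : M) : W₁ := mvfderiv 𝓘(ℝ, E) u x (X x)

lemma dd_eq (X : VF E M) (f : M → ℝ) (x : M) : dd X f x = dv X f x := rfl

lemma hasMFDerivAt_mvf {u : M → W₁} {x : M} (hu : MDifferentiableAt 𝓘(ℝ, E) 𝓘(ℝ, W₁) u x) :
    HasMFDerivAt 𝓘(ℝ, E) 𝓘(ℝ, W₁) u x (mvfderiv 𝓘(ℝ, E) u x) := hu.hasMFDerivAt

lemma mvf_of_has {u : M → W₁} {x : M} {u' : TangentSpace 𝓘(ℝ, E) x →L[ℝ] W₁}
    (hu : HasMFDerivAt 𝓘(ℝ, E) 𝓘(ℝ, W₁) u x u') : mvfderiv 𝓘(ℝ, E) u x = u' := hu.mfderiv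

lemma dv_const (X : VF E M) (c : W₁) (x : M) : dv X (fun _ => c) x = 0 := by
  rw [dv, mvfderiv_const]; rfl

lemma dv_comp_fderiv (X : VF E M) {u : M → W₁} {x : M}
    (hu : MDifferentiableAt 𝓘(ℝ, E) 𝓘(ℝ, W₁) u x) {φ : W₁ → W₂} {φ' : W₁ →L[ℝ] W₂}
    (hφ : HasFDerivAt φ φ' (u x)) : dv X (fun y => φ (u y)) x = φ' (dv X u x) := by
  have h := hφ.hasMFDerivAt.comp x (hasMFDerivAt_mvf hu)
  have h2 := mvf_of_has h
  simp only [dv]
  change mvfderiv 𝓘(ℝ, E) (φ ∘ u) x (X x) = _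
  rw [h2]
  rfl

lemma dv_clm (X : VF E M) {u : M → W₁} {x : M}
    (hu : MDifferentiableAt 𝓘(ℝ, E) 𝓘(ℝ, W₁) u x) (L : W₁ →L[ℝ] W₂) :
    dv X (fun y => L (u y)) x = L (dv X u x) :=
  dv_comp_fderiv X hu L.hasFDerivAt

lemma dv_bilin (X : VF E M) {u : M → W₁} {w : M → W₂} {x : M}
    (hu : MDifferentiableAt 𝓘(ℝ, E) 𝓘(ℝ, W₁) u x)
    (hw : MDifferentiableAt 𝓘(ℝ, E) 𝓘(ℝ, W₂) w x) (B : W₁ →L[ℝ] W₂ →L[ℝ] W₃) :
    dv X (fun y => B (u y) (w y)) x = B (dv X u x) (w x) + B (u x) (dv X w x) := by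
  have h1 : HasMFDerivAt 𝓘(ℝ, E) 𝓘(ℝ, W₁ × W₂) (fun y => (u y, w y)) x
      ((mvfderiv 𝓘(ℝ, E) u x).prod (mvfderiv 𝓘(ℝ, E) w x)) :=
    ⟨(hasMFDerivAt_mvf hu).1.prodMk (hasMFDerivAt_mvf hw).1,
      (hasMFDerivAt_mvf hu).2.prodMk (hasMFDerivAt_mvf hw).2⟩
  have h2 := B.isBoundedBilinearMap.hasFDerivAt (u x, w x)
  have h3 := mvf_of_has (h2.hasMFDerivAt.comp x h1)
  simp only [dv]
  change mvfderiv 𝓘(ℝ, E) ((fun p : W₁ × W₂ => B p.1 p.2) ∘ fun y => (u y, w y)) x (X x) = _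
  rw [h3]
  exact (B.isBoundedBilinearMap.deriv_apply (u x, w x)
    (mvfderiv 𝓘(ℝ, E) u x (X x), mvfderiv 𝓘(ℝ, E) w x (X x))).trans (add_comm _ _)

lemma dv_add (X : VF E M) {u w : M → W₁} {x : M}
    (hu : MDifferentiableAt 𝓘(ℝ, E) 𝓘(ℝ, W₁) u x)
    (hw : MDifferentiableAt 𝓘(ℝ, E) 𝓘(ℝ, W₁) w x) :
    dv X (fun y => u y + w y) x = dv X u x + dv X w x := by
  simp only [dv]
  rw [mvfderiv_fun_add hu hw]; rfl

lemma dv_smul (X : VF E M) {f : M → ℝ} {w : M → W₁} {x : M}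
    (hf : MDifferentiableAt 𝓘(ℝ, E) 𝓘(ℝ, ℝ) f x)
    (hw : MDifferentiableAt 𝓘(ℝ, E) 𝓘(ℝ, W₁) w x) :
    dv X (fun y => f y • w y) x = f x • dv X w x + dv X f x • w x := by
  simp only [dv]
  rw [mvfderiv_fun_smul hf hw]; rfl

lemma dv_add_left (X Y : VF E M) (u : M → W₁) (x : M) :
    dv (X + Y) u x = dv X u x + dv Y u x := by
  simp [dv]

lemma dv_smul_left (f : M → ℝ) (X : VF E M) (u : M → W₁) (x : M) :
    dv (f • X) u x = f x • dv X u x := by
  simp [dv]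

/-- differentiability of a vector field -/
abbrev DiffVF [IsManifold 𝓘(ℝ, E) ∞ M] (X : VF E M) (x : M) : Prop :=
  MDifferentiableAt 𝓘(ℝ, E) (𝓘(ℝ, E).prod 𝓘(ℝ, E))
    (fun x => (⟨x, X x⟩ : TangentBundle 𝓘(ℝ, E) M)) x

variable [IsManifold 𝓘(ℝ, E) ∞ M]

lemma SmoothVF.diff {X : VF E M} (hX : SmoothVF X) (x : M) : DiffVF X x :=
  (hX x).mdifferentiableAt (by simp)

variable [FiniteDimensional ℝ E]

namespace Frame

variable {m : ℕ} (F : Frame E M m)

lemma cv_add (X Y : VF E M) : F.cv (X + Y) = fun x => F.cv X x + F.cv Y x := by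
  funext x; simp [cv]

lemma cv_smul (f : M → ℝ) (X : VF E M) : F.cv (f • X) = fun x => f x • F.cv X x := by
  funext x; simp [cv]

lemma cv_Z (i : Fin m) : F.cv (F.Z i) = fun _ => Pi.single i 1 := by
  funext x; exact F.co_Z x i

end Frame

/-- the bracket with structure constants `c` -/
noncomputable def brc {m : ℕ} (c : Fin m → Fin m → Fin m → ℝ) :
    (Fin m → ℝ) →ₗ[ℝ] (Fin m → ℝ) →ₗ[ℝ] (Fin m → ℝ) :=
  LinearMap.mk₂ ℝ (fun x y k => ∑ i, ∑ j, x i * y j * c i j k)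
    (by intro a b d; ext k; simp [add_mul, Finset.sum_add_distrib])
    (by intro a b d; ext k; simp [mul_assoc, Finset.mul_sum])
    (by intro a b d; ext k; simp [add_mul, mul_add, Finset.sum_add_distrib])
    (by intro a b d; ext k; simp [mul_assoc, mul_left_comm, Finset.mul_sum])

lemma brc_apply {m : ℕ} (c : Fin m → Fin m → Fin m → ℝ) (x y : Fin m → ℝ) (k : Fin m) :
    brc c x y k = ∑ i, ∑ j, x i * y j * c i j k := rfl

lemma brc_single {m : ℕ} (c : Fin m → Fin m → Fin m → ℝ) (i j : Fin m) :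
    brc c (Pi.single i 1) (Pi.single j 1) = c i j := by
  ext k; simp [brc_apply, Pi.single_apply]

lemma lie_add_left {X X' Y : VF E M} {x : M} (hX : DiffVF X x) (hX' : DiffVF X' x) :
    lie (X + X') Y x = lie X Y x + lie X' Y x := VectorField.mlieBracket_add_left hX hX'

lemma lie_smul_left {f : M → ℝ} {X Y : VF E M} {x : M}
    (hf : MDifferentiableAt 𝓘(ℝ, E) 𝓘(ℝ, ℝ) f x) (hX : DiffVF X x) :
    lie (f • X) Y x = -dv Y f x • X x + f x • lie X Y x :=
  VectorField.mlieBracket_smul_left hf hX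

omit [IsManifold 𝓘(ℝ, E) ∞ M] [FiniteDimensional ℝ E] in
lemma lie_swap (X Y : VF E M) (x : M) : lie X Y x = -lie Y X x :=
  VectorField.mlieBracket_swap_apply

/-- vector valued structure defect -/
noncomputable def Frame.defect {m : ℕ} (F : Frame E M m) (x : M) (X Y : VF E M) : Fin m → ℝ :=
  F.cv (lie X Y) x - dv X (F.cv Y) x + dv Y (F.cv X) x

namespace Frame

variable {m : ℕ} (F : Frame E M m)

lemma defect_swap (x : M) (X Y : VF E M) : F.defect x X Y = -F.defect x Y X := by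
  simp only [defect, cv, lie_swap X Y x, map_neg]
  abel

lemma defect_tensorial (x : M) (Y : VF E M) :
    TensorialAt 𝓘(ℝ, E) E (F.defect x · Y) x where
  smul {f X} hf hX := by
    have h1 : F.cv (lie (f • X) Y) x = -dv Y f x • F.cv X x + f x • F.cv (lie X Y) x := by
      simp only [cv, lie_smul_left hf hX, map_add, map_smul]
    simp only [defect]
    rw [h1, F.cv_smul, dv_smul_left, dv_smul _ hf (F.cv_mdiff hX)]
    simp only [smul_add, smul_sub]
    module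
  add {X X'} hX hX' := by
    have h1 : F.cv (lie (X + X') Y) x = F.cv (lie X Y) x + F.cv (lie X' Y) x := by
      simp only [cv, lie_add_left hX hX', map_add]
    simp only [defect]
    rw [h1, F.cv_add, dv_add_left, dv_add _ (F.cv_mdiff hX) (F.cv_mdiff hX')]
    abel

lemma defect_tensorial' (x : M) (X : VF E M) :
    TensorialAt 𝓘(ℝ, E) E (F.defect x X) x where
  smul {f Y} hf hY := by
    rw [F.defect_swap x X, (F.defect_tensorial x X).smul hf hY, F.defect_swap x X Y, smul_neg]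
  add {Y Y'} hY hY' := by
    rw [F.defect_swap x X, (F.defect_tensorial x X).add hY hY', F.defect_swap x X Y,
      F.defect_swap x X Y', neg_add]

/-- the structure equation -/
theorem struct_eq {c : Fin m → Fin m → Fin m → ℝ}
    (hc : ∀ i j x, lie (F.Z i) (F.Z j) x = ∑ k, c i j k • F.Z k x) {X Y : VF E M} {x : M}
    (hX : DiffVF X x) (hY : DiffVF Y x) :
    F.cv (lie X Y) x = dv X (F.cv Y) x - dv Y (F.cv X) x + brc c (F.cv X x) (F.cv Y x) := by
  have hD := TensorialAt.mkHom₂_apply (Φ := F.defect x) (x := x)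
    (fun τ _ => F.defect_tensorial x τ) (fun σ _ => F.defect_tensorial' x σ) hX hY
  set L := TensorialAt.mkHom₂ (F.defect x) x
    (fun τ _ => F.defect_tensorial x τ) (fun σ _ => F.defect_tensorial' x σ) with hL
  have hZ : ∀ i j, L (F.Z i x) (F.Z j x) = c i j := by
    intro i j
    rw [hL, TensorialAt.mkHom₂_apply _ _ ((F.smooth_Z i).diff x) ((F.smooth_Z j).diff x)]
    simp only [defect, cv_Z, dv_const]
    rw [cv, hc, ← F.co_symm_apply, ContinuousLinearEquiv.apply_symm_apply]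
    simp
  have h2 : F.defect x X Y = brc c (F.cv X x) (F.cv Y x) := by
    rw [← hD]
    conv_lhs => rw [F.eq_sum X x, F.eq_sum Y x]
    simp only [map_sum, map_smul, sum_apply, smul_apply, hZ]
    ext k
    simp only [Finset.sum_apply, Pi.smul_apply, smul_eq_mul, brc_apply, Finset.mul_sum]
    rw [Finset.sum_comm]
    refine Finset.sum_congr rfl fun i _ => Finset.sum_congr rfl fun j _ => ?_
    ring
  rw [← h2, defect]
  abel

end Frame

end Run7.h533
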