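import Mathlib
import Pool.Agent.Run7.h533.Calc

/-!
# Second order calculus in a global frame
-/

set_option autoImplicit false

namespace Run7.h533

open scoped Manifold ContDiff Bundle
open Set

variable {E : Type*} [NormedAddCommGroup E] [NormedSpace ℝ E]
  {M : Type*} [TopologicalSpace M] [ChartedSpace E M] [IsManifold 𝓘(ℝ, E) ∞ M]
  {W₁ W₂ W₃ : Type*} [NormedAddCommGroup W₁] [NormedSpace ℝ W₁]
  [NormedAddCommGroup W₂] [NormedSpace ℝ W₂] [NormedAddCommGroup W₃] [NormedSpace ℝ W₃]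

lemma contMDiff_dv {X : VF E M} (hX : SmoothVF X) {u : M → W₁}
    (hu : ContMDiff 𝓘(ℝ, E) 𝓘(ℝ, W₁) ∞ u) : ContMDiff 𝓘(ℝ, E) 𝓘(ℝ, W₁) ∞ (dv X u) := by
  have h1 : ContMDiff 𝓘(ℝ, E) (𝓘(ℝ, W₁).prod 𝓘(ℝ, W₁)) ∞
      (fun x => tangentMap 𝓘(ℝ, E) 𝓘(ℝ, W₁) u (⟨x, X x⟩ : TangentBundle 𝓘(ℝ, E) M)) :=
    (hu.contMDiff_tangentMap (m := ∞) le_rfl).comp hX
  have h2 := (contMDiff_snd_tangentBundle_modelSpace (n := ∞) W₁ 𝓘(ℝ, W₁)).comp h1
  exact h2

omit [IsManifold 𝓘(ℝ, E) ∞ M] in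
lemma mdiff_of_cont {u : M → W₁} (hu : ContMDiff 𝓘(ℝ, E) 𝓘(ℝ, W₁) ∞ u) (x : M) :
    MDifferentiableAt 𝓘(ℝ, E) 𝓘(ℝ, W₁) u x := (hu x).mdifferentiableAt (by simp)

lemma two_le_infty : (2 : ℕ∞ω) ≤ ∞ := by
  have h : ((2 : ℕ∞) : ℕ∞ω) ≤ ((⊤ : ℕ∞) : ℕ∞ω) := WithTop.coe_le_coe.2 le_top
  exact h

lemma isMan2 : IsManifold 𝓘(ℝ, E) (minSmoothness ℝ 2) M := by
  rw [minSmoothness_of_isRCLikeNormedField]; infer_instance

lemma isMan3 : IsManifold 𝓘(ℝ, E) (minSmoothness ℝ 3) M := by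
  rw [minSmoothness_of_isRCLikeNormedField]; infer_instance

lemma smooth_smul {f : M → ℝ} {X : VF E M} (hf : ContMDiff 𝓘(ℝ, E) 𝓘(ℝ, ℝ) ∞ f)
    (hX : SmoothVF X) : SmoothVF (f • X) := hf.smul_section hX

variable [FiniteDimensional ℝ E]

lemma smooth_lie {X Y : VF E M} (hX : SmoothVF X) (hY : SmoothVF Y) : SmoothVF (lie X Y) := by
  intro x
  have := isMan2 (E := E) (M := M)
  have : IsManifold 𝓘(ℝ, E) (((⊤ : ℕ∞) : ℕ∞ω) + 1) M := by
    show IsManifold 𝓘(ℝ, E) ∞ M; infer_instance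
  have := ContMDiffAt.mlieBracket_vectorField (I := 𝓘(ℝ, E)) (m := ⊤) (n := ⊤) (U := X) (V := Y)
    (hX x) (hY x) (by rw [minSmoothness_of_isRCLikeNormedField]; exact le_rfl)
  exact this

lemma lie_smul_right {f : M → ℝ} {X Y : VF E M} {x : M}
    (hf : MDifferentiableAt 𝓘(ℝ, E) 𝓘(ℝ, ℝ) f x) (hY : DiffVF Y x) :
    lie X (f • Y) x = dv X f x • Y x + f x • lie X Y x :=
  VectorField.mlieBracket_smul_right hf hY

lemma lie_add_right {X Y Y' : VF E M} {x : M} (hY : DiffVF Y x) (hY' : DiffVF Y' x) :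
    lie X (Y + Y') x = lie X Y x + lie X Y' x := VectorField.mlieBracket_add_right hY hY'

lemma lie_jacobi {X Y Z : VF E M} (hX : SmoothVF X) (hY : SmoothVF Y) (hZ : SmoothVF Z) (x : M) :
    lie X (lie Y Z) x = lie (lie X Y) Z x + lie Y (lie X Z) x := by
  have := isMan3 (E := E) (M := M)
  refine VectorField.leibniz_identity_mlieBracket_apply ?_ ?_ ?_
  all_goals
    rw [minSmoothness_of_isRCLikeNormedField]
  · exact (hX x).of_le two_le_infty
  · exact (hY x).of_le two_le_infty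
  · exact (hZ x).of_le two_le_infty

lemma comm_smul {X Y W : VF E M} (hX : SmoothVF X) (hY : SmoothVF Y) (hW : SmoothVF W) {f : M → ℝ}
    (hf : ContMDiff 𝓘(ℝ, E) 𝓘(ℝ, ℝ) ∞ f) (x : M) :
    (dv (lie X Y) f x - (dv X (dv Y f) x - dv Y (dv X f) x)) • W x = 0 := by
  have hXf := contMDiff_dv hX hf
  have hYf := contMDiff_dv hY hf
  have e1 : lie Y (f • W) = dv Y f • W + f • lie Y W := by
    funext y; exact lie_smul_right (mdiff_of_cont hf y) (hW.diff y)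
  have e2 : lie X (f • W) = dv X f • W + f • lie X W := by
    funext y; exact lie_smul_right (mdiff_of_cont hf y) (hW.diff y)
  have a1 : lie X (lie Y (f • W)) x = dv X (dv Y f) x • W x + dv Y f x • lie X W x
      + (dv X f x • lie Y W x + f x • lie X (lie Y W) x) := by
    rw [e1, lie_add_right ((smooth_smul hYf hW).diff x)
      ((smooth_smul hf (smooth_lie hY hW)).diff x),
      lie_smul_right (mdiff_of_cont hYf x) (hW.diff x),
      lie_smul_right (mdiff_of_cont hf x) ((smooth_lie hY hW).diff x)]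
  have a2 : lie Y (lie X (f • W)) x = dv Y (dv X f) x • W x + dv X f x • lie Y W x
      + (dv Y f x • lie X W x + f x • lie Y (lie X W) x) := by
    rw [e2, lie_add_right ((smooth_smul hXf hW).diff x)
      ((smooth_smul hf (smooth_lie hX hW)).diff x),
      lie_smul_right (mdiff_of_cont hXf x) (hW.diff x),
      lie_smul_right (mdiff_of_cont hf x) ((smooth_lie hX hW).diff x)]
  have a3 : lie (lie X Y) (f • W) x = dv (lie X Y) f x • W x + f x • lie (lie X Y) W x :=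
    lie_smul_right (mdiff_of_cont hf x) (hW.diff x)
  have j1 := lie_jacobi hX hY (smooth_smul hf hW) x
  have j2 := lie_jacobi hX hY hW x
  rw [a1, a2, a3, j2] at j1
  have j3 := sub_eq_zero.2 j1
  rw [← neg_eq_zero, ← j3]
  module

lemma comm_dv_real {m : ℕ} (F : Frame E M m) {X Y : VF E M} (hX : SmoothVF X) (hY : SmoothVF Y)
    {f : M → ℝ} (hf : ContMDiff 𝓘(ℝ, E) 𝓘(ℝ, ℝ) ∞ f) (x : M) :
    dv (lie X Y) f x = dv X (dv Y f) x - dv Y (dv X f) x := by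
  rcases Nat.eq_zero_or_pos m with hm | hm
  · subst hm
    have hz : ∀ V : VF E M, V = 0 := by
      intro V; funext y
      rw [F.eq_sum V y]; simp
    have : ∀ (V : VF E M) (g : M → ℝ), dv V g x = 0 := by
      intro V g; rw [hz V]; simp [dv]
    rw [this, this, this, sub_zero]
  · have h := comm_smul hX hY (F.smooth_Z ⟨0, hm⟩) hf x
    rcases smul_eq_zero.1 h with h | h
    · exact sub_eq_zero.1 h
    · exfalso
      have h1 := F.co_Z x ⟨0, hm⟩
      rw [h, map_zero] at h1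
      have := congrFun h1 ⟨0, hm⟩
      simp at this

lemma comm_dv {m n : ℕ} (F : Frame E M m) {X Y : VF E M} (hX : SmoothVF X) (hY : SmoothVF Y)
    {u : M → Fin n → ℝ} (hu : ContMDiff 𝓘(ℝ, E) 𝓘(ℝ, Fin n → ℝ) ∞ u) (x : M) :
    dv (lie X Y) u x = dv X (dv Y u) x - dv Y (dv X u) x := by
  ext i
  set P : (Fin n → ℝ) →L[ℝ] ℝ := ContinuousLinearMap.proj i with hP
  have hPu : ContMDiff 𝓘(ℝ, E) 𝓘(ℝ, ℝ) ∞ fun y => P (u y) := P.contDiff.contMDiff.comp hu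
  have h1 : ∀ (V : VF E M) (w : M → Fin n → ℝ), ContMDiff 𝓘(ℝ, E) 𝓘(ℝ, Fin n → ℝ) ∞ w →
      ∀ y, dv V (fun y => P (w y)) y = P (dv V w y) := fun V w hw y =>
    dv_clm V (mdiff_of_cont hw y) P
  have h2 := comm_dv_real F hX hY hPu x
  rw [h1 _ _ hu, funext (h1 Y u hu), funext (h1 X u hu), h1 _ _ (contMDiff_dv hY hu),
    h1 _ _ (contMDiff_dv hX hu)] at h2
  exact h2

end Run7.h533
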