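import Mathlib
import Pool.Agent.Run7.h533.Calc2
import Pool.Agent.Run7.h533.Apri

/-!
# Invariant structures in a global frame with constant structure functions
-/

set_option autoImplicit false

namespace Run7.h533

open scoped Manifold ContDiff Bundle
open Set

variable {E : Type*} [NormedAddCommGroup E] [NormedSpace ℝ E] [FiniteDimensional ℝ E]
  {M : Type*} [TopologicalSpace M] [ChartedSpace E M] [IsManifold 𝓘(ℝ, E) ∞ M]
  {S : ComplexStr E M} {m : ℕ}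

/-- the frame `F` has constant structure functions, given by the algebra `D` -/
structure InvData (S : ComplexStr E M) (F : Frame E M m) (D : CxLie (Vm m)) : Prop where
  struct : ∀ (X Y : VF E M) (x : M), SmoothVF X → SmoothVF Y →
    F.cv (lie X Y) x = dv X (F.cv Y) x - dv Y (F.cv X) x + D.br (F.cv X x) (F.cv Y x)
  J : ∀ (x : M) (u : TangentSpace 𝓘(ℝ, E) x), F.co x (S.J x u) = D.J (F.co x u)

/-- a linear map between finite dimensional spaces, as a continuous linear map -/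
noncomputable abbrev clm {W₁ W₂ : Type*} [NormedAddCommGroup W₁] [NormedSpace ℝ W₁]
    [FiniteDimensional ℝ W₁] [NormedAddCommGroup W₂] [NormedSpace ℝ W₂] (L : W₁ →ₗ[ℝ] W₂) :
    W₁ →L[ℝ] W₂ := LinearMap.toContinuousLinearMap L

/-- a bilinear map as a continuous bilinear map -/
noncomputable def clm₂ {W : Type*} [NormedAddCommGroup W] [NormedSpace ℝ W]
    (B : Vm m →ₗ[ℝ] Vm m →ₗ[ℝ] W) : Vm m →L[ℝ] Vm m →L[ℝ] W :=
  LinearMap.toContinuousLinearMap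
    ((LinearMap.toContinuousLinearMap : (Vm m →ₗ[ℝ] W) ≃ₗ[ℝ] (Vm m →L[ℝ] W)).toLinearMap ∘ₗ B)

@[simp] lemma clm₂_apply {W : Type*} [NormedAddCommGroup W] [NormedSpace ℝ W]
    (B : Vm m →ₗ[ℝ] Vm m →ₗ[ℝ] W) (x y : Vm m) : clm₂ B x y = B x y := rfl

/-- a trilinear map as a continuous trilinear map -/
noncomputable def clm₃ (B : Vm m →ₗ[ℝ] Vm m →ₗ[ℝ] Vm m →ₗ[ℝ] ℝ) :
    Vm m →L[ℝ] Vm m →L[ℝ] Vm m →L[ℝ] ℝ :=
  LinearMap.toContinuousLinearMap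
    { toFun := fun x => clm₂ (B x)
      map_add' := by intro x y; ext u v; simp
      map_smul' := by intro r x; ext u v; simp }

@[simp] lemma clm₃_apply (B : Vm m →ₗ[ℝ] Vm m →ₗ[ℝ] Vm m →ₗ[ℝ] ℝ) (x y z : Vm m) :
    clm₃ B x y z = B x y z := rfl

omit [FiniteDimensional ℝ E] [IsManifold 𝓘(ℝ, E) ∞ M] in
lemma mdiff_bilin {W₁ W₂ W₃ : Type*} [NormedAddCommGroup W₁] [NormedSpace ℝ W₁]
    [NormedAddCommGroup W₂] [NormedSpace ℝ W₂] [NormedAddCommGroup W₃] [NormedSpace ℝ W₃]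
    {u : M → W₁} {w : M → W₂} (hu : ContMDiff 𝓘(ℝ, E) 𝓘(ℝ, W₁) ∞ u)
    (hw : ContMDiff 𝓘(ℝ, E) 𝓘(ℝ, W₂) ∞ w) (B : W₁ →L[ℝ] W₂ →L[ℝ] W₃) :
    ContMDiff 𝓘(ℝ, E) 𝓘(ℝ, W₃) ∞ fun y => B (u y) (w y) :=
  (B.contDiff.contMDiff.comp hu).clm_apply hw

lemma dv_trilin (X : VF E M) {u v w : M → Vm m} (hu : ContMDiff 𝓘(ℝ, E) 𝓘(ℝ, Vm m) ∞ u)
    (hv : ContMDiff 𝓘(ℝ, E) 𝓘(ℝ, Vm m) ∞ v) (hw : ContMDiff 𝓘(ℝ, E) 𝓘(ℝ, Vm m) ∞ w)
    (B : Vm m →ₗ[ℝ] Vm m →ₗ[ℝ] Vm m →ₗ[ℝ] ℝ) (x : M) :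
    dv X (fun y => B (u y) (v y) (w y)) x = B (dv X u x) (v x) (w x) + B (u x) (dv X v x) (w x)
      + B (u x) (v x) (dv X w x) := by
  have h1 := dv_bilin X (mdiff_of_cont hu x) (mdiff_of_cont hv x) (clm₃ B)
  have h2 := mdiff_bilin hu hv (clm₃ B)
  have h3 := dv_bilin X (mdiff_of_cont h2 x) (mdiff_of_cont hw x)
    (ContinuousLinearMap.id ℝ (Vm m →L[ℝ] ℝ))
  simp only [ContinuousLinearMap.id_apply] at h3
  rw [h1] at h3
  exact h3

namespace InvData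

variable {F : Frame E M m} {D : CxLie (Vm m)} (h : InvData S F D)
include h

lemma cv_J (X : VF E M) : F.cv (fun y => S.J y (X y)) = fun y => D.J (F.cv X y) := by
  funext y; exact h.J y (X y)

/-- exterior derivative of an invariant two-form -/
lemma dTwo_inv (β : Vm m →ₗ[ℝ] Vm m →ₗ[ℝ] ℝ) (halt : ∀ x y, β x y = -β y x)
    {X Y Z : VF E M} (hX : SmoothVF X) (hY : SmoothVF Y) (hZ : SmoothVF Z) (x : M) :
    dTwo (fun X Y x => β (F.cv X x) (F.cv Y x)) X Y Z x =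
      -β (D.br (F.cv X x) (F.cv Y x)) (F.cv Z x) + β (D.br (F.cv X x) (F.cv Z x)) (F.cv Y x)
        - β (D.br (F.cv Y x) (F.cv Z x)) (F.cv X x) := by
  have hd : ∀ {A B C : VF E M}, SmoothVF A → SmoothVF B → SmoothVF C →
      dd A (fun x => β (F.cv B x) (F.cv C x)) x =
        β (dv A (F.cv B) x) (F.cv C x) + β (F.cv B x) (dv A (F.cv C) x) := by
    intro A B C hA hB hC
    exact dv_bilin A (mdiff_of_cont (F.smooth_cv hB) x) (mdiff_of_cont (F.smooth_cv hC) x) (clm₂ β)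
  simp only [dTwo]
  rw [hd hX hY hZ, hd hY hX hZ, hd hZ hX hY, h.struct X Y x hX hY, h.struct X Z x hX hZ,
    h.struct Y Z x hY hZ]
  simp only [map_add, map_sub, LinearMap.add_apply, LinearMap.sub_apply]
  rw [halt (dv X (F.cv Z) x) (F.cv Y x), halt (dv Y (F.cv Z) x) (F.cv X x),
    halt (dv Z (F.cv Y) x) (F.cv X x)]
  ring

/-- exterior derivative of an invariant three-form -/
lemma dThree_inv (γ : Vm m →ₗ[ℝ] Vm m →ₗ[ℝ] Vm m →ₗ[ℝ] ℝ) (h12 : ∀ x y z, γ x y z = -γ y x z)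
    (h23 : ∀ x y z, γ x y z = -γ x z y)
    {X Y Z W : VF E M} (hX : SmoothVF X) (hY : SmoothVF Y) (hZ : SmoothVF Z) (hW : SmoothVF W)
    (x : M) :
    dThree (fun X Y Z x => γ (F.cv X x) (F.cv Y x) (F.cv Z x)) X Y Z W x =
      -γ (D.br (F.cv X x) (F.cv Y x)) (F.cv Z x) (F.cv W x)
      + γ (D.br (F.cv X x) (F.cv Z x)) (F.cv Y x) (F.cv W x)
      - γ (D.br (F.cv X x) (F.cv W x)) (F.cv Y x) (F.cv Z x)
      - γ (D.br (F.cv Y x) (F.cv Z x)) (F.cv X x) (F.cv W x)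
      + γ (D.br (F.cv Y x) (F.cv W x)) (F.cv X x) (F.cv Z x)
      - γ (D.br (F.cv Z x) (F.cv W x)) (F.cv X x) (F.cv Y x) := by
  have hd : ∀ {A B C G : VF E M}, SmoothVF A → SmoothVF B → SmoothVF C → SmoothVF G →
      dd A (fun x => γ (F.cv B x) (F.cv C x) (F.cv G x)) x =
        γ (dv A (F.cv B) x) (F.cv C x) (F.cv G x) + γ (F.cv B x) (dv A (F.cv C) x) (F.cv G x)
        + γ (F.cv B x) (F.cv C x) (dv A (F.cv G) x) := by
    intro A B C G hA hB hC hG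
    exact dv_trilin A (F.smooth_cv hB) (F.smooth_cv hC) (F.smooth_cv hG) γ x
  simp only [dThree]
  rw [hd hX hY hZ hW, hd hY hX hZ hW, hd hZ hX hY hW, hd hW hX hY hZ, h.struct X Y x hX hY,
    h.struct X Z x hX hZ, h.struct X W x hX hW, h.struct Y Z x hY hZ, h.struct Y W x hY hW,
    h.struct Z W x hZ hW]
  simp only [map_add, map_sub, LinearMap.add_apply, LinearMap.sub_apply]
  rw [h12 (dv X (F.cv Z) x) (F.cv Y x), h12 (dv Y (F.cv Z) x) (F.cv X x),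
    h12 (dv Z (F.cv Y) x) (F.cv X x), h23 _ (F.cv Z x) (dv X (F.cv W) x),
    h12 (F.cv Y x) (dv X (F.cv W) x), h23 _ (F.cv Z x) (dv Y (F.cv W) x),
    h12 (F.cv X x) (dv Y (F.cv W) x), h23 _ (F.cv Y x) (dv Z (F.cv W) x),
    h12 (F.cv X x) (dv Z (F.cv W) x), h23 _ (F.cv Y x) (dv W (F.cv Z) x),
    h12 (F.cv X x) (dv W (F.cv Z) x), h12 (F.cv X x) (dv W (F.cv Y) x)]
  ring

end InvData

end Run7.h533
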