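import Mathlib
import Pool.Agent.Run7.h533.Inv
import Pool.Agent.Run7.h533.Bis

/-!
# Invariant metrics, their Bismut connections and Ricci forms
-/

set_option autoImplicit false

namespace Run7.h533

open scoped Manifold ContDiff Bundle
open Set

variable {E : Type*} [NormedAddCommGroup E] [NormedSpace ℝ E] [FiniteDimensional ℝ E]
  {M : Type*} [TopologicalSpace M] [ChartedSpace E M] [IsManifold 𝓘(ℝ, E) ∞ M]
  {S : ComplexStr E M} {m : ℕ}

namespace Frame

variable (F : Frame E M m)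

/-- an invariant one-form -/
noncomputable def one (κ : Vm m →ₗ[ℝ] ℝ) (x : M) : TangentSpace 𝓘(ℝ, E) x →L[ℝ] ℝ :=
  (clm κ).comp (F.co x : TangentSpace 𝓘(ℝ, E) x →L[ℝ] Vm m)

lemma one_apply (κ : Vm m →ₗ[ℝ] ℝ) (x : M) (u : TangentSpace 𝓘(ℝ, E) x) :
    F.one κ x u = κ (F.co x u) := rfl

/-- pull back of one-forms by the coordinates, as a continuous linear map -/
noncomputable def pull (x : M) : (Vm m →L[ℝ] ℝ) →L[ℝ] (TangentSpace 𝓘(ℝ, E) x →L[ℝ] ℝ) :=
  LinearMap.toContinuousLinearMap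
    { toFun := fun w => w.comp (F.co x : TangentSpace 𝓘(ℝ, E) x →L[ℝ] Vm m)
      map_add' := by intro a b; rfl
      map_smul' := by intro a b; rfl }

/-- an invariant bilinear form -/
noncomputable def two (b : Vm m →ₗ[ℝ] Vm m →ₗ[ℝ] ℝ) : Form2 E M := fun x =>
  ((F.pull x).comp (clm₂ b)).comp (F.co x : TangentSpace 𝓘(ℝ, E) x →L[ℝ] Vm m)

lemma two_apply (b : Vm m →ₗ[ℝ] Vm m →ₗ[ℝ] ℝ) (x : M) (u v : TangentSpace 𝓘(ℝ, E) x) :
    F.two b x u v = b (F.co x u) (F.co x v) := rfl

end Frame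

namespace InvData

variable {F : Frame E M m} {D : CxLie (Vm m)} (h : InvData S F D)

/-- the invariant metric with matrix `a` -/
noncomputable def met (h : InvData S F D) {a : Wm m} (ha : Good D a) : HermMetric S where
  g := F.two (gf a)
  symm x u v := by rw [F.two_apply, F.two_apply]; exact gf_symm ha.sym _ _
  pos x u hu := by
    rw [F.two_apply]
    exact ha.pos _ (fun h0 => hu ((F.co x).map_eq_zero_iff.1 h0))
  inv x u v := by
    rw [F.two_apply, F.two_apply, h.J, h.J]; exact ha.inv _ _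
  smooth X Y hX hY := by
    exact mdiff_bilin (F.smooth_cv hX) (F.smooth_cv hY) (clm₂ (gf a))

lemma met_g {a : Wm m} (ha : Good D a) (x : M) (u v : TangentSpace 𝓘(ℝ, E) x) :
    (h.met ha).g x u v = gf a (F.co x u) (F.co x v) := rfl

/-- trilinear version of the torsion form -/
noncomputable def H3 (D : CxLie (Vm m)) (b : Vm m →ₗ[ℝ] Vm m →ₗ[ℝ] ℝ) :
    Vm m →ₗ[ℝ] Vm m →ₗ[ℝ] Vm m →ₗ[ℝ] ℝ :=
  LinearMap.mk₂ ℝ (fun x y =>
    { toFun := fun z => D.H b x y z
      map_add' := fun z z' => H_add₃ D b x y z z'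
      map_smul' := fun r z => H_smul₃ D b r x y z } : Vm m → Vm m → (Vm m →ₗ[ℝ] ℝ))
    (by intro a b' c; refine LinearMap.ext fun z => ?_; exact H_add₁ D b a b' c z)
    (by intro r a c; refine LinearMap.ext fun z => ?_; exact H_smul₁ D b r a c z)
    (by
      intro a b' c; refine LinearMap.ext fun z => ?_
      simp only [LinearMap.coe_mk, AddHom.coe_mk, LinearMap.add_apply]
      rw [H_swap12 D a (b' + c) z, H_swap12 D a b' z, H_swap12 D a c z, H_add₁]; ring)
    (by
      intro r a c; refine LinearMap.ext fun z => ?_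
      simp only [LinearMap.coe_mk, AddHom.coe_mk, LinearMap.smul_apply, smul_eq_mul]
      rw [H_swap12 D a (r • c) z, H_swap12 D a c z, H_smul₁]; ring)

lemma H3_apply (b : Vm m →ₗ[ℝ] Vm m →ₗ[ℝ] ℝ) (x y z : Vm m) : H3 D b x y z = D.H b x y z := rfl

include h

lemma dcom_of {k : HermMetric S} {a : Wm m}
    (hk : ∀ x u v, k.g x u v = gf a (F.co x u) (F.co x v)) (hs : a ∈ Sym m)
    (hi : ∀ x y, gf a (D.J x) (D.J y) = gf a x y) {X Y Z : VF E M} (hX : SmoothVF X)
    (hY : SmoothVF Y) (hZ : SmoothVF Z) (x : M) :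
    k.dcom X Y Z x = D.H (gf a) (F.cv X x) (F.cv Y x) (F.cv Z x) := by
  have hb : k.om = fun X Y x => ((gf a) ∘ₗ D.J) (F.cv X x) (F.cv Y x) := by
    funext X Y x
    show k.g x (S.J x (X x)) (Y x) = _
    rw [hk, h.J]; rfl
  have halt : ∀ x y, ((gf a) ∘ₗ D.J) x y = -((gf a) ∘ₗ D.J) y x := by
    intro x y
    simp only [LinearMap.comp_apply]
    rw [gJ D hi, gf_symm hs]
  simp only [HermMetric.dcom]
  rw [hb, h.dTwo_inv _ halt (S.smooth X hX) (S.smooth Y hY) (S.smooth Z hZ)]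
  simp only [h.cv_J, LinearMap.comp_apply, hi, CxLie.H]
  rw [D.br_swap (D.J (F.cv Z x)) (D.J (F.cv X x))]
  simp only [map_neg, LinearMap.neg_apply]
  ring

lemma ddc_of {k : HermMetric S} {a : Wm m}
    (hk : ∀ x u v, k.g x u v = gf a (F.co x u) (F.co x v)) (hs : a ∈ Sym m)
    (hi : ∀ x y, gf a (D.J x) (D.J y) = gf a x y) {X Y Z W : VF E M} (hX : SmoothVF X)
    (hY : SmoothVF Y) (hZ : SmoothVF Z) (hW : SmoothVF W) (x : M) :
    dThree k.dcom X Y Z W x = D.dH (gf a) (F.cv X x) (F.cv Y x) (F.cv Z x) (F.cv W x) := by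
  have e : ∀ {A B C : VF E M}, SmoothVF A → SmoothVF B → SmoothVF C →
      k.dcom A B C = fun y => H3 D (gf a) (F.cv A y) (F.cv B y) (F.cv C y) := by
    intro A B C hA hB hC
    funext y
    rw [h.dcom_of hk hs hi hA hB hC, H3_apply]
  have h1 : dThree k.dcom X Y Z W x =
      dThree (fun X Y Z x => H3 D (gf a) (F.cv X x) (F.cv Y x) (F.cv Z x)) X Y Z W x := by
    simp only [dThree]
    rw [e hY hZ hW, e hX hZ hW, e hX hY hW, e hX hY hZ, e (smooth_lie hX hY) hZ hW,
      e (smooth_lie hX hZ) hY hW, e (smooth_lie hX hW) hY hZ, e (smooth_lie hY hZ) hX hW,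
      e (smooth_lie hY hW) hX hZ, e (smooth_lie hZ hW) hX hY]
  rw [h1, h.dThree_inv _ (fun x y z => H_swap12 D x y z) (fun x y z => H_swap23 D x y z)
    hX hY hZ hW]
  simp only [H3_apply, CxLie.dH]

lemma pluriclosed {a : Wm m} (ha : Good D a) : (h.met ha).Pluriclosed := by
  intro X Y Z W hX hY hZ hW x
  rw [h.ddc_of (h.met_g ha) ha.sym ha.inv hX hY hZ hW]
  exact ha.skt _ _ _ _

end InvData

namespace Frame

variable (F : Frame E M m)

/-- the connection with constant coefficients `G` in the frame -/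
noncomputable def conn (G : Vm m →ₗ[ℝ] Vm m →ₗ[ℝ] Vm m) : Conn E M where
  toFun Y x := ((F.co x).symm : Vm m →L[ℝ] TangentSpace 𝓘(ℝ, E) x).comp
    (mvfderiv 𝓘(ℝ, E) (F.cv Y) x +
      (clm (G.flip (F.cv Y x))).comp (F.co x : TangentSpace 𝓘(ℝ, E) x →L[ℝ] Vm m))
  isCovariantDerivativeOnUniv :=
    { add := by
        intro σ σ' x hσ hσ' _
        rw [F.cv_add, mvfderiv_fun_add (F.cv_mdiff hσ) (F.cv_mdiff hσ')]
        ext1 u
        simp only [ContinuousLinearMap.comp_apply, add_apply,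
          ContinuousLinearEquiv.coe_coe, map_add, LinearMap.coe_toContinuousLinearMap',
          LinearMap.flip_apply]
        abel
      leibniz := by
        intro σ f x hσ hf _
        rw [F.cv_smul, mvfderiv_fun_smul hf (F.cv_mdiff hσ)]
        ext1 u
        simp only [ContinuousLinearMap.comp_apply, add_apply, smul_apply,
          ContinuousLinearEquiv.coe_coe, map_add, map_smul, LinearMap.coe_toContinuousLinearMap',
          LinearMap.flip_apply, ContinuousLinearMap.smulRight_apply]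
        simp only [cv, ContinuousLinearEquiv.symm_apply_apply, smul_add]
        abel }

lemma cv_nab (G : Vm m →ₗ[ℝ] Vm m →ₗ[ℝ] Vm m) (X Y : VF E M) (x : M) :
    F.cv (nab (F.conn G) X Y) x = dv X (F.cv Y) x + G (F.cv X x) (F.cv Y x) := by
  show F.co x ((F.co x).symm _) = _
  rw [ContinuousLinearEquiv.apply_symm_apply]
  rfl

lemma smooth_nab (G : Vm m →ₗ[ℝ] Vm m →ₗ[ℝ] Vm m) {X Y : VF E M} (hX : SmoothVF X)
    (hY : SmoothVF Y) : SmoothVF (nab (F.conn G) X Y) := by
  apply F.smooth_of_cv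
  have : F.cv (nab (F.conn G) X Y) = fun x => dv X (F.cv Y) x + G (F.cv X x) (F.cv Y x) := by
    funext x; exact F.cv_nab G X Y x
  rw [this]
  exact (contMDiff_dv hX (F.smooth_cv hY)).add
    (mdiff_bilin (F.smooth_cv hX) (F.smooth_cv hY) (clm₂ G))

end Frame

namespace InvData

variable {F : Frame E M m} {D : CxLie (Vm m)} (h : InvData S F D)
include h

lemma cv_curv (G : Vm m →ₗ[ℝ] Vm m →ₗ[ℝ] Vm m) {X Y Z : VF E M} (hX : SmoothVF X)
    (hY : SmoothVF Y) (hZ : SmoothVF Z) (x : M) :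
    F.cv (curv (F.conn G) X Y Z) x = Acurv D G (F.cv X x) (F.cv Y x) (F.cv Z x) := by
  have e0 : F.cv (curv (F.conn G) X Y Z) x = F.cv (nab (F.conn G) X (nab (F.conn G) Y Z)) x
      - F.cv (nab (F.conn G) Y (nab (F.conn G) X Z)) x
      - F.cv (nab (F.conn G) (lie X Y) Z) x := by
    simp only [Frame.cv, curv, map_sub]
  have key : ∀ {A B : VF E M}, SmoothVF A → SmoothVF B →
      F.cv (nab (F.conn G) A (nab (F.conn G) B Z)) x = dv A (dv B (F.cv Z)) x
        + (G (dv A (F.cv B) x) (F.cv Z x) + G (F.cv B x) (dv A (F.cv Z) x))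
        + G (F.cv A x) (dv B (F.cv Z) x + G (F.cv B x) (F.cv Z x)) := by
    intro A B hA hB
    rw [F.cv_nab, F.cv_nab]
    have e1 : F.cv (nab (F.conn G) B Z) = fun x => dv B (F.cv Z) x + clm₂ G (F.cv B x) (F.cv Z x) := by
      funext x; exact F.cv_nab G B Z x
    rw [e1, dv_add _ (mdiff_of_cont (contMDiff_dv hB (F.smooth_cv hZ)) x)
      (mdiff_of_cont (mdiff_bilin (F.smooth_cv hB) (F.smooth_cv hZ) (clm₂ G)) x),
      dv_bilin _ (mdiff_of_cont (F.smooth_cv hB) x) (mdiff_of_cont (F.smooth_cv hZ) x)]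
    rfl
  rw [e0, key hX hY, key hY hX, F.cv_nab, comm_dv F hX hY (F.smooth_cv hZ), h.struct X Y x hX hY]
  simp only [Acurv, LinearMap.sub_apply, LinearMap.comp_apply, map_add, map_sub,
    LinearMap.add_apply]
  abel

lemma isBismut {a : Wm m} (ha : Good D a) {e : Module.Basis (Fin m) ℝ (Vm m)}
    (he : IsONB (gf a) e) : IsBismut (h.met ha) (F.conn (Gam D (gf a) e)) where
  smooth X Y hX hY := F.smooth_nab _ hX hY
  metric X Y Z hX hY hZ x := by
    have h1 : dd X (fun y => (h.met ha).g y (Y y) (Z y)) x =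
        gf a (dv X (F.cv Y) x) (F.cv Z x) + gf a (F.cv Y x) (dv X (F.cv Z) x) :=
      dv_bilin X (mdiff_of_cont (F.smooth_cv hY) x) (mdiff_of_cont (F.smooth_cv hZ) x) (clm₂ (gf a))
    rw [h1, h.met_g, h.met_g]
    change _ = gf a (F.cv (nab (F.conn (Gam D (gf a) e)) X Y) x) (F.cv Z x)
      + gf a (F.cv Y x) (F.cv (nab (F.conn (Gam D (gf a) e)) X Z) x)
    rw [F.cv_nab, F.cv_nab]
    have h2 := Gam_metric D (gf_symm ha.sym) he (F.cv X x) (F.cv Y x) (F.cv Z x)
    simp only [map_add, LinearMap.add_apply]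
    linarith
  complex X Y hX hY x := by
    apply (F.co x).injective
    rw [h.J]
    change F.cv (nab (F.conn (Gam D (gf a) e)) X fun y => S.J y (Y y)) x =
      D.J (F.cv (nab (F.conn (Gam D (gf a) e)) X Y) x)
    rw [F.cv_nab, F.cv_nab, h.cv_J]
    have h1 : dv X (fun y => D.J (F.cv Y y)) x = D.J (dv X (F.cv Y) x) :=
      dv_clm X (mdiff_of_cont (F.smooth_cv hY) x) (clm D.J)
    rw [h1, Gam_J D (gf_symm ha.sym) ha.inv he, map_add]
  skew X Y Z hX hY hZ x := by
    have h1 : ∀ {A B C : VF E M}, SmoothVF A → SmoothVF B →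
        (h.met ha).g x (tors (F.conn (Gam D (gf a) e)) A B x) (C x) =
          D.H (gf a) (F.cv A x) (F.cv B x) (F.cv C x) := by
      intro A B C hA hB
      rw [h.met_g, ← Gam_tors D he]
      have h2 : F.co x (tors (F.conn (Gam D (gf a) e)) A B x) =
          Gam D (gf a) e (F.cv A x) (F.cv B x) - Gam D (gf a) e (F.cv B x) (F.cv A x)
            - D.br (F.cv A x) (F.cv B x) := by
        have e1 : F.co x (tors (F.conn (Gam D (gf a) e)) A B x) =
            F.cv (nab (F.conn (Gam D (gf a) e)) A B) x - F.cv (nab (F.conn (Gam D (gf a) e)) B A) x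
              - F.cv (lie A B) x := by
          simp only [Frame.cv, tors, map_sub]
        rw [e1, F.cv_nab, F.cv_nab, h.struct A B x hA hB]
        abel
      rw [h2]; rfl
    rw [h1 hX hY, h1 hX hZ, H_swap23]

/-- the Ricci form of an invariant metric is `-κ([·,·])` -/
lemma isRicciForm {a : Wm m} (ha : Good D a) {e : Module.Basis (Fin m) ℝ (Vm m)}
    (he : IsONB (gf a) e) :
    IsRicciForm S (F.conn (Gam D (gf a) e)) (F.two (-D.br.compr₂ (kap D a))) := by
  intro X Y hX hY x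
  set G := Gam D (gf a) e with hG
  set A := Acurv D G (F.cv X x) (F.cv Y x) with hA
  refine ⟨(F.co x).symm.toLinearEquiv.conj A, fun Z hZ => ?_, ?_⟩
  · rw [LinearEquiv.conj_apply]
    apply (F.co x).injective
    change F.co x ((F.co x).symm (A (F.co x (Z x)))) = F.cv (curv (F.conn G) X Y Z) x
    rw [h.cv_curv G hX hY hZ, ContinuousLinearEquiv.apply_symm_apply]
    rfl
  · have h1 : (F.co x).symm.toLinearEquiv.conj A ∘ₗ (S.J x).toLinearMap =
        (F.co x).symm.toLinearEquiv.conj (A ∘ₗ D.J) := by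
      apply LinearMap.ext
      intro u
      simp only [LinearMap.comp_apply, LinearEquiv.conj_apply]
      change (F.co x).symm (A (F.co x (S.J x u))) = (F.co x).symm (A (D.J (F.co x u)))
      rw [h.J]
    rw [h1, LinearMap.trace_conj', hA,
      Acurv_trace D G (Gam_J D (gf_symm ha.sym) ha.inv he),
      Gam_trace D (gf_symm ha.sym) ha.inv he, F.two_apply]
    simp only [LinearMap.neg_apply, LinearMap.compr₂_apply, kap, LinearMap.smul_apply,
      LinearMap.add_apply, smul_eq_mul, trJad_apply, va_eq D he]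
    simp only [Frame.cv]
    change -(1 / 2 * (_ + _)) = _
    ring

end InvData

end Run7.h533
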