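import Mathlib
import Pool.Agent.Run7.h533.Met

/-!
# The pluriclosed flow with constant coefficients in a global frame
-/

set_option autoImplicit false

namespace Run7.h533

open scoped Manifold ContDiff Bundle ENNReal
open Set

variable {E : Type*} [NormedAddCommGroup E] [NormedSpace ℝ E] [FiniteDimensional ℝ E]
  {M : Type*} [TopologicalSpace M] [ChartedSpace E M] [IsManifold 𝓘(ℝ, E) ∞ M]
  {S : ComplexStr E M} {m : ℕ}

omit [FiniteDimensional ℝ E] in
lemma HermMetric.ext_g {k k' : HermMetric S} (h : ∀ x u v, k.g x u v = k'.g x u v) : k = k' := by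
  cases k; cases k'
  congr
  funext x
  ext u v
  exact h x u v

namespace Frame

variable (F : Frame E M m)

/-- the field with constant coefficients -/
noncomputable def cf (v : Vm m) : VF E M := fun x => (F.co x).symm v

@[simp] lemma cv_cf (v : Vm m) : F.cv (F.cf v) = fun _ => v := by
  funext x; exact (F.co x).apply_symm_apply v

lemma smooth_cf (v : Vm m) : SmoothVF (F.cf v) := by
  apply F.smooth_of_cv
  rw [cv_cf]
  exact contMDiff_const

lemma ext_cv {X Y : VF E M} (h : ∀ x, F.cv X x = F.cv Y x) : X = Y := by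
  funext x; exact (F.co x).injective (h x)

end Frame

/-- linear map with constant coefficients -/
noncomputable def Jc (j : Fin m → Fin m → ℝ) : Vm m →ₗ[ℝ] Vm m where
  toFun v := ∑ i, v i • j i
  map_add' := by intro x y; simp [add_smul, Finset.sum_add_distrib]
  map_smul' := by intro r x; simp [mul_smul, Finset.smul_sum]

lemma Jc_apply (j : Fin m → Fin m → ℝ) (v : Vm m) : Jc j v = ∑ i, v i • j i := rfl

section build

variable (F : Frame E M m) {c : Fin m → Fin m → Fin m → ℝ}
  (hc : ∀ i j x, lie (F.Z i) (F.Z j) x = ∑ k, c i j k • F.Z k x)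
  {j : Fin m → Fin m → ℝ} (hj : ∀ i x, S.J x (F.Z i x) = ∑ k, j i k • F.Z k x)

include hj in
lemma co_J (x : M) (u : TangentSpace 𝓘(ℝ, E) x) : F.co x (S.J x u) = Jc j (F.co x u) := by
  have h1 : u = ∑ i, F.co x u i • F.Z i x := by
    rw [← F.co_symm_apply, ContinuousLinearEquiv.symm_apply_apply]
  conv_lhs => rw [h1]
  simp only [map_sum, map_smul, hj, Jc_apply]
  refine Finset.sum_congr rfl fun i _ => ?_
  congr 1
  simp only [F.co_Z]
  ext k
  simp [Finset.sum_apply, Pi.single_apply]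

lemma cv_lie_cf (u v : Vm m) (hc : ∀ i j x, lie (F.Z i) (F.Z j) x = ∑ k, c i j k • F.Z k x) :
    lie (F.cf u) (F.cf v) = F.cf (brc c u v) := by
  apply F.ext_cv
  intro x
  rw [F.struct_eq hc ((F.smooth_cf u).diff x) ((F.smooth_cf v).diff x)]
  simp [dv_const]

include hj in
lemma J_cf (u : Vm m) : (fun y => S.J y (F.cf u y)) = F.cf (Jc j u) := by
  apply F.ext_cv
  intro x
  rw [F.cv_cf]
  change F.co x (S.J x ((F.co x).symm u)) = _
  rw [co_J F hj, ContinuousLinearEquiv.apply_symm_apply]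

lemma cf_add (u v : Vm m) (x : M) : F.cf (u + v) x = F.cf u x + F.cf v x := by simp [Frame.cf]

variable [Nonempty M]

lemma cf_inj {u v : Vm m} (h : ∀ x, F.cf u x = F.cf v x) : u = v :=
  (F.co (Classical.arbitrary M)).symm.injective (h (Classical.arbitrary M))

/-- the Lie algebra with complex structure of a frame with constant structure functions -/
noncomputable def mkD (F : Frame E M m) {c : Fin m → Fin m → Fin m → ℝ}
    (hc : ∀ i j x, lie (F.Z i) (F.Z j) x = ∑ k, c i j k • F.Z k x)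
    {j : Fin m → Fin m → ℝ} (hj : ∀ i x, S.J x (F.Z i x) = ∑ k, j i k • F.Z k x) :
    CxLie (Vm m) where
  br := brc c
  J := Jc j
  br_self x := by
    apply cf_inj F
    intro y
    rw [← cv_lie_cf F x x hc]
    have := lie_swap (F.cf x) (F.cf x) y
    have h2 : lie (F.cf x) (F.cf x) y = 0 := by
      have h3 : (2 : ℝ) • lie (F.cf x) (F.cf x) y = 0 := by
        rw [two_smul]; nth_rewrite 1 [this]; simp
      exact (smul_eq_zero.1 h3).resolve_left two_ne_zero
    rw [h2]; simp [Frame.cf]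
  jacobi x y z := by
    apply cf_inj F
    intro p
    have h1 := lie_jacobi (F.smooth_cf x) (F.smooth_cf y) (F.smooth_cf z) p
    rw [cf_add, cf_add]
    simp only [← cv_lie_cf F _ _ hc]
    rw [h1, lie_swap (F.cf z) (lie (F.cf x) (F.cf y))]
    have h2 : lie (F.cf z) (F.cf x) = F.cf (-(brc c x z)) := by
      have h3 : F.cf (-(brc c x z)) = fun q => -F.cf (brc c x z) q := by
        funext q; simp [Frame.cf]
      rw [h3, ← cv_lie_cf F _ _ hc]
      funext q
      exact lie_swap _ _ _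
    have h4 : lie (F.cf y) (F.cf (-(brc c x z))) p = -lie (F.cf y) (lie (F.cf x) (F.cf z)) p := by
      rw [cv_lie_cf F _ _ hc, cv_lie_cf F x z hc, cv_lie_cf F _ _ hc]
      simp [Frame.cf]
    rw [h2, h4]
    simp [Frame.cf]
  J_sq x := by
    apply cf_inj F
    intro p
    rw [← J_cf F hj, ← J_cf F hj]
    refine (S.J_sq p _).trans ?_
    simp [Frame.cf]
  nij x y := by
    apply cf_inj F
    intro p
    have h1 := S.integrable (F.cf x) (F.cf y) (F.smooth_cf x) (F.smooth_cf y) p
    rw [J_cf F hj, J_cf F hj, cv_lie_cf F _ _ hc, cv_lie_cf F _ _ hc, cv_lie_cf F _ _ hc,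
      cv_lie_cf F _ _ hc] at h1
    have h2 : ∀ u, S.J p (F.cf u p) = F.cf (Jc j u) p := fun u => congrFun (J_cf F hj u) p
    rw [h2, h2] at h1
    have h3 : F.cf (0 : Vm m) p = 0 := by simp [Frame.cf]
    rw [h3, ← h1]
    simp [Frame.cf]

lemma mkD_inv (hc : ∀ i j x, lie (F.Z i) (F.Z j) x = ∑ k, c i j k • F.Z k x)
    (hj : ∀ i x, S.J x (F.Z i x) = ∑ k, j i k • F.Z k x) : InvData S F (mkD F hc hj) where
  struct _ _ x hX hY := F.struct_eq hc (hX.diff x) (hY.diff x)
  J x u := co_J F hj x u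

end build

/-- the matrix of a metric with constant coefficients is good -/
lemma good_of {F : Frame E M m} {D : CxLie (Vm m)} [Nonempty M] (h : InvData S F D)
    {k : HermMetric S} {a : Wm m} (hk : ∀ x u v, k.g x u v = gf a (F.co x u) (F.co x v))
    (hp : k.Pluriclosed) : Good D a := by
  let p : M := Classical.arbitrary M
  have hk' : ∀ u v, gf a u v = k.g p ((F.co p).symm u) ((F.co p).symm v) := by
    intro u v
    rw [hk, ContinuousLinearEquiv.apply_symm_apply, ContinuousLinearEquiv.apply_symm_apply]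
  have hs : a ∈ Sym m := by
    intro i j
    have := k.symm p ((F.co p).symm (ei i)) ((F.co p).symm (ei j))
    rw [← hk', ← hk', gf_ei, gf_ei] at this
    exact this
  have hi : ∀ x y, gf a (D.J x) (D.J y) = gf a x y := by
    intro x y
    have h1 : ∀ u, (F.co p).symm (D.J u) = S.J p ((F.co p).symm u) := by
      intro u
      rw [ContinuousLinearEquiv.symm_apply_eq, h.J, ContinuousLinearEquiv.apply_symm_apply]
    rw [hk', hk', h1, h1, k.inv]
  refine ⟨?_, hs, hi, ?_⟩
  · intro v hv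
    rw [hk']
    exact k.pos _ _ (fun h0 => hv ((F.co p).symm.map_eq_zero_iff.1 h0))
  · intro x y z w
    have h1 := hp _ _ _ _ (F.smooth_cf x) (F.smooth_cf y) (F.smooth_cf z) (F.smooth_cf w) p
    rw [h.ddc_of hk hs hi (F.smooth_cf x) (F.smooth_cf y) (F.smooth_cf z) (F.smooth_cf w)] at h1
    simpa using h1

namespace InvData

variable {F : Frame E M m} {D : CxLie (Vm m)} (h : InvData S F D)
include h

lemma met_eq {k : HermMetric S} {a : Wm m} (ha : Good D a)
    (hk : ∀ x u v, k.g x u v = gf a (F.co x u) (F.co x v)) : h.met ha = k :=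
  HermMetric.ext_g fun x u v => by rw [h.met_g, hk]

lemma part11_eq (κ : Vm m →ₗ[ℝ] ℝ) (x : M) (u v : TangentSpace 𝓘(ℝ, E) x) :
    part11 S (F.two (-D.br.compr₂ κ)) x u v = -D.bf κ (D.J (F.co x u)) (F.co x v) := by
  simp only [part11, F.two_apply, h.J, LinearMap.neg_apply, LinearMap.compr₂_apply,
    CxLie.bf_apply, D.J_sq, map_neg]
  rw [D.br_swap (F.co x v) (F.co x u)]
  simp only [map_neg]
  ring

open Classical in
/-- existence of the flow up to any time -/
theorem exists_flow {k : HermMetric S}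
    {a : Wm m} (ha : Good D a) (hk : ∀ x u v, k.g x u v = gf a (F.co x u) (F.co x v)) {T : ℝ}
    (hT : 0 < T) : ∃ g : ℝ → HermMetric S, g 0 = k ∧ IsPluriclosedFlow T g := by
  obtain ⟨α, h0, hgood, hder, hsm⟩ := long_time (D := D) ha hT.le
  set g : ℝ → HermMetric S := fun t => if ht : t ∈ Icc 0 T then h.met (hgood t ht) else k with hg
  have hin : ∀ t ∈ Icc 0 T, ∀ x u v, (g t).g x u v = gf (α t) (F.co x u) (F.co x v) := by
    intro t ht x u v
    simp only [hg]
    rw [dif_pos ht, h.met_g]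
  refine ⟨g, ?_, ⟨?_, ?_, ?_⟩⟩
  · apply HermMetric.ext_g
    intro x u v
    rw [hin 0 ⟨le_rfl, hT.le⟩, h0, hk]
  · intro t ht
    have ht' : t ∈ Icc 0 T := ⟨ht.1, ht.2.le⟩
    have : g t = h.met (hgood t ht') := by simp only [hg]; rw [dif_pos ht']
    rw [this]
    exact h.pluriclosed _
  · intro X Y hX hY
    have h1 : ContMDiffOn (𝓘(ℝ, ℝ).prod 𝓘(ℝ, E)) 𝓘(ℝ, ℝ) ∞
        (fun p : ℝ × M => ∑ i, ∑ j, F.cv X p.2 i * F.cv Y p.2 j * α p.1 i j)
        (Ico 0 T ×ˢ univ) := by
      have hα : ∀ i j, ContMDiffOn (𝓘(ℝ, ℝ).prod 𝓘(ℝ, E)) 𝓘(ℝ, ℝ) ∞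
          (fun p : ℝ × M => α p.1 i j) (Ico 0 T ×ˢ univ) := by
        intro i j
        have a1 : ContMDiffOn 𝓘(ℝ, ℝ) 𝓘(ℝ, ℝ) ∞ (fun t => α t i j) (Icc 0 T) := by
          have := (contDiffOn_pi.1 (contDiffOn_pi.1 hsm i)) j
          exact this.contMDiffOn
        exact a1.comp contMDiff_fst.contMDiffOn fun p hp => ⟨hp.1.1, hp.1.2.le⟩
      have hcv : ∀ {V : VF E M}, SmoothVF V → ∀ i, ContMDiffOn (𝓘(ℝ, ℝ).prod 𝓘(ℝ, E)) 𝓘(ℝ, ℝ) ∞
          (fun p : ℝ × M => F.cv V p.2 i) (Ico 0 T ×ˢ univ) := by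
        intro V hV i
        have a1 : ContMDiff 𝓘(ℝ, E) 𝓘(ℝ, ℝ) ∞ fun x => F.cv V x i :=
          (ContinuousLinearMap.proj (R := ℝ) (φ := fun _ : Fin m => ℝ) i).contDiff.contMDiff.comp
            (F.smooth_cv hV)
        exact (a1.comp contMDiff_snd).contMDiffOn
      exact contMDiffOn_finsetSum fun i _ => contMDiffOn_finsetSum fun j _ =>
        ((hcv hX i).mul (hcv hY j)).mul (hα i j)
    refine h1.congr fun p hp => ?_
    rw [hin p.1 ⟨hp.1.1, hp.1.2.le⟩, gf_apply]
    rfl
  · intro t ht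
    have ht' : t ∈ Icc 0 T := ⟨ht.1, ht.2.le⟩
    have hgt : g t = h.met (hgood t ht') := by simp only [hg]; rw [dif_pos ht']
    obtain ⟨e, he⟩ := exists_onb (hgood t ht').pos (hgood t ht').sym
    refine ⟨F.conn (Gam D (gf (α t)) e), F.two (-D.br.compr₂ (kap D (α t))), ?_, ?_, ?_⟩
    · rw [hgt]; exact h.isBismut (hgood t ht') he
    · exact h.isRicciForm (hgood t ht') he
    · intro x u v
      have h2 : HasDerivWithinAt (fun s => gf (α s) (D.J (F.co x u)) (F.co x v))
          (D.bf (kap D (α t)) (D.J (F.co x u)) (F.co x v)) (Ico 0 T) t := by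
        have h3 := (hder t ht').mono (Ico_subset_Icc_self : Ico 0 T ⊆ Icc 0 T)
        rw [← gf_Phi]
        simp only [gf_apply]
        exact HasDerivWithinAt.fun_sum fun i _ => HasDerivWithinAt.fun_sum fun j _ =>
          (hasDerivWithinAt_pi.1 (hasDerivWithinAt_pi.1 h3 i) j).const_mul _
      rw [h.part11_eq, neg_neg]
      refine h2.congr (fun s hs => ?_) ?_
      · rw [hin s ⟨hs.1, hs.2.le⟩, h.J]
      · rw [hin t ht', h.J]

lemma inCone {k : HermMetric S}
    {a : Wm m} (ha : Good D a) (hk : ∀ x u v, k.g x u v = gf a (F.co x u) (F.co x v)) (t : ℝ) :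
    InCone k t := by
  obtain ⟨e, he⟩ := exists_onb ha.pos ha.sym
  have hm := h.met_eq ha hk
  refine ⟨F.conn (Gam D (gf a) e), F.two (-D.br.compr₂ (kap D a)), k, F.one (t • kap D a), ?_,
    h.isRicciForm ha he, ?_, ?_, ?_⟩
  · rw [← hm]; exact h.isBismut ha he
  · rw [← hm]; exact h.pluriclosed ha
  · intro X hX
    exact (clm (t • kap D a)).contDiff.contMDiff.comp (F.smooth_cv hX)
  · have key : ∀ {A B : VF E M}, SmoothVF A → SmoothVF B → ∀ x,
        dOne (fun V y => F.one (t • kap D a) y (V y)) A B x =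
          -(t * kap D a (D.br (F.cv A x) (F.cv B x))) := by
      intro A B hA hB x
      have h1 : ∀ {A B : VF E M}, SmoothVF B → dd A (fun y => F.one (t • kap D a) y (B y)) x =
          t * kap D a (dv A (F.cv B) x) := by
        intro A B hB
        exact dv_clm A (mdiff_of_cont (F.smooth_cv hB) x) (clm (t • kap D a))
      simp only [dOne]
      rw [h1 hB, h1 hA]
      change _ - t * kap D a (F.cv (lie A B) x) = _
      rw [h.struct A B x hA hB]
      simp only [map_add, map_sub]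
      ring
    intro X Y hX hY x
    rw [key hX hY, key (S.smooth X hX) (S.smooth Y hY), h.part11_eq]
    simp only [h.cv_J, CxLie.bf_apply, D.J_sq, map_neg]
    rw [D.br_swap (F.co x (Y x)) (F.co x (X x))]
    simp only [map_neg, Frame.cv]
    ring

end InvData

theorem main_aux [Nonempty M] (F : Frame E M m) {c : Fin m → Fin m → Fin m → ℝ}
    (hc : ∀ i j x, lie (F.Z i) (F.Z j) x = ∑ k, c i j k • F.Z k x)
    {j : Fin m → Fin m → ℝ} (hj : ∀ i x, S.J x (F.Z i x) = ∑ k, j i k • F.Z k x)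
    {k : HermMetric S} {a : Fin m → Fin m → ℝ}
    (hk : ∀ i j x, k.g x (F.Z i x) (F.Z j x) = a i j) (hp : k.Pluriclosed) :
    maximalTime k = ⊤ ∧ cohomologicalTime k = ⊤ := by
  have h := mkD_inv F hc hj
  have hk' : ∀ x u v, k.g x u v = gf a (F.co x u) (F.co x v) := by
    intro x u v
    have h1 : ∀ u : TangentSpace 𝓘(ℝ, E) x, u = ∑ i, F.co x u i • F.Z i x := by
      intro u
      rw [← F.co_symm_apply, ContinuousLinearEquiv.symm_apply_apply]
    conv_lhs => rw [h1 u, h1 v]
    simp only [map_sum, map_smul, sum_apply, smul_apply, smul_eq_mul, hk, gf_apply]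
    rw [Finset.sum_comm (γ := Fin m) (f := fun i j => F.co x u i * F.co x v j * a i j)]
    refine Finset.sum_congr rfl fun i _ => ?_
    rw [Finset.mul_sum]
    refine Finset.sum_congr rfl fun l _ => ?_
    ring
  have ha := good_of h hk' hp
  constructor
  · apply ENNReal.eq_top_of_forall_nnreal_le
    intro r
    have hr : (0 : ℝ) < r + 1 := by positivity
    have h1 : ENNReal.ofReal ((r : ℝ) + 1) ≤ maximalTime k := by
      refine le_iSup₂_of_le ((r : ℝ) + 1) ⟨hr, h.exists_flow ha hk' hr⟩ le_rfl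
    refine le_trans ?_ h1
    rw [← ENNReal.ofReal_coe_nnreal]
    exact ENNReal.ofReal_le_ofReal (by linarith)
  · apply ENNReal.eq_top_of_forall_nnreal_le
    intro r
    have h1 : ENNReal.ofReal (r : ℝ) ≤ cohomologicalTime k := by
      refine le_iSup₂_of_le (r : ℝ) ⟨r.2, h.inCone ha hk' r⟩ le_rfl
    rwa [ENNReal.ofReal_coe_nnreal] at h1

end Run7.h533
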